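import Mathlib

set_option autoImplicit false

/-!
HD-INV.  The inverse of an increasing function on `[0, τ)` which tends to infinity: the order
isomorphism of `[0, τ)` and `[0, ∞)` and its inverse, which is continuous; the derivative is that of
a local left inverse.
-/

open Set Filter Topology

namespace Pool.Agent.CritPer.H

theorem exists_inv {ρ ρ' : ℝ → ℝ} {τ : ℝ} (hτ : 0 < τ)
    (hd : ∀ t, 0 ≤ t → t < τ → HasDerivAt ρ (ρ' t) t) (hpos : ∀ t, 0 ≤ t → t < τ → 0 < ρ' t)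
    (h0 : ρ 0 = 0) (hlim : Tendsto ρ (𝓝[<] τ) atTop) :
    ∃ T : ℝ → ℝ, T 0 = 0 ∧ ContinuousOn T (Ici 0) ∧
      (∀ r, 0 ≤ r → 0 ≤ T r ∧ T r < τ ∧ ρ (T r) = r) ∧ (∀ r, 0 < r → 0 < T r) ∧
      (∀ r, 0 < r → HasDerivAt T (ρ' (T r))⁻¹ r) ∧ Tendsto T atTop (𝓝 τ) := by
  classical
  have hcont : ContinuousOn ρ (Ico 0 τ) := fun t ht =>
    (hd t ht.1 ht.2).continuousAt.continuousWithinAt
  have hmono : StrictMonoOn ρ (Ico 0 τ) := by
    refine strictMonoOn_of_deriv_pos (convex_Ico 0 τ) hcont fun x hx => ?_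
    rw [interior_Ico] at hx
    rw [(hd x hx.1.le hx.2).deriv]
    exact hpos x hx.1.le hx.2
  have h0mem : (0 : ℝ) ∈ Ico 0 τ := ⟨le_refl 0, hτ⟩
  have hnn : ∀ t ∈ Ico (0 : ℝ) τ, 0 ≤ ρ t := by
    intro t ht
    rw [← h0]
    exact (hmono.le_iff_le h0mem ht).2 ht.1
  have hsurj : ∀ r : ℝ, 0 ≤ r → ∃ t ∈ Ico (0 : ℝ) τ, ρ t = r := by
    intro r hr
    have h1 : ∀ᶠ t in 𝓝[<] τ, r ≤ ρ t := hlim.eventually_ge_atTop r
    have h2 : ∀ᶠ t in 𝓝[<] τ, t ∈ Ioo 0 τ := Ioo_mem_nhdsLT hτ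
    obtain ⟨t1, h3, h4⟩ := (h1.and h2).exists
    have h5 : ContinuousOn ρ (Icc 0 t1) := hcont.mono fun x hx => ⟨hx.1, hx.2.trans_lt h4.2⟩
    have h6 := intermediate_value_Icc h4.1.le h5
    obtain ⟨t, ht, hrt⟩ := h6 (by rw [h0]; exact ⟨hr, h3⟩)
    exact ⟨t, ⟨ht.1, ht.2.trans_lt h4.2⟩, hrt⟩
  let f : Ico (0 : ℝ) τ → Ici (0 : ℝ) := fun t => ⟨ρ t, hnn t t.2⟩
  have hf : StrictMono f := by
    intro x y hxy
    exact hmono x.2 y.2 hxy
  have hfs : Function.Surjective f := by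
    intro y
    obtain ⟨t, ht, hrt⟩ := hsurj y y.2
    exact ⟨⟨t, ht⟩, Subtype.ext hrt⟩
  let e : Ico (0 : ℝ) τ ≃o Ici (0 : ℝ) := hf.orderIsoOfSurjective f hfs
  have he : ∀ y : Ici (0 : ℝ), ρ (e.symm y) = y := by
    intro y
    have h1 : f (e.symm y) = y := e.apply_symm_apply y
    exact congrArg Subtype.val h1
  let T : ℝ → ℝ := fun r => if h : 0 ≤ r then ((e.symm ⟨r, h⟩ : Ico (0 : ℝ) τ) : ℝ) else 0
  have hT : ∀ r (h : 0 ≤ r), T r = ((e.symm ⟨r, h⟩ : Ico (0 : ℝ) τ) : ℝ) := fun r h => dif_pos h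
  have hTm : ∀ r, 0 ≤ r → T r ∈ Ico 0 τ := by
    intro r h
    rw [hT r h]
    exact (e.symm ⟨r, h⟩).2
  have hρT : ∀ r, 0 ≤ r → ρ (T r) = r := by
    intro r h
    rw [hT r h]
    exact he ⟨r, h⟩
  have hTc : ContinuousOn T (Ici 0) := by
    rw [continuousOn_iff_continuous_domRestrict]
    have h1 : (Ici (0 : ℝ)).domRestrict T = fun y => ((e.symm y : Ico (0 : ℝ) τ) : ℝ) := by
      funext y
      exact hT y y.2
    rw [h1]
    exact continuous_subtype_val.comp e.symm.continuous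
  have hT0 : T 0 = 0 := by
    by_contra h
    have h1 := hTm 0 (le_refl 0)
    have h2 : 0 < T 0 := lt_of_le_of_ne h1.1 (Ne.symm h)
    have h3 := hmono h0mem h1 h2
    rw [h0, hρT 0 (le_refl 0)] at h3
    exact lt_irrefl _ h3
  refine ⟨T, hT0, hTc, fun r hr => ⟨(hTm r hr).1, (hTm r hr).2, hρT r hr⟩, ?_, ?_, ?_⟩
  · intro r hr
    have h1 := hTm r hr.le
    refine lt_of_le_of_ne h1.1 fun h2 => ?_
    have h3 := hρT r hr.le
    rw [← h2, h0] at h3
    exact hr.ne h3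
  · intro r hr
    have h1 := hTm r hr.le
    refine HasDerivAt.of_local_left_inverse
      ((hTc r hr.le).continuousAt (Ici_mem_nhds hr)) (hd (T r) h1.1 h1.2)
      (hpos (T r) h1.1 h1.2).ne' ?_
    filter_upwards [Ici_mem_nhds hr] with y hy
    exact hρT y hy
  · rw [tendsto_order]
    constructor
    · intro a ha
      obtain ⟨t, ht1, ht2⟩ := exists_between (max_lt ha hτ)
      have ht : t ∈ Ico 0 τ := ⟨((le_max_right a 0).trans_lt ht1).le, ht2⟩
      filter_upwards [eventually_ge_atTop (ρ t)] with r hr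
      have hr0 : 0 ≤ r := (hnn t ht).trans hr
      have h1 : t ≤ T r := by
        rw [← hmono.le_iff_le ht (hTm r hr0), hρT r hr0]
        exact hr
      exact ((le_max_left a 0).trans_lt ht1).trans_le h1
    · intro b hb
      filter_upwards [eventually_ge_atTop (0 : ℝ)] with r hr
      exact (hTm r hr).2.trans hb

end Pool.Agent.CritPer.H
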