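import Pool.Agent.CritPer.H.Dp
import Pool.Agent.CritPer.H.Inv

set_option autoImplicit false

/-!
HD-CHT.  The coordinates `r = y / x`, `S = x ^ (-2k)` along a quarter of an orbit.
PLAN.  `ρ t = y t / x t` on `[0, τ)`: derivative `(y p - x q) / x ^ 2 > 0` (`Arc.dpos`), `ρ 0 = 0`, `ρ t → ∞` for `t → τ` (`x → 0+`, `y → a > 0`).  `T` from `exists_inv`, `S r = ((x (T r)) ^ (2k))⁻¹`.
With `x = x (T r)`, `y = r x`, `p x y = x ^ (2k+1) p 1 r`, `q x y = x ^ (4k+1) q 1 r` (`Hyp.p_one`, `Hyp.q_one`): `y p - x q = x ^ (2k+2) (r p 1 r - x ^ (2k) q 1 r)`, `x ^ 2 / (y p - x q) = G r (S r)`; `den`: multiply by `S`.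
`dS`: chain rule, `x' = - x ^ (2k+1) p 1 r`.  `limS`: `r ^ (2k) / S r = (r x) ^ (2k) = y (T r) ^ (2k)`, `y` continuous at `τ`.
-/

open Set Filter Topology

namespace Pool.Agent.CritPer.H

variable {k : ℕ} {p q : ℝ → ℝ → ℝ} {b a τ : ℝ} {x y : ℝ → ℝ}

theorem exists_chart (H : Hyp k p q) (A : Arc p q b a τ x y) :
    ∃ S T : ℝ → ℝ, Chart k p q ((b ^ (2 * k))⁻¹) a τ S T := by
  have cx : Continuous x := continuous_iff_continuousAt.2 fun t => (A.dx t).continuousAt
  have cy : Continuous y := continuous_iff_continuousAt.2 fun t => (A.dy t).continuousAt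
  have hlim : Tendsto (fun t => y t / x t) (𝓝[<] τ) atTop := by
    have h1 : Tendsto y (𝓝[<] τ) (𝓝 a) := by
      have := (cy.tendsto τ).mono_left (nhdsWithin_le_nhds (s := Iio τ))
      rwa [A.y1] at this
    have h2 : Tendsto x (𝓝[<] τ) (𝓝[>] 0) := by
      refine tendsto_nhdsWithin_iff.2 ⟨?_, ?_⟩
      · have := (cx.tendsto τ).mono_left (nhdsWithin_le_nhds (s := Iio τ))
        rwa [A.x1] at this
      · have h3 : ∀ᶠ t in 𝓝[<] τ, t ∈ Ioo 0 τ := Ioo_mem_nhdsLT A.hτ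
        filter_upwards [h3] with t ht
        exact A.xpos t ht.1.le ht.2
    have h4 := h1.pos_mul_atTop A.ha (tendsto_inv_nhdsGT_zero.comp h2)
    refine h4.congr fun t => ?_
    show y t * (x t)⁻¹ = y t / x t
    rw [div_eq_mul_inv]
  obtain ⟨T, T0, cT, hT, hTpos, dT, limT⟩ := exists_inv
    (ρ := fun t => y t / x t)
    (ρ' := fun t => (y t * p (x t) (y t) - x t * q (x t) (y t)) / (x t) ^ 2) A.hτ
    (fun t h0 h1 => by
      have h := (A.dy t).div (A.dx t) (A.xpos t h0 h1).ne'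
      refine h.congr_deriv ?_
      congr 1
      ring)
    (fun t h0 h1 => div_pos (A.dpos H h0 h1.le) (pow_pos (A.xpos t h0 h1) 2))
    (by show y 0 / x 0 = 0; rw [A.y0, zero_div]) hlim
  have hx : ∀ r, 0 ≤ r → 0 < x (T r) := fun r hr => A.xpos _ (hT r hr).1 (hT r hr).2.1
  have hy : ∀ r, 0 ≤ r → y (T r) = r * x (T r) := fun r hr => by
    have h := (hT r hr).2.2
    change y (T r) / x (T r) = r at h
    rw [div_eq_iff (hx r hr).ne'] at h
    exact h
  -- the value of the denominator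
  have hden : ∀ r, 0 ≤ r → r * p 1 r * ((x (T r)) ^ (2 * k))⁻¹ - q 1 r =
      (y (T r) * p (x (T r)) (y (T r)) - x (T r) * q (x (T r)) (y (T r))) /
        (x (T r)) ^ (4 * k + 2) := by
    intro r hr
    have hx0 := (hx r hr).ne'
    rw [hy r hr, H.p_one, H.q_one]
    field_simp
    ring
  have hG : ∀ r, 0 ≤ r → G p q r ((x (T r)) ^ (2 * k))⁻¹ =
      ((y (T r) * p (x (T r)) (y (T r)) - x (T r) * q (x (T r)) (y (T r))) / (x (T r)) ^ 2)⁻¹ := by
    intro r hr
    have hx0 := (hx r hr).ne'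
    have hD := (A.dpos H (hT r hr).1 (hT r hr).2.1.le).ne'
    unfold G
    rw [hden r hr]
    field_simp
    ring
  refine ⟨fun r => ((x (T r)) ^ (2 * k))⁻¹, T, ?_⟩
  refine
    { hs := inv_pos.2 (pow_pos A.hb _)
      S0 := by show ((x (T 0)) ^ (2 * k))⁻¹ = _; rw [T0, A.x0]
      T0 := T0
      cS := ?_
      cT := cT
      Spos := fun r hr => inv_pos.2 (pow_pos (hx r hr) _)
      den := fun r hr => ?_
      dS := fun r hr => ?_
      dT := fun r hr => ?_
      limT := limT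
      limS := ?_ }
  · refine ContinuousOn.inv₀ ((cx.comp_continuousOn cT).pow _) fun r hr => ?_
    exact (pow_pos (hx r hr) _).ne'
  · show 0 < r * p 1 r * ((x (T r)) ^ (2 * k))⁻¹ - q 1 r
    rw [hden r hr]
    exact div_pos (A.dpos H (hT r hr).1 (hT r hr).2.1.le) (pow_pos (hx r hr) _)
  · have hx0 := (hx r hr.le).ne'
    have h1 : HasDerivAt (fun r => x (T r)) (-(p (x (T r)) (y (T r))) *
        ((y (T r) * p (x (T r)) (y (T r)) - x (T r) * q (x (T r)) (y (T r))) / (x (T r)) ^ 2)⁻¹) r :=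
      (A.dx (T r)).comp r (dT r hr)
    have h2 := (h1.pow (2 * k)).inv (pow_ne_zero _ hx0)
    rw [← hG r hr.le] at h2
    refine h2.congr_deriv ?_
    show _ = 2 * k * p 1 r * G p q r ((x (T r)) ^ (2 * k))⁻¹
    obtain ⟨m, hm⟩ : ∃ m, k = m + 1 := ⟨k - 1, by have := H.hk; omega⟩
    have h3 : p (x (T r)) (y (T r)) = x (T r) ^ (2 * k + 1) * p 1 r := by
      rw [hy r hr.le, H.p_one]
    rw [h3]
    subst hm
    simp only [Pi.pow_apply]
    generalize G p q r ((x (T r)) ^ (2 * (m + 1)))⁻¹ = g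
    rw [show 2 * (m + 1) - 1 = 2 * m + 1 by omega]
    push_cast
    field_simp
    ring
  · show HasDerivAt T (G p q r ((x (T r)) ^ (2 * k))⁻¹) r
    rw [hG r hr.le]
    exact dT r hr
  · have h1 : Tendsto (fun r => (y (T r)) ^ (2 * k)) atTop (𝓝 (a ^ (2 * k))) := by
      have h2 := ((cy.tendsto τ).comp limT).pow (2 * k)
      rw [A.y1] at h2
      exact h2
    refine h1.congr' ?_
    filter_upwards [eventually_ge_atTop (0 : ℝ)] with r hr
    show _ = r ^ (2 * k) / ((x (T r)) ^ (2 * k))⁻¹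
    rw [hy r hr, mul_pow, div_inv_eq_mul]

end Pool.Agent.CritPer.H
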