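import Pool.Agent.CritPer.H.Cmp
import Pool.Agent.CritPer.H.Cht

set_option autoImplicit false

/-!
HD-ALP.  The map from the first to the second axis is increasing and injective.
PLAN.  `alpha_mono`: `exists_chart` for both arcs, `b₁ ≤ b₂` gives `s₂ ≤ s₁`, `chart_le`, so `r ^ (2k) / S₁ r ≤ r ^ (2k) / S₂ r`; with `limS`: `a₁ ^ (2k) ≤ a₂ ^ (2k)` (`le_of_tendsto_of_tendsto`), take roots.
`arc_inj`: `w_i (t) = (x_i (τ_i - t), y_i (τ_i - t))` solve `z' = (p, q)` with the same value `(0, a)` at `0`, so they agree (`IsSol.unique` with `X z = (p z.1 z.2, q z.1 z.2)`); if `τ₁ < τ₂` then `w₂ τ₁` has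
positive second component (`ypos` at the time `τ₂ - τ₁`), but `w₁ τ₁ = (b₁, 0)`.  So `τ₁ = τ₂` and `b₁ = b₂`.
-/

open Set Filter Topology

namespace Pool.Agent.CritPer.H

variable {k : ℕ} {p q : ℝ → ℝ → ℝ}

private theorem alp_field (H : Hyp k p q) :
    ContDiff ℝ 1 (fun z : ℝ × ℝ => ((p z.1 z.2, q z.1 z.2) : ℝ × ℝ)) := H.cp.prodMk H.cq

private theorem alp_field_neg (H : Hyp k p q) :
    ContDiff ℝ 1 (fun z : ℝ × ℝ => ((-(p z.1 z.2), -(q z.1 z.2)) : ℝ × ℝ)) :=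
  H.cp.neg.prodMk H.cq.neg

private theorem alp_fwd {b a τ : ℝ} {x y : ℝ → ℝ} (A : Arc p q b a τ x y) :
    IsSol (fun z : ℝ × ℝ => ((-(p z.1 z.2), -(q z.1 z.2)) : ℝ × ℝ))
      (fun t => ((x t, y t) : ℝ × ℝ)) := fun t => (A.dx t).prodMk (A.dy t)

private theorem alp_rev {b a τ : ℝ} {x y : ℝ → ℝ} (A : Arc p q b a τ x y) :
    IsSol (fun z : ℝ × ℝ => ((p z.1 z.2, q z.1 z.2) : ℝ × ℝ))
      (fun t => ((x (τ - t), y (τ - t)) : ℝ × ℝ)) := by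
  intro t
  have h1 : HasDerivAt (fun t : ℝ => τ - t) (-1) t := by
    have h := (hasDerivAt_id t).const_sub τ
    exact h
  have hx : HasDerivAt (fun t : ℝ => x (τ - t)) (p (x (τ - t)) (y (τ - t))) t := by
    have h := (A.dx (τ - t)).comp t h1
    rw [mul_neg_one, neg_neg] at h
    exact h
  have hy : HasDerivAt (fun t : ℝ => y (τ - t)) (q (x (τ - t)) (y (τ - t))) t := by
    have h := (A.dy (τ - t)).comp t h1
    rw [mul_neg_one, neg_neg] at h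
    exact h
  exact hx.prodMk hy

theorem alpha_mono (H : Hyp k p q) {b₁ a₁ τ₁ b₂ a₂ τ₂ : ℝ} {x₁ y₁ x₂ y₂ : ℝ → ℝ}
    (A₁ : Arc p q b₁ a₁ τ₁ x₁ y₁) (A₂ : Arc p q b₂ a₂ τ₂ x₂ y₂) (h : b₁ ≤ b₂) : a₁ ≤ a₂ := by
  obtain ⟨S₁, T₁, C₁⟩ := exists_chart H A₁
  obtain ⟨S₂, T₂, C₂⟩ := exists_chart H A₂
  have hs : (b₂ ^ (2 * k))⁻¹ ≤ (b₁ ^ (2 * k))⁻¹ :=
    inv_anti₀ (pow_pos A₁.hb _) (pow_le_pow_left₀ A₁.hb.le h _)
  have hle := chart_le H C₂ C₁ hs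
  have hev : ∀ᶠ r : ℝ in atTop, r ^ (2 * k) / S₁ r ≤ r ^ (2 * k) / S₂ r := by
    filter_upwards [eventually_ge_atTop (0 : ℝ)] with r hr
    exact div_le_div_of_nonneg_left (pow_nonneg hr _) (C₂.Spos r hr) (hle r hr)
  have hlim : a₁ ^ (2 * k) ≤ a₂ ^ (2 * k) := le_of_tendsto_of_tendsto C₁.limS C₂.limS hev
  have hk : 2 * k ≠ 0 := by
    have := H.hk
    omega
  exact (pow_le_pow_iff_left₀ A₁.ha.le A₂.ha.le hk).1 hlim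

theorem arc_inj (H : Hyp k p q) {b₁ a τ₁ b₂ τ₂ : ℝ} {x₁ y₁ x₂ y₂ : ℝ → ℝ}
    (A₁ : Arc p q b₁ a τ₁ x₁ y₁) (A₂ : Arc p q b₂ a τ₂ x₂ y₂) : b₁ = b₂ := by
  have hrev : (fun t => ((x₁ (τ₁ - t), y₁ (τ₁ - t)) : ℝ × ℝ)) =
      fun t => ((x₂ (τ₂ - t), y₂ (τ₂ - t)) : ℝ × ℝ) := by
    refine IsSol.unique (alp_field H) (alp_rev A₁) (alp_rev A₂) ?_
    show ((x₁ (τ₁ - 0), y₁ (τ₁ - 0)) : ℝ × ℝ) = (x₂ (τ₂ - 0), y₂ (τ₂ - 0))
    rw [sub_zero, sub_zero, A₁.x1, A₁.y1, A₂.x1, A₂.y1]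
  have hx : ∀ t, x₁ (τ₁ - t) = x₂ (τ₂ - t) := fun t => congrArg Prod.fst (congrFun hrev t)
  have hy : ∀ t, y₁ (τ₁ - t) = y₂ (τ₂ - t) := fun t => congrArg Prod.snd (congrFun hrev t)
  have hτ : τ₁ = τ₂ := by
    rcases lt_trichotomy τ₁ τ₂ with hlt | heq | hgt
    · exfalso
      have h1 := hy τ₁
      rw [sub_self, A₁.y0] at h1
      have h2 := A₂.ypos (τ₂ - τ₁) (by linarith) (by linarith [A₁.hτ])
      linarith
    · exact heq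
    · exfalso
      have h1 := hy τ₂
      rw [sub_self, A₂.y0] at h1
      have h2 := A₁.ypos (τ₁ - τ₂) (by linarith) (by linarith [A₂.hτ])
      linarith
  have h3 := hx τ₁
  rw [sub_self, A₁.x0, hτ, sub_self, A₂.x0] at h3
  exact h3

/-- the quarter time depends only on `b` -/
theorem arc_time (H : Hyp k p q) {b a₁ a₂ τ₁ τ₂ : ℝ} {x₁ y₁ x₂ y₂ : ℝ → ℝ}
    (A₁ : Arc p q b a₁ τ₁ x₁ y₁) (A₂ : Arc p q b a₂ τ₂ x₂ y₂) : τ₁ = τ₂ ∧ a₁ = a₂ := by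
  have hfwd : (fun t => ((x₁ t, y₁ t) : ℝ × ℝ)) = fun t => ((x₂ t, y₂ t) : ℝ × ℝ) := by
    refine IsSol.unique (alp_field_neg H) (alp_fwd A₁) (alp_fwd A₂) ?_
    show ((x₁ 0, y₁ 0) : ℝ × ℝ) = (x₂ 0, y₂ 0)
    rw [A₁.x0, A₁.y0, A₂.x0, A₂.y0]
  have hx : ∀ t, x₁ t = x₂ t := fun t => congrArg Prod.fst (congrFun hfwd t)
  have hy : ∀ t, y₁ t = y₂ t := fun t => congrArg Prod.snd (congrFun hfwd t)
  have hτ : τ₁ = τ₂ := by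
    rcases lt_trichotomy τ₁ τ₂ with hlt | heq | hgt
    · exfalso
      have h1 := A₂.xpos τ₁ A₁.hτ.le hlt
      rw [← hx τ₁, A₁.x1] at h1
      exact lt_irrefl _ h1
    · exact heq
    · exfalso
      have h1 := A₁.xpos τ₂ A₂.hτ.le hgt
      rw [hx τ₂, A₂.x1] at h1
      exact lt_irrefl _ h1
  refine ⟨hτ, ?_⟩
  have h3 := hy τ₁
  rw [A₁.y1, hτ, A₂.y1] at h3
  exact h3

end Pool.Agent.CritPer.H
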