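import Pool.Agent.CritPer.M.Split
import Pool.Agent.CritPer.M.Small

set_option autoImplicit false

/-!
HD-BAS.  The example `q(u,v) = u^n - u^(n-1) v` (in the notation of the library: `S(K) = 1 - K`): explicit orbits
`v(u) = exp (u^n / n) * ∫ s in u..a, s^n * exp (-(s^n / n))`.
-/

open Set Filter Topology Polynomial MeasureTheory

namespace Pool.Agent.CritPer.H

open Pool.Agent.CritPer.L Pool.Agent.CritPer.M

/-- `S(K) = 1 - K` -/
noncomputable def S1 : ℝ[X] := 1 - X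

/-- the orbits -/
noncomputable def ve (n : ℕ) (a u : ℝ) : ℝ :=
  Real.exp (u ^ n / n) * ∫ s in u..a, s ^ n * Real.exp (-(s ^ n / n))

variable {n : ℕ}

theorem S1_coeff_zero : S1.coeff 0 = 1 := by
  simp [S1]

theorem qf_S1 (hn : 1 ≤ n) (u v : ℝ) : qf S1 n u v = u ^ n - u ^ (n - 1) * v := by
  obtain ⟨m, rfl⟩ : ∃ m, n = m + 1 := ⟨n - 1, by omega⟩
  unfold qf
  have h0 : S1.coeff 0 = 1 := S1_coeff_zero
  have h1 : S1.coeff 1 = -1 := by
    simp [S1, coeff_one, coeff_X]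
  have h2 : ∀ j, S1.coeff (j + 2) = 0 := by
    intro j
    simp [S1, coeff_one, coeff_X]
  rw [Finset.sum_range_succ', Finset.sum_range_succ']
  rw [Finset.sum_eq_zero (fun j _ => by rw [show j + 1 + 1 = j + 2 by ring, h2]; ring)]
  rw [show (0 : ℕ) + 1 = 1 by ring, h0, h1]
  simp
  ring

theorem isV_ve (hn : 1 ≤ n) {a : ℝ} (ha : 0 < a) : IsV S1 n a (ve n a) := by
  have hn0 : (n : ℝ) ≠ 0 := by
    have : 0 < n := hn
    positivity
  refine ⟨by simp [ve], fun u _ => ?_⟩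
  rw [qf_S1 hn]
  have hc : Continuous fun s : ℝ => s ^ n * Real.exp (-(s ^ n / n)) := by fun_prop
  have h1 : HasDerivAt (fun u : ℝ => ∫ s in u..a, s ^ n * Real.exp (-(s ^ n / n)))
      (-(u ^ n * Real.exp (-(u ^ n / n)))) u :=
    intervalIntegral.integral_hasDerivAt_left (hc.intervalIntegrable _ _)
      (hc.stronglyMeasurableAtFilter _ _) hc.continuousAt
  have h2 : HasDerivAt (fun u : ℝ => Real.exp (u ^ n / n)) (Real.exp (u ^ n / n) * u ^ (n - 1)) u := by
    have h3 : HasDerivAt (fun u : ℝ => u ^ n / n) (u ^ (n - 1)) u := by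
      have h4 := (hasDerivAt_pow n u).div_const (n : ℝ)
      rw [mul_div_cancel_left₀ _ hn0] at h4
      exact h4
    exact h3.exp
  have h5 := h2.mul h1
  refine (h5.congr_deriv ?_).hasDerivWithinAt
  have h6 : Real.exp (u ^ n / n) * Real.exp (-(u ^ n / n)) = 1 := by
    rw [← Real.exp_add, add_neg_cancel, Real.exp_zero]
  unfold ve
  linear_combination (-(u ^ n)) * h6

theorem ok_S1 (hn : 1 ≤ n) {a : ℝ} (ha : 0 < a) : Ok S1 n a :=
  ⟨hn, by rw [S1_coeff_zero]; exact one_pos, ha, ve n a, isW_zero_iff.2 (isV_ve hn ha)⟩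

theorem vs_S1 (hn : 1 ≤ n) {a : ℝ} (ha : 0 < a) {u : ℝ} (hu : u ∈ Icc 0 a) :
    vs S1 n a u = ve n a u := by
  exact ((ok_S1 hn ha).eq_of_isW le_rfl (isW_zero_iff.2 (isV_ve hn ha)) hu).symm

end Pool.Agent.CritPer.H
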