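import Pool.Agent.CritPer.H.Bas

set_option autoImplicit false

/-!
HD-BASB.  Bounds of `ve n a u = exp (u^n/n) * ∫ s in u..a, s^n exp (-s^n/n)`.
The integrals are compared with the increments of explicit functions (`-(s + 1) exp (-s^n/n)`, `-u exp (-s^n/n)`,
`-exp (-K (s - u))`).
-/

open Set Filter Topology Polynomial MeasureTheory

namespace Pool.Agent.CritPer.H

variable {n : ℕ}

private noncomputable def bsbE (n : ℕ) (s : ℝ) : ℝ := Real.exp (-(s ^ n / n))

private noncomputable def bsbG (n : ℕ) (s : ℝ) : ℝ := s ^ n * Real.exp (-(s ^ n / n))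

private theorem bsb_contG (n : ℕ) : Continuous (bsbG n) := by
  unfold bsbG
  fun_prop

private theorem bsb_derE (hn : 1 ≤ n) (s : ℝ) : HasDerivAt (bsbE n) (-(s ^ (n - 1)) * bsbE n s) s := by
  have hn0 : (n : ℝ) ≠ 0 := by positivity
  have h1 : HasDerivAt (fun s : ℝ => -(s ^ n / n)) (-(s ^ (n - 1))) s := by
    have h2 := ((hasDerivAt_pow n s).div_const (n : ℝ)).neg
    have e : -(↑n * s ^ (n - 1) / ↑n) = -(s ^ (n - 1)) := by
      field_simp
    rw [e] at h2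
    exact h2
  have h3 := h1.exp
  rw [mul_comm] at h3
  exact h3

private theorem bsb_pos (n : ℕ) (s : ℝ) : 0 < bsbE n s := Real.exp_pos _

private theorem bsb_up {F F' g : ℝ → ℝ} {u a : ℝ} (hua : u ≤ a) (hF : ∀ s, HasDerivAt F (F' s) s)
    (hg : Continuous g) (h : ∀ s ∈ Icc u a, g s ≤ F' s) : ∫ s in u..a, g s ≤ F a - F u :=
  intervalIntegral.integral_le_sub_of_hasDeriv_right_of_le hua
    (fun s _ => (hF s).continuousAt.continuousWithinAt) (fun s _ => (hF s).hasDerivWithinAt)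
    hg.continuousOn.integrableOn_Icc (fun s hs => h s ⟨hs.1.le, hs.2.le⟩)

private theorem bsb_lo {F F' g : ℝ → ℝ} {u a : ℝ} (hua : u ≤ a) (hF : ∀ s, HasDerivAt F (F' s) s)
    (hg : Continuous g) (h : ∀ s ∈ Icc u a, F' s ≤ g s) : F a - F u ≤ ∫ s in u..a, g s :=
  intervalIntegral.sub_le_integral_of_hasDeriv_right_of_le hua
    (fun s _ => (hF s).continuousAt.continuousWithinAt) (fun s _ => (hF s).hasDerivWithinAt)
    hg.continuousOn.integrableOn_Icc (fun s hs => h s ⟨hs.1.le, hs.2.le⟩)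

private theorem bsb_powe (hn : 1 ≤ n) (s : ℝ) : s ^ n = s * s ^ (n - 1) := by
  rw [← pow_succ', Nat.sub_add_cancel hn]

private theorem bsb_A (hn : 1 ≤ n) {u a : ℝ} (hu : 1 ≤ u) (hua : u ≤ a) :
    ∫ s in u..a, bsbG n s ≤ (u + 1) * bsbE n u := by
  have hF : ∀ s, HasDerivAt (fun s => -(s + 1) * bsbE n s)
      (-1 * bsbE n s + -(s + 1) * (-(s ^ (n - 1)) * bsbE n s)) s := by
    intro s
    exact (((hasDerivAt_id s).add_const 1).neg).mul (bsb_derE hn s)
  have h := bsb_up hua hF (bsb_contG n) (fun s hs => by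
    have h1 : 1 ≤ s := hu.trans hs.1
    have h2 : 1 ≤ s ^ (n - 1) := one_le_pow₀ h1
    have h3 := bsb_pos n s
    have h4 : bsbG n s = s * s ^ (n - 1) * bsbE n s := by
      rw [← bsb_powe hn]
      rfl
    rw [h4]
    nlinarith)
  have h1 := bsb_pos n a
  have h2 : 0 ≤ (a + 1) * bsbE n a := by
    have : 0 ≤ a + 1 := by linarith
    positivity
  linarith

private theorem bsb_B (hn : 1 ≤ n) {u a : ℝ} (hu : 0 ≤ u) (hua : u ≤ a) :
    u * (bsbE n u - bsbE n a) ≤ ∫ s in u..a, bsbG n s := by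
  have hF : ∀ s, HasDerivAt (fun s => -u * bsbE n s) (-u * (-(s ^ (n - 1)) * bsbE n s)) s := by
    intro s
    exact (bsb_derE hn s).const_mul (-u)
  have h := bsb_lo hua hF (bsb_contG n) (fun s hs => by
    have h1 : 0 ≤ s := hu.trans hs.1
    have h2 : 0 ≤ s ^ (n - 1) := by positivity
    have h3 := bsb_pos n s
    have h4 : bsbG n s = s * s ^ (n - 1) * bsbE n s := by
      rw [← bsb_powe hn]
      rfl
    rw [h4]
    have h5 : 0 ≤ s ^ (n - 1) * bsbE n s := by positivity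
    nlinarith [hs.1])
  linarith

private theorem bsb_nonneg {s : ℝ} (hs : 0 ≤ s) : 0 ≤ bsbG n s := by
  unfold bsbG
  positivity

private theorem bsb_sub {u c d a : ℝ} (hu : 0 ≤ u) (h1 : u ≤ c) (h2 : c ≤ d) (h3 : d ≤ a) :
    ∫ s in c..d, bsbG n s ≤ ∫ s in u..a, bsbG n s := by
  refine intervalIntegral.integral_mono_interval h1 h2 h3 ?_ ((bsb_contG n).intervalIntegrable _ _)
  filter_upwards [ae_restrict_mem measurableSet_Ioc] with s hs
  exact bsb_nonneg (hu.trans hs.1.le)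

private theorem bsb_ve (n : ℕ) (a u : ℝ) : ve n a u = Real.exp (u ^ n / n) * ∫ s in u..a, bsbG n s := rfl

private theorem bsb_inv (n : ℕ) (u : ℝ) : Real.exp (u ^ n / n) * bsbE n u = 1 := by
  unfold bsbE
  rw [← Real.exp_add, add_neg_cancel, Real.exp_zero]

/-- `a ^ n - c ^ n ≥ n (a - c)` -/
private theorem bsb_bern (m : ℕ) {c a : ℝ} (hc : 1 ≤ c) (hca : c ≤ a) : m * (a - c) ≤ a ^ m - c ^ m := by
  induction m with
  | zero => simp
  | succ m ih =>
    have h1 : 1 ≤ a ^ m := one_le_pow₀ (hc.trans hca)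
    have h2 : a ^ (m + 1) - c ^ (m + 1) = a ^ m * (a - c) + c * (a ^ m - c ^ m) := by ring
    rw [h2]
    push_cast
    have h3 : 0 ≤ a - c := by linarith
    have h4 : 0 ≤ a ^ m - c ^ m := by
      have : 0 ≤ (m : ℝ) * (a - c) := by positivity
      linarith
    nlinarith

private theorem bsb_e_le (hn : 1 ≤ n) {c a : ℝ} (hc : 1 ≤ c) (hca : c ≤ a) :
    bsbE n a ≤ bsbE n c * Real.exp (-(a - c)) := by
  unfold bsbE
  rw [← Real.exp_add, Real.exp_le_exp]
  have h1 := bsb_bern n hc hca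
  have hn0 : (0 : ℝ) < n := by positivity
  have h2 : a - c ≤ (a ^ n - c ^ n) / n := by
    rw [le_div_iff₀ hn0]
    linarith
  rw [sub_div] at h2
  linarith

/-- `s ^ (m + 1) - u ^ (m + 1) ≤ (m + 1) a ^ m (s - u)` -/
private theorem bsb_lip (m : ℕ) {u s a : ℝ} (hu : 0 ≤ u) (hus : u ≤ s) (hsa : s ≤ a) :
    s ^ (m + 1) - u ^ (m + 1) ≤ (m + 1) * a ^ m * (s - u) := by
  induction m with
  | zero => simp
  | succ m ih =>
    have e : s ^ (m + 1 + 1) - u ^ (m + 1 + 1) = s * (s ^ (m + 1) - u ^ (m + 1)) + u ^ (m + 1) * (s - u) := by ring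
    have h0 : 0 ≤ s := hu.trans hus
    have ha : 0 ≤ a := h0.trans hsa
    have h1 : 0 ≤ (m + 1) * a ^ m * (s - u) := by
      have : 0 ≤ s - u := by linarith
      positivity
    have h2 : s * (s ^ (m + 1) - u ^ (m + 1)) ≤ a * ((m + 1) * a ^ m * (s - u)) :=
      (mul_le_mul_of_nonneg_left ih h0).trans (mul_le_mul_of_nonneg_right hsa h1)
    have h3 : u ^ (m + 1) ≤ a ^ (m + 1) := pow_le_pow_left₀ hu (hus.trans hsa) _
    have h4 : u ^ (m + 1) * (s - u) ≤ a ^ (m + 1) * (s - u) :=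
      mul_le_mul_of_nonneg_right h3 (by linarith)
    rw [e]
    calc s * (s ^ (m + 1) - u ^ (m + 1)) + u ^ (m + 1) * (s - u)
        ≤ a * ((m + 1) * a ^ m * (s - u)) + a ^ (m + 1) * (s - u) := add_le_add h2 h4
      _ = (((m + 1 : ℕ) : ℝ) + 1) * a ^ (m + 1) * (s - u) := by
        push_cast
        ring

theorem ve_le (hn : 1 ≤ n) {a u : ℝ} (hu : 1 ≤ u) (hua : u ≤ a) : ve n a u ≤ u + 1 := by
  rw [bsb_ve]
  have h1 := bsb_A hn hu hua
  have h2 := bsb_inv n u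
  calc Real.exp (u ^ n / n) * ∫ s in u..a, bsbG n s
      ≤ Real.exp (u ^ n / n) * ((u + 1) * bsbE n u) := mul_le_mul_of_nonneg_left h1 (Real.exp_pos _).le
    _ = (u + 1) * (Real.exp (u ^ n / n) * bsbE n u) := by ring
    _ = u + 1 := by rw [h2, mul_one]

theorem ve_ge_small (hn : 1 ≤ n) : ∃ c : ℝ, 0 < c ∧ ∀ a : ℝ, 2 ≤ a → ∀ u : ℝ, 0 ≤ u → u ≤ 1 →
    c ≤ ve n a u := by
  refine ⟨bsbE n 2, bsb_pos n 2, fun a ha u hu hu1 => ?_⟩
  have hn0 : (0 : ℝ) < n := by positivity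
  have h1 : bsbE n 2 ≤ ∫ s in (1 : ℝ)..2, bsbG n s := by
    have hF : ∀ s : ℝ, HasDerivAt (fun s => bsbE n 2 * s) (bsbE n 2 * 1) s := fun s =>
      (hasDerivAt_id s).const_mul (bsbE n 2)
    have h := bsb_lo (by norm_num : (1 : ℝ) ≤ 2) hF (bsb_contG n) (fun s hs => by
      have h2 : 1 ≤ s ^ n := one_le_pow₀ hs.1
      have h3 : bsbE n 2 ≤ Real.exp (-(s ^ n / n)) := by
        unfold bsbE
        rw [Real.exp_le_exp]
        have h4 : s ^ n ≤ 2 ^ n := pow_le_pow_left₀ (by linarith [hs.1]) hs.2 _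
        have h5 : s ^ n / n ≤ 2 ^ n / n := div_le_div_of_nonneg_right h4 hn0.le
        linarith
      unfold bsbG
      have h6 : 0 < Real.exp (-(s ^ n / n)) := Real.exp_pos _
      nlinarith)
    linarith
  have h2 : ∫ s in (1 : ℝ)..2, bsbG n s ≤ ∫ s in u..a, bsbG n s := bsb_sub hu hu1 (by norm_num) ha
  have h3 : 1 ≤ Real.exp (u ^ n / n) := Real.one_le_exp (by positivity)
  have h4 := bsb_pos n 2
  rw [bsb_ve]
  nlinarith

theorem ve_ge_half (hn : 1 ≤ n) {a u : ℝ} (hu : 1 ≤ u) (hua : 2 * u ≤ a) : u / 2 ≤ ve n a u := by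
  have h1 : u * (bsbE n u - bsbE n a) ≤ ∫ s in u..a, bsbG n s := bsb_B hn (by linarith) (by linarith)
  have h2 := bsb_inv n u
  have h3 : bsbE n a ≤ bsbE n u * Real.exp (-(a - u)) := bsb_e_le hn hu (by linarith)
  have h4 : Real.exp (-(a - u)) ≤ 1 / 2 := by
    have h5 : Real.exp (-(a - u)) ≤ Real.exp (-1) := by
      rw [Real.exp_le_exp]
      linarith
    exact h5.trans Real.exp_neg_one_lt_half.le
  have h5 := bsb_pos n u
  have h6 : bsbE n a ≤ bsbE n u * (1 / 2) := h3.trans (mul_le_mul_of_nonneg_left h4 h5.le)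
  have h7 : u * (bsbE n u * (1 / 2)) ≤ ∫ s in u..a, bsbG n s := by
    refine le_trans ?_ h1
    exact mul_le_mul_of_nonneg_left (by linarith) (by linarith)
  rw [bsb_ve]
  calc u / 2 = (Real.exp (u ^ n / n) * bsbE n u) * (u * (1 / 2)) := by rw [h2]; ring
    _ = Real.exp (u ^ n / n) * (u * (bsbE n u * (1 / 2))) := by ring
    _ ≤ _ := mul_le_mul_of_nonneg_left h7 (Real.exp_pos _).le

theorem ve_lower (hn : 1 ≤ n) {a u : ℝ} (hu : 0 < u) (hua : u ≤ a) :
    u ^ n * (1 - Real.exp (-(a ^ (n - 1) * (a - u)))) ≤ a ^ (n - 1) * ve n a u := by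
  obtain ⟨m, rfl⟩ : ∃ m, n = m + 1 := ⟨n - 1, by omega⟩
  rw [Nat.add_sub_cancel]
  have ha : 0 < a := hu.trans_le hua
  have hm0 : (0 : ℝ) < ((m + 1 : ℕ) : ℝ) := by positivity
  obtain ⟨K, hK⟩ : ∃ K, K = a ^ m := ⟨_, rfl⟩
  have hK0 : 0 < K := by rw [hK]; positivity
  rw [← hK]
  have hF : ∀ s : ℝ, HasDerivAt (fun s => -(u ^ (m + 1)) * Real.exp (-(K * (s - u))))
      (-(u ^ (m + 1)) * (Real.exp (-(K * (s - u))) * -(K * 1))) s := by
    intro s
    have h1 : HasDerivAt (fun s : ℝ => -(K * (s - u))) (-(K * 1)) s :=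
      (((hasDerivAt_id s).sub_const u).const_mul K).neg
    exact h1.exp.const_mul _
  have hg : Continuous (fun s => K * (Real.exp (u ^ (m + 1) / ((m + 1 : ℕ) : ℝ)) * bsbG (m + 1) s)) :=
    continuous_const.mul (continuous_const.mul (bsb_contG (m + 1)))
  have h := bsb_lo hua hF hg (fun s hs => by
    have hs0 : 0 < s := hu.trans_le hs.1
    have h1 : u ^ (m + 1) ≤ s ^ (m + 1) := pow_le_pow_left₀ hu.le hs.1 _
    have h2 : Real.exp (-(K * (s - u))) ≤
        Real.exp (u ^ (m + 1) / ((m + 1 : ℕ) : ℝ)) * Real.exp (-(s ^ (m + 1) / ((m + 1 : ℕ) : ℝ))) := by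
      rw [← Real.exp_add, Real.exp_le_exp]
      have h3 := bsb_lip m hu.le hs.1 hs.2
      have h4 : (s ^ (m + 1) - u ^ (m + 1)) / ((m + 1 : ℕ) : ℝ) ≤ K * (s - u) := by
        rw [div_le_iff₀ hm0, hK]
        push_cast
        linarith
      rw [sub_div] at h4
      linarith
    have h5 : u ^ (m + 1) * Real.exp (-(K * (s - u))) ≤ s ^ (m + 1) *
        (Real.exp (u ^ (m + 1) / ((m + 1 : ℕ) : ℝ)) * Real.exp (-(s ^ (m + 1) / ((m + 1 : ℕ) : ℝ)))) :=
      mul_le_mul h1 h2 (Real.exp_pos _).le (by positivity)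
    have h6 := mul_le_mul_of_nonneg_left h5 hK0.le
    unfold bsbG
    calc -(u ^ (m + 1)) * (Real.exp (-(K * (s - u))) * -(K * 1))
        = K * (u ^ (m + 1) * Real.exp (-(K * (s - u)))) := by ring
      _ ≤ _ := h6
      _ = _ := by ring)
  rw [intervalIntegral.integral_const_mul, intervalIntegral.integral_const_mul] at h
  rw [bsb_ve]
  refine le_trans (le_of_eq ?_) h
  simp only [sub_self, mul_zero, neg_zero, Real.exp_zero]
  ring

theorem ve_ratio (hn : 1 ≤ n) {η a a' u : ℝ} (hη : 0 < η) (hη' : η ≤ 1 / 2) (ha : 2 ≤ a)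
    (h1 : 1 ≤ η * a) (haa : a ≤ a') (hu : 0 ≤ u) (hu' : u ≤ (1 - η) * a) :
    ve n a' u - ve n a u ≤ 8 * Real.exp (-(η * a)) * ve n a' u := by
  obtain ⟨c, hc⟩ : ∃ c, c = (1 - η) * a := ⟨_, rfl⟩
  rw [← hc] at hu'
  have hca : c ≤ a := by rw [hc]; nlinarith
  have hc2 : a / 2 ≤ c := by rw [hc]; nlinarith
  have hc1 : 1 ≤ c := by linarith
  have hac : a - c = η * a := by rw [hc]; ring
  have i1 : ∫ s in a..a', bsbG n s ≤ (a + 1) * bsbE n a := bsb_A hn (by linarith) haa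
  have i2 : c * (bsbE n c - bsbE n a) ≤ ∫ s in c..a, bsbG n s := bsb_B hn (by linarith) hca
  have i3 : ∫ s in c..a, bsbG n s ≤ ∫ s in u..a', bsbG n s := bsb_sub hu hu' hca haa
  have i4 : (∫ s in u..a, bsbG n s) + ∫ s in a..a', bsbG n s = ∫ s in u..a', bsbG n s :=
    intervalIntegral.integral_add_adjacent_intervals ((bsb_contG n).intervalIntegrable _ _)
      ((bsb_contG n).intervalIntegrable _ _)
  have h3 : bsbE n a ≤ bsbE n c * Real.exp (-(η * a)) := by
    rw [← hac]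
    exact bsb_e_le hn hc1 hca
  have h4 : Real.exp (-(η * a)) ≤ 1 / 2 := by
    have h5 : Real.exp (-(η * a)) ≤ Real.exp (-1) := by
      rw [Real.exp_le_exp]
      linarith
    exact h5.trans Real.exp_neg_one_lt_half.le
  have h5 := bsb_pos n c
  have h6 : bsbE n a ≤ bsbE n c * (1 / 2) := h3.trans (mul_le_mul_of_nonneg_left h4 h5.le)
  have h7 : c * (bsbE n c * (1 / 2)) ≤ ∫ s in u..a', bsbG n s := by
    refine le_trans ?_ (i2.trans i3)
    exact mul_le_mul_of_nonneg_left (by linarith) (by linarith)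
  have hx := Real.exp_pos (-(η * a))
  have h8 : ∫ s in a..a', bsbG n s ≤ 8 * Real.exp (-(η * a)) * ∫ s in u..a', bsbG n s := by
    calc ∫ s in a..a', bsbG n s ≤ (a + 1) * bsbE n a := i1
      _ ≤ (a + 1) * (bsbE n c * Real.exp (-(η * a))) := mul_le_mul_of_nonneg_left h3 (by linarith)
      _ ≤ (8 * (c * (1 / 2))) * (bsbE n c * Real.exp (-(η * a))) :=
        mul_le_mul_of_nonneg_right (by linarith) (by positivity)
      _ = 8 * Real.exp (-(η * a)) * (c * (bsbE n c * (1 / 2))) := by ring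
      _ ≤ _ := mul_le_mul_of_nonneg_left h7 (by positivity)
  have h9 : ve n a' u - ve n a u = Real.exp (u ^ n / n) * ∫ s in a..a', bsbG n s := by
    rw [bsb_ve, bsb_ve, ← i4]
    ring
  rw [h9, bsb_ve]
  calc Real.exp (u ^ n / n) * ∫ s in a..a', bsbG n s
      ≤ Real.exp (u ^ n / n) * (8 * Real.exp (-(η * a)) * ∫ s in u..a', bsbG n s) :=
        mul_le_mul_of_nonneg_left h8 (Real.exp_pos _).le
    _ = _ := by ring

end Pool.Agent.CritPer.H
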