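import Pool.Agent.CritPer.H.Ray
import Pool.Agent.CritPer.Flow

set_option autoImplicit false

/-!
HD-POL.  Polynomial fields: homogeneity, smoothness, `P (0, 1) ≠ 0`.
PLAN.  `eval_smul_hom`: sum over the support (`MvPolynomial.eval_eq`, `Finsupp` degree) or `MvPolynomial.IsHomogeneous.eval₂`-type lemma, or `MvPolynomial.IsHomogeneous.rename...`; `![r * x, r * y] = r • ![x, y]`.
`contDiff_ev`: `MvPolynomial.induction_on` (see `contDiff_eval` in CritPer/Orbit.lean).
`p01_ne`: suppose `eval ![0, 1] P = 0`.  By homogeneity (`x = 0`) `eval ![0, y] P = 0` for all `y`.  Let `γ = (x, y)` be the orbit; it meets the positive second axis: `x t₀ = 0` for some `t₀`, and the positive first axis: `x t₁ > 0`.  `γ` has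
compact range (periodic), `P` is Lipschitz in `x` on a ball containing it: `|x'| = |P (x, y) - P (0, y)| ≤ C |x|`, so `x` vanishes identically by Gronwall (`eq_zero_of_abs_deriv_le_mul_abs_self_of_eq_zero_right` for `t ≥ t₀`; every `t` is reached by
periodicity; or use `x (t) exp (± C t)`).  Contradiction.
`q10_ne`: the orbit meets `(b, 0)`, `b > 0`.  If `eval ![1, 0] Q = 0` then `X (b, 0) = 0`, the constant curve is a solution, `IsSol.unique` (Flow.lean, with a shift in time) gives that `γ` is constant; contradiction with `IsPerSol`.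
-/

open Set Filter Topology

namespace Pool.Agent.CritPer.H

theorem eval_smul_hom {n : ℕ} {P : MvPolynomial (Fin 2) ℝ} (hP : P.IsHomogeneous n) (r x y : ℝ) :
    MvPolynomial.eval ![r * x, r * y] P = r ^ n * MvPolynomial.eval ![x, y] P := by
  rw [MvPolynomial.eval_eq', MvPolynomial.eval_eq', Finset.mul_sum]
  refine Finset.sum_congr rfl fun d hd => ?_
  have h1 : d 0 + d 1 = n := by
    have h2 := hP (MvPolynomial.mem_support_iff.1 hd)
    rw [Finsupp.weight_apply, Finsupp.sum_fintype _ _ (by simp)] at h2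
    simpa [Fin.sum_univ_two] using h2
  rw [Fin.prod_univ_two, Fin.prod_univ_two, ← h1, pow_add]
  simp only [Matrix.cons_val_zero, Matrix.cons_val_one, mul_pow]
  ring

theorem contDiff_ev (P : MvPolynomial (Fin 2) ℝ) {m : WithTop ℕ∞} :
    ContDiff ℝ m (fun z : ℝ × ℝ => MvPolynomial.eval ![z.1, z.2] P) := by
  induction P using MvPolynomial.induction_on with
  | C a => simp only [MvPolynomial.eval_C]; exact contDiff_const
  | add p q hp hq => simp only [map_add]; exact hp.add hq
  | mul_X p i hp =>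
    simp only [map_mul, MvPolynomial.eval_X]
    refine hp.mul ?_
    fin_cases i
    · exact contDiff_fst
    · exact contDiff_snd

theorem contDiff_vf' (P Q : MvPolynomial (Fin 2) ℝ) {m : WithTop ℕ∞} : ContDiff ℝ m (vf P Q) :=
  (contDiff_ev P).prodMk (contDiff_ev Q)

theorem p01_ne {n : ℕ} {P Q : MvPolynomial (Fin 2) ℝ} (hP : P.IsHomogeneous n)
    {γ : ℝ → ℝ × ℝ} (hγ : IsPerSol (vf P Q) γ) (hS : Surrounds (range γ)) :
    MvPolynomial.eval ![0, 1] P ≠ 0 := by
  intro h0
  have hP0 : ∀ y : ℝ, MvPolynomial.eval ![0, y] P = 0 := by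
    intro y
    have h1 := eval_smul_hom hP y 0 1
    rw [mul_zero, mul_one, h0, mul_zero] at h1
    exact h1
  obtain ⟨r, hr, t₀, ht₀⟩ := hits_ray hS (v := ((0, 1) : ℝ × ℝ)) (by simp)
  obtain ⟨r', hr', t₁, ht₁⟩ := hits_ray hS (v := ((1, 0) : ℝ × ℝ)) (by simp)
  have hx0 : (γ t₀).1 = 0 := by rw [ht₀]; simp
  have hx1 : (γ t₁).1 = r' := by rw [ht₁]; simp
  have hsol := hγ.1
  have c1 : Continuous γ := continuous_iff_continuousAt.2 fun t => (hsol t).continuousAt
  have hd : ∀ t, HasDerivAt (fun s => (γ s).1) (MvPolynomial.eval ![(γ t).1, (γ t).2] P) t := by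
    intro t
    exact (hsol t).fst
  set R : ℝ := |t₁ - t₀| + 1 with hR
  have hRpos : 0 < R := by positivity
  obtain ⟨M, hM⟩ : ∃ M, (γ '' Icc (t₀ - R) (t₀ + R)) ⊆ Metric.closedBall 0 M :=
    ((isCompact_Icc.image c1).isBounded).subset_closedBall 0
  obtain ⟨K, hK⟩ := ((contDiff_ev P (m := 1)).contDiffOn
    (s := Metric.closedBall 0 M)).exists_lipschitzOnWith
    one_ne_zero (convex_closedBall _ _) (isCompact_closedBall _ _)
  have hmem : ∀ s ∈ Ioo (t₀ - R) (t₀ + R), ‖(γ s).1‖ ≤ M ∧ ‖(γ s).2‖ ≤ M := by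
    intro s hs
    have h1 := hM (mem_image_of_mem _ (Ioo_subset_Icc_self hs))
    rw [mem_closedBall_zero_iff, Prod.norm_def] at h1
    exact ⟨(le_max_left _ _).trans h1, (le_max_right _ _).trans h1⟩
  have key : EqOn (fun s => (γ s).1) (fun _ => (0 : ℝ)) (Ioo (t₀ - R) (t₀ + R)) := by
    refine ODE_solution_unique_of_mem_Ioo
      (v := fun t x => MvPolynomial.eval ![x, (γ t).2] P) (s := fun _ => Metric.closedBall 0 M)
      (K := K) (t₀ := t₀) (fun t ht => ?_) ⟨by linarith, by linarith⟩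
      (fun s hs => ⟨hd s, ?_⟩) (fun s hs => ⟨?_, ?_⟩) hx0
    · intro x hx y hy
      have hx' : (x, (γ t).2) ∈ Metric.closedBall (0 : ℝ × ℝ) M := by
        rw [mem_closedBall_zero_iff, Prod.norm_def]
        exact max_le (mem_closedBall_zero_iff.1 hx) (hmem t ht).2
      have hy' : (y, (γ t).2) ∈ Metric.closedBall (0 : ℝ × ℝ) M := by
        rw [mem_closedBall_zero_iff, Prod.norm_def]
        exact max_le (mem_closedBall_zero_iff.1 hy) (hmem t ht).2
      have h1 := hK hx' hy'
      refine h1.trans (le_of_eq ?_)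
      rw [Prod.edist_eq, edist_self]
      simp
    · exact mem_closedBall_zero_iff.2 (hmem s hs).1
    · rw [hP0]
      exact hasDerivAt_const s (0 : ℝ)
    · have h1 := (norm_nonneg _).trans (hmem s hs).1
      exact mem_closedBall_zero_iff.2 (by simpa using h1)
  have h2 : t₁ ∈ Ioo (t₀ - R) (t₀ + R) := by
    have h3 := neg_abs_le (t₁ - t₀)
    have h4 := le_abs_self (t₁ - t₀)
    constructor
    · linarith
    · linarith
  have h5 := key h2
  beta_reduce at h5
  rw [hx1] at h5
  exact hr'.ne' h5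

theorem q10_ne {n : ℕ} {P Q : MvPolynomial (Fin 2) ℝ} (hQ : Q.IsHomogeneous n)
    (px : ∀ x : ℝ, MvPolynomial.eval ![x, 0] P = 0)
    {γ : ℝ → ℝ × ℝ} (hγ : IsPerSol (vf P Q) γ) (hS : Surrounds (range γ)) :
    MvPolynomial.eval ![1, 0] Q ≠ 0 := by
  intro h0
  have hQ0 : ∀ x : ℝ, MvPolynomial.eval ![x, 0] Q = 0 := by
    intro x
    have h1 := eval_smul_hom hQ x 1 0
    rw [mul_zero, mul_one, h0, mul_zero] at h1
    exact h1
  obtain ⟨r, hr, t₀, ht₀⟩ := hits_ray hS (v := ((1, 0) : ℝ × ℝ)) (by simp)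
  have hb : γ t₀ = (r, 0) := by rw [ht₀]; simp
  have hconst : IsSol (vf P Q) (fun _ => ((r, 0) : ℝ × ℝ)) := by
    intro t
    have h1 : vf P Q ((r, 0) : ℝ × ℝ) = 0 := by
      unfold vf
      rw [px, hQ0]
      rfl
    beta_reduce
    rw [h1]
    exact hasDerivAt_const t ((r, 0) : ℝ × ℝ)
  have h2 := IsSol.unique (contDiff_vf' P Q) (hγ.1.shift t₀) hconst (by
    rw [zero_add]
    exact hb)
  have h3 : ∀ t, γ t = (r, 0) := by
    intro t
    have h4 := congrFun h2 (t - t₀)
    beta_reduce at h4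
    rw [sub_add_cancel] at h4
    exact h4
  obtain ⟨t, ht⟩ := hγ.2.2
  exact ht ((h3 t).trans (h3 0).symm)

end Pool.Agent.CritPer.H
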