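import Pool.Agent.CritPer.H.Per
import Pool.Agent.CritPer.H.Pol

set_option autoImplicit false

/-!
HD-BZ.  The crossing point of the orbit with the positive first axis.
PLAN.  `X = vf P Q` is `C^1` (`contDiff_vf'`), so the solution through a point of `cyc X` is unique (`IsSol.unique`) and `orbit X z = range γ` for the periodic solution `γ` with `γ 0 = z`.  `per_data` gives `b`; the set in the definition of `bz` is `{b}` (`csSup_singleton`).  A point of `range γ` is in `cyc X`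
(time shift, same range).  `minPeriod` at `z = γ 0` and at `(b, 0) = γ t₁`: the sets of times in the definition of `minPeriod` are equal (`δ` solves with `δ 0 = δ T = z` iff `δ` shifted ...), or apply `per_data` to both curves and `arc_time` (for `(p, q)` and for the reflected field).
-/

open Set Filter Topology

namespace Pool.Agent.CritPer.H

variable {k : ℕ} {P Q : MvPolynomial (Fin 2) ℝ}

/-- the hypotheses for polynomial fields -/
def PHyp (k : ℕ) (P Q : MvPolynomial (Fin 2) ℝ) : Prop :=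
  Hyp k (fun x y => MvPolynomial.eval ![x, y] P) (fun x y => MvPolynomial.eval ![x, y] Q)

private theorem bz_shift_range (γ : ℝ → ℝ × ℝ) (s : ℝ) :
    range (fun t => γ (t + s)) = range γ := by
  apply Subset.antisymm
  · rintro _ ⟨t, rfl⟩
    exact ⟨t + s, rfl⟩
  · rintro _ ⟨t, rfl⟩
    exact ⟨t - s, by simp⟩

private theorem bz_shift_per {X : ℝ × ℝ → ℝ × ℝ} {γ : ℝ → ℝ × ℝ} (h : IsPerSol X γ) (s : ℝ) :
    IsPerSol X (fun t => γ (t + s)) := by
  obtain ⟨h1, ⟨T, hT, hTp⟩, t, ht⟩ := h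
  refine ⟨h1.shift s, ⟨T, hT, fun t => ?_⟩, ?_⟩
  · show γ (t + T + s) = γ (t + s)
    rw [show t + T + s = t + s + T by ring, hTp]
  · by_contra hc
    have hc' : ∀ r : ℝ, γ (r + s) = γ (0 + s) := by
      intro r
      by_contra h
      exact hc ⟨r, h⟩
    apply ht
    have e1 := hc' (t - s)
    have e2 := hc' (0 - s)
    rw [sub_add_cancel] at e1 e2
    rw [e1, e2]

private theorem bz_orbit_eq {X : ℝ × ℝ → ℝ × ℝ} (hX : ContDiff ℝ 1 X) {γ : ℝ → ℝ × ℝ}
    (h : IsSol X γ) (s : ℝ) : orbit X (γ s) = range γ := by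
  ext w
  constructor
  · rintro ⟨δ, hδ, h0, hw⟩
    have e : δ = fun t => γ (t + s) := by
      refine hδ.unique hX (h.shift s) ?_
      show δ 0 = γ (0 + s)
      rw [h0, zero_add]
    rw [e, bz_shift_range] at hw
    exact hw
  · intro hw
    refine ⟨fun t => γ (t + s), h.shift s, ?_, ?_⟩
    · show γ (0 + s) = γ s
      rw [zero_add]
    · rw [bz_shift_range]
      exact hw

private theorem bz_ret {X : ℝ × ℝ → ℝ × ℝ} (hX : ContDiff ℝ 1 X) {γ : ℝ → ℝ × ℝ}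
    (h : IsSol X γ) {s T : ℝ} (e : γ (T + s) = γ s) (t : ℝ) : γ (t + T) = γ t := by
  have e1 : (fun t => γ (t + (T + s))) = fun t => γ (t + s) := by
    refine (h.shift (T + s)).unique hX (h.shift s) ?_
    show γ (0 + (T + s)) = γ (0 + s)
    rw [zero_add, zero_add, e]
  have e2 := congrFun e1 (t - s)
  rw [show t - s + (T + s) = t + T by ring, sub_add_cancel] at e2
  exact e2

private theorem bz_minPer {X : ℝ × ℝ → ℝ × ℝ} (hX : ContDiff ℝ 1 X) {γ : ℝ → ℝ × ℝ}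
    (h : IsSol X γ) (s : ℝ) : minPeriod X (γ s) = sInf {T | 0 < T ∧ ∀ t, γ (t + T) = γ t} := by
  unfold minPeriod
  congr 1
  ext T
  constructor
  · rintro ⟨hT, δ, hδ, h0, h1⟩
    refine ⟨hT, fun t => ?_⟩
    have e : δ = fun t => γ (t + s) := by
      refine hδ.unique hX (h.shift s) ?_
      show δ 0 = γ (0 + s)
      rw [h0, zero_add]
    rw [e] at h1
    exact bz_ret hX h h1 t
  · rintro ⟨hT, h1⟩
    refine ⟨hT, fun t => γ (t + s), h.shift s, ?_, ?_⟩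
    · show γ (0 + s) = γ s
      rw [zero_add]
    · show γ (T + s) = γ s
      rw [add_comm, h1]

private theorem bz_cyc {X : ℝ × ℝ → ℝ × ℝ} {γ : ℝ → ℝ × ℝ} (h : IsPerSol X γ)
    (hS : Surrounds (range γ)) (s : ℝ) : γ s ∈ cyc X := by
  refine ⟨fun t => γ (t + s), bz_shift_per h s, ?_, ?_⟩
  · show γ (0 + s) = γ s
    rw [zero_add]
  · rw [bz_shift_range]
    exact hS

theorem bz_spec (H : PHyp k P Q) {z : ℝ × ℝ} (hz : z ∈ cyc (vf P Q)) :
    0 < bz (vf P Q) z ∧ ((bz (vf P Q) z, (0 : ℝ)) : ℝ × ℝ) ∈ orbit (vf P Q) z ∧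
      ((bz (vf P Q) z, (0 : ℝ)) : ℝ × ℝ) ∈ cyc (vf P Q) ∧
      (∀ b : ℝ, 0 < b → ((b, (0 : ℝ)) : ℝ × ℝ) ∈ orbit (vf P Q) z → b = bz (vf P Q) z) ∧
      minPeriod (vf P Q) z = minPeriod (vf P Q) (bz (vf P Q) z, 0) := by
  have hX : ContDiff ℝ 1 (vf P Q) := contDiff_vf' P Q
  obtain ⟨γ, hγ, h0, hS⟩ := hz
  obtain ⟨b, a, τ₁, τ₂, x₁, y₁, x₂, y₂, hA, -, hmem, huniq, -⟩ :=
    per_data H (fun z => rfl) hγ hS
  have hb : 0 < b := hA.hb
  have horb : orbit (vf P Q) z = range γ := by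
    rw [← h0]
    exact bz_orbit_eq hX hγ.1 0
  have hset : {b : ℝ | 0 < b ∧ ((b, (0 : ℝ)) : ℝ × ℝ) ∈ orbit (vf P Q) z} = {b} := by
    ext b'
    constructor
    · rintro ⟨h1, h2⟩
      rw [horb] at h2
      exact huniq b' h1 h2
    · intro h
      have h' : b' = b := h
      rw [h']
      exact ⟨hb, by rw [horb]; exact hmem⟩
  have hbz : bz (vf P Q) z = b := by
    unfold bz
    rw [hset, csSup_singleton]
  rw [hbz]
  obtain ⟨t₁, ht₁⟩ := hmem
  refine ⟨hb, ?_, ?_, ?_, ?_⟩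
  · rw [horb]
    exact ⟨t₁, ht₁⟩
  · rw [← ht₁]
    exact bz_cyc hγ hS t₁
  · intro b' h1 h2
    rw [horb] at h2
    exact huniq b' h1 h2
  · rw [← ht₁, bz_minPer hX hγ.1 t₁, ← h0, bz_minPer hX hγ.1 0]

theorem bz_axis (H : PHyp k P Q) {b : ℝ} (hb : 0 < b)
    (h : ((b, (0 : ℝ)) : ℝ × ℝ) ∈ cyc (vf P Q)) : bz (vf P Q) (b, 0) = b := by
  have h4 := (bz_spec H h).2.2.2.1 b hb ?_
  · exact h4.symm
  · obtain ⟨γ, hγ, h0, -⟩ := h
    exact ⟨γ, hγ.1, h0, 0, h0⟩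

/-- the crossing point is the same along the orbit -/
theorem bz_orbit (H : PHyp k P Q) {γ : ℝ → ℝ × ℝ} (hγ : IsSol (vf P Q) γ)
    (h : γ 0 ∈ cyc (vf P Q)) (t : ℝ) :
    γ t ∈ cyc (vf P Q) ∧ bz (vf P Q) (γ t) = bz (vf P Q) (γ 0) := by
  have hX : ContDiff ℝ 1 (vf P Q) := contDiff_vf' P Q
  obtain ⟨δ, hδ, h0, hS⟩ := h
  have e : δ = γ := hδ.1.unique hX hγ h0
  subst e
  refine ⟨bz_cyc hδ hS t, ?_⟩
  unfold bz
  rw [bz_orbit_eq hX hγ t, bz_orbit_eq hX hγ 0]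

end Pool.Agent.CritPer.H
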