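import Pool.Agent.CritPer.H.Defs

set_option autoImplicit false

/-!
HD-CMP.  Comparison of solutions in the coordinates `r`, `S`.
PLAN.  `int_factor`: `F r = exp (- ∫ s in 0..r, m s)`, `V * F` is monotone on `[0, ∞)` (`monotoneOn_of_deriv_nonneg`), `V 0 * F 0 ≥ 0`.  (`m` is continuous on `[0, ∞)` only: replace it by `m (max r 0)`.)
`G_sub`: `field_simp; ring`.  `chart_le`: `V = S₂ - S₁`, `V' = 2 k p 1 r (G S₂ - G S₁) = m V` with `m = 2 k p 1 r M`, continuous on `[0, ∞)`.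
-/

open Set Filter Topology

namespace Pool.Agent.CritPer.H

variable {k : ℕ} {p q : ℝ → ℝ → ℝ}

theorem int_factor {V V' m : ℝ → ℝ} (hc : ContinuousOn V (Ici 0)) (hm : ContinuousOn m (Ici 0))
    (hV : ∀ r, 0 < r → HasDerivAt V (V' r) r) (h : ∀ r, 0 < r → m r * V r ≤ V' r)
    (h0 : 0 ≤ V 0) : ∀ r, 0 ≤ r → 0 ≤ V r := by
  have hm1 : Continuous (fun s : ℝ => m (max s 0)) :=
    hm.comp_continuous (continuous_id.max continuous_const) (fun s => mem_Ici.2 (le_max_right s 0))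
  have hI : ∀ r : ℝ, HasDerivAt (fun u => ∫ s in (0:ℝ)..u, m (max s 0)) (m (max r 0)) r := by
    intro r
    exact intervalIntegral.integral_hasDerivAt_right (hm1.intervalIntegrable _ _)
      (hm1.stronglyMeasurableAtFilter _ _) hm1.continuousAt
  have hF : ∀ r : ℝ, HasDerivAt (fun u => Real.exp (-∫ s in (0:ℝ)..u, m (max s 0)))
      (Real.exp (-∫ s in (0:ℝ)..r, m (max s 0)) * -(m (max r 0))) r := by
    intro r
    exact (hI r).neg.exp
  have hW : ∀ r : ℝ, 0 < r → HasDerivAt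
      (fun u => V u * Real.exp (-∫ s in (0:ℝ)..u, m (max s 0)))
      (V' r * Real.exp (-∫ s in (0:ℝ)..r, m (max s 0)) +
        V r * (Real.exp (-∫ s in (0:ℝ)..r, m (max s 0)) * -(m (max r 0)))) r := by
    intro r hr
    exact (hV r hr).mul (hF r)
  have hmono : MonotoneOn (fun u => V u * Real.exp (-∫ s in (0:ℝ)..u, m (max s 0))) (Ici 0) := by
    apply monotoneOn_of_deriv_nonneg (convex_Ici 0)
    · apply hc.mul
      intro r _
      exact (hF r).continuousAt.continuousWithinAt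
    · rw [interior_Ici]
      intro r hr
      exact (hW r hr).differentiableAt.differentiableWithinAt
    · rw [interior_Ici]
      intro r hr
      have hr' : 0 < r := hr
      rw [(hW r hr').deriv]
      have h1 := h r hr'
      rw [max_eq_left hr'.le]
      have h2 := Real.exp_pos (-∫ s in (0:ℝ)..r, m (max s 0))
      have h3 : V' r * Real.exp (-∫ s in (0:ℝ)..r, m (max s 0)) +
          V r * (Real.exp (-∫ s in (0:ℝ)..r, m (max s 0)) * -(m r)) =
          (V' r - m r * V r) * Real.exp (-∫ s in (0:ℝ)..r, m (max s 0)) := by ring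
      rw [h3]
      exact mul_nonneg (by linarith) h2.le
  intro r hr
  have h1 := hmono (mem_Ici.2 le_rfl) (mem_Ici.2 hr) hr
  have h1' : V 0 * Real.exp (-∫ s in (0:ℝ)..0, m (max s 0)) ≤
      V r * Real.exp (-∫ s in (0:ℝ)..r, m (max s 0)) := h1
  rw [intervalIntegral.integral_same, neg_zero, Real.exp_zero, mul_one] at h1'
  have h2 := Real.exp_pos (-∫ s in (0:ℝ)..r, m (max s 0))
  by_contra hcon
  rw [not_le] at hcon
  have h3 := mul_neg_of_neg_of_pos hcon h2
  linarith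

theorem G_sub {A h S U : ℝ} (h₁ : 0 < A * S - h) (h₂ : 0 < A * U - h) :
    U ^ 2 / (A * U - h) - S ^ 2 / (A * S - h) =
      (A * U * S - h * (U + S)) / ((A * U - h) * (A * S - h)) * (U - S) := by
  have h₁' := h₁.ne'
  have h₂' := h₂.ne'
  rw [div_sub_div _ _ h₂' h₁', div_mul_eq_mul_div, div_left_inj' (mul_ne_zero h₂' h₁')]
  ring

theorem chart_le (H : Hyp k p q) {s₁ a₁ τ₁ s₂ a₂ τ₂ : ℝ} {S₁ T₁ S₂ T₂ : ℝ → ℝ}
    (C₁ : Chart k p q s₁ a₁ τ₁ S₁ T₁) (C₂ : Chart k p q s₂ a₂ τ₂ S₂ T₂) (h : s₁ ≤ s₂) :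
    ∀ r, 0 ≤ r → S₁ r ≤ S₂ r := by
  have cp1 : Continuous (fun r : ℝ => p 1 r) :=
    H.cp.continuous.comp (continuous_const.prodMk continuous_id)
  have cq1 : Continuous (fun r : ℝ => q 1 r) :=
    H.cq.continuous.comp (continuous_const.prodMk continuous_id)
  have key := int_factor (V := fun r => S₂ r - S₁ r)
    (V' := fun r => 2 * k * p 1 r * G p q r (S₂ r) - 2 * k * p 1 r * G p q r (S₁ r))
    (m := fun r => 2 * k * p 1 r *
      ((r * p 1 r * S₂ r * S₁ r - q 1 r * (S₂ r + S₁ r)) /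
        ((r * p 1 r * S₂ r - q 1 r) * (r * p 1 r * S₁ r - q 1 r))))
    (C₂.cS.sub C₁.cS) ?_ ?_ ?_ ?_
  · intro r hr
    have := key r hr
    linarith
  · apply ContinuousOn.mul
    · exact (continuous_const.mul cp1).continuousOn
    · apply ContinuousOn.div
      · exact (((continuous_id.mul cp1).continuousOn.mul C₂.cS).mul C₁.cS).sub
          (cq1.continuousOn.mul (C₂.cS.add C₁.cS))
      · exact (((continuous_id.mul cp1).continuousOn.mul C₂.cS).sub cq1.continuousOn).mul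
          (((continuous_id.mul cp1).continuousOn.mul C₁.cS).sub cq1.continuousOn)
      · intro r hr
        exact (mul_pos (C₂.den r hr) (C₁.den r hr)).ne'
  · intro r hr
    exact (C₂.dS r hr).sub (C₁.dS r hr)
  · intro r hr
    have h1 := G_sub (C₁.den r hr.le) (C₂.den r hr.le)
    apply le_of_eq
    have h2 : 2 * (k:ℝ) * p 1 r * G p q r (S₂ r) - 2 * k * p 1 r * G p q r (S₁ r) =
        2 * k * p 1 r * (S₂ r ^ 2 / (r * p 1 r * S₂ r - q 1 r) -
          S₁ r ^ 2 / (r * p 1 r * S₁ r - q 1 r)) := by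
      unfold G
      ring
    show _ = 2 * (k:ℝ) * p 1 r * G p q r (S₂ r) - 2 * k * p 1 r * G p q r (S₁ r)
    rw [h2, h1]
    ring
  · show 0 ≤ S₂ 0 - S₁ 0
    rw [C₂.S0, C₁.S0]
    linarith

end Pool.Agent.CritPer.H
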