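import Pool.Agent.CritPer.H.Cmp
import Pool.Agent.CritPer.H.Cht

set_option autoImplicit false

/-!
HD-CNV.  The quarter time is a convex function of `s = b ^ (-2k)`.
`G_convex` is the convexity of `S ↦ S² / (A S - h)`; `chart_conv` compares the convex combination of two charts with the chart over the convex combination: `V = U - S` is nonnegative by `int_factor`, and
`W - V / (2 k p 1 r)` is monotone and tends to `0` at `0`.
-/

open Set Filter Topology

namespace Pool.Agent.CritPer.H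

variable {k : ℕ} {p q : ℝ → ℝ → ℝ}

private theorem cnv_den {A h c S₁ S₂ : ℝ} (hc : 0 ≤ c) (hc' : c ≤ 1) (h₁ : 0 < A * S₁ - h)
    (h₂ : 0 < A * S₂ - h) : 0 < A * (c * S₁ + (1 - c) * S₂) - h := by
  have e : A * (c * S₁ + (1 - c) * S₂) - h = c * (A * S₁ - h) + (1 - c) * (A * S₂ - h) := by ring
  rw [e]
  rcases hc.eq_or_lt with hc0 | hc0
  · rw [← hc0]
    simpa using h₂
  · exact add_pos_of_pos_of_nonneg (mul_pos hc0 h₁) (mul_nonneg (sub_nonneg.2 hc') h₂.le)

theorem G_convex {A h c S₁ S₂ : ℝ} (hc : 0 ≤ c) (hc' : c ≤ 1) (h₁ : 0 < A * S₁ - h)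
    (h₂ : 0 < A * S₂ - h) :
    (c * S₁ + (1 - c) * S₂) ^ 2 / (A * (c * S₁ + (1 - c) * S₂) - h) ≤
      c * (S₁ ^ 2 / (A * S₁ - h)) + (1 - c) * (S₂ ^ 2 / (A * S₂ - h)) := by
  have hu := cnv_den hc hc' h₁ h₂
  have key : c * (S₁ ^ 2 / (A * S₁ - h)) + (1 - c) * (S₂ ^ 2 / (A * S₂ - h)) -
      (c * S₁ + (1 - c) * S₂) ^ 2 / (A * (c * S₁ + (1 - c) * S₂) - h) =
      c * (1 - c) * (h ^ 2 * (S₁ - S₂) ^ 2) /
        ((A * S₁ - h) * (A * S₂ - h) * (A * (c * S₁ + (1 - c) * S₂) - h)) := by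
    have n₁ := h₁.ne'
    have n₂ := h₂.ne'
    have n₃ := hu.ne'
    rw [← mul_div_assoc, ← mul_div_assoc, div_add_div _ _ n₁ n₂,
      div_sub_div _ _ (mul_ne_zero n₁ n₂) n₃, div_left_inj' (mul_ne_zero (mul_ne_zero n₁ n₂) n₃)]
    ring
  have hpos : 0 ≤ c * (1 - c) * (h ^ 2 * (S₁ - S₂) ^ 2) /
        ((A * S₁ - h) * (A * S₂ - h) * (A * (c * S₁ + (1 - c) * S₂) - h)) :=
    div_nonneg (mul_nonneg (mul_nonneg hc (sub_nonneg.2 hc')) (by positivity))
      (mul_pos (mul_pos h₁ h₂) hu).le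
  linarith

private theorem cnv_p_cont (H : Hyp k p q) : Continuous (fun r : ℝ => p 1 r) :=
  H.cp.continuous.comp (continuous_const.prodMk continuous_id)

private theorem cnv_q_cont (H : Hyp k p q) : Continuous (fun r : ℝ => q 1 r) :=
  H.cq.continuous.comp (continuous_const.prodMk continuous_id)

private theorem cnv_p_diff (H : Hyp k p q) : Differentiable ℝ (fun r : ℝ => p 1 r) := by
  have h1 : Differentiable ℝ (fun z : ℝ × ℝ => p z.1 z.2) := H.cp.differentiable one_ne_zero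
  have h2 : Differentiable ℝ (fun r : ℝ => (((1 : ℝ), r) : ℝ × ℝ)) :=
    (differentiable_const _).prodMk differentiable_id
  exact h1.comp h2

private theorem cnv_G_cont {S : ℝ → ℝ} (H : Hyp k p q) (cS : ContinuousOn S (Ici 0))
    (den : ∀ r, 0 ≤ r → 0 < r * p 1 r * S r - q 1 r) :
    ContinuousOn (fun r => G p q r (S r)) (Ici 0) := by
  unfold G
  exact (cS.pow 2).div ((((continuous_id.mul (cnv_p_cont H)).continuousOn).mul cS).sub
    (cnv_q_cont H).continuousOn) (fun r hr => (den r hr).ne')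

/-- the final step: `W` is nonnegative -/
private theorem cnv_step {g V W W' : ℝ → ℝ} {K : ℝ} (hK : 0 < K) (hg : Differentiable ℝ g)
    (hg0 : ∀ r, 0 < r → 0 < g r) (hgm : Monotone g) (hVc : ContinuousOn V (Ici 0))
    (hWc : ContinuousOn W (Ici 0)) (hW'c : ContinuousOn W' (Ici 0)) (hV0 : V 0 = 0) (hW0 : W 0 = 0)
    (hV : ∀ r, 0 < r → HasDerivAt V (K * g r * W' r) r) (hW : ∀ r, 0 < r → HasDerivAt W (W' r) r)
    (hVn : ∀ r, 0 ≤ r → 0 ≤ V r) : ∀ r, 0 < r → 0 ≤ W r := by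
  intro r hr
  -- the bound near zero
  obtain ⟨C, hC⟩ := (isCompact_Icc (a := (0 : ℝ)) (b := 1)).exists_bound_of_continuousOn
    (hW'c.mono (fun x hx => hx.1))
  have hC0 : 0 ≤ C := le_trans (norm_nonneg _) (hC 0 ⟨le_refl _, zero_le_one⟩)
  have hVle : ∀ s, 0 < s → s ≤ 1 → V s ≤ K * g s * C * s := by
    intro s hs hs1
    have hm : MonotoneOn (fun t => K * g s * C * t - V t) (Icc 0 s) := by
      apply monotoneOn_of_deriv_nonneg (convex_Icc 0 s)
      · exact (continuous_const.mul continuous_id).continuousOn.sub (hVc.mono (fun x hx => hx.1))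
      · rw [interior_Icc]
        intro t ht
        exact (((hasDerivAt_id t).const_mul (K * g s * C)).sub (hV t ht.1)).differentiableAt.differentiableWithinAt
      · rw [interior_Icc]
        intro t ht
        have hd := ((hasDerivAt_id t).const_mul (K * g s * C)).sub (hV t ht.1)
        have hd' : deriv (fun t => K * g s * C * t - V t) t = K * g s * C * 1 - K * g t * W' t := hd.deriv
        rw [hd']
        have h1 : W' t ≤ C := le_trans (le_abs_self _) (hC t ⟨ht.1.le, ht.2.le.trans hs1⟩)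
        have h2 : g t ≤ g s := hgm ht.2.le
        have h3 : 0 < g t := hg0 t ht.1
        have h4 : g t * W' t ≤ g s * C :=
          (mul_le_mul_of_nonneg_left h1 h3.le).trans (mul_le_mul_of_nonneg_right h2 hC0)
        have h5 := mul_le_mul_of_nonneg_left h4 hK.le
        linarith
    have h := hm ⟨le_refl 0, hs.le⟩ ⟨hs.le, le_refl s⟩ hs.le
    simp only [mul_zero, hV0, sub_zero] at h
    linarith
  have hZ : MonotoneOn (fun t => W t - V t / (K * g t)) (Ioi 0) := by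
    have hd : ∀ t, 0 < t → HasDerivAt (fun t => W t - V t / (K * g t))
        (W' t - ((K * g t * W' t) * (K * g t) - V t * (K * deriv g t)) / (K * g t) ^ 2) t := by
      intro t ht
      exact (hW t ht).sub ((hV t ht).div ((hg t).hasDerivAt.const_mul K)
        (mul_pos hK (hg0 t ht)).ne')
    apply monotoneOn_of_deriv_nonneg (convex_Ioi 0)
    · exact fun t ht => (hd t ht).continuousAt.continuousWithinAt
    · rw [interior_Ioi]
      exact fun t ht => (hd t ht).differentiableAt.differentiableWithinAt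
    · rw [interior_Ioi]
      intro t ht
      rw [(hd t ht).deriv]
      have hgt := hg0 t ht
      have hne : K * g t ≠ 0 := (mul_pos hK hgt).ne'
      have e : W' t - ((K * g t * W' t) * (K * g t) - V t * (K * deriv g t)) / (K * g t) ^ 2 =
          V t * (K * deriv g t) / (K * g t) ^ 2 := by
        have hK' := hK.ne'
        have hgt' := hgt.ne'
        field_simp
        ring
      rw [e]
      exact div_nonneg (mul_nonneg (hVn t (le_of_lt ht)) (mul_nonneg hK.le hgm.deriv_nonneg)) (sq_nonneg _)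
  have hlim : Tendsto (fun e => W e - C * e) (𝓝[>] 0) (𝓝 (W 0 - C * 0)) := by
    have h1 : ContinuousWithinAt (fun e => W e - C * e) (Ici 0) 0 :=
      (hWc 0 (mem_Ici.2 le_rfl)).sub (continuous_const.mul continuous_id).continuousWithinAt
    exact h1.tendsto.mono_left (nhdsWithin_mono _ Ioi_subset_Ici_self)
  have hev : ∀ᶠ e in 𝓝[>] (0 : ℝ), W e - C * e ≤ W r - V r / (K * g r) := by
    have hmem : Ioo (0 : ℝ) (min 1 r) ∈ 𝓝[>] (0 : ℝ) := Ioo_mem_nhdsGT (lt_min zero_lt_one hr)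
    filter_upwards [hmem] with e he
    have he1 : e ≤ 1 := (he.2.le).trans (min_le_left _ _)
    have her : e ≤ r := (he.2.le).trans (min_le_right _ _)
    have hz := hZ he.1 hr her
    simp only at hz
    have hv := hVle e he.1 he1
    have hp : 0 < K * g e := mul_pos hK (hg0 e he.1)
    have hdv : V e / (K * g e) ≤ C * e := by
      rw [div_le_iff₀ hp]
      linarith
    linarith
  have h := le_of_tendsto hlim hev
  rw [hW0, mul_zero, sub_zero] at h
  have h2 : 0 ≤ V r / (K * g r) := div_nonneg (hVn r hr.le) (mul_pos hK (hg0 r hr)).le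
  linarith

theorem chart_conv (H : Hyp k p q) {s₁ a₁ τ₁ s₂ a₂ τ₂ s a τ c : ℝ} {S₁ T₁ S₂ T₂ S T : ℝ → ℝ}
    (C₁ : Chart k p q s₁ a₁ τ₁ S₁ T₁) (C₂ : Chart k p q s₂ a₂ τ₂ S₂ T₂)
    (C : Chart k p q s a τ S T) (hc : 0 ≤ c) (hc' : c ≤ 1) (hs : s = c * s₁ + (1 - c) * s₂) :
    τ ≤ c * τ₁ + (1 - c) * τ₂ := by
  have hK : (0 : ℝ) < 2 * k := by
    have := H.hk
    positivity
  have hg0 : ∀ r, 0 < r → 0 < p 1 r := fun r hr => H.pos 1 r hr
  have hUc : ContinuousOn (fun r => c * S₁ r + (1 - c) * S₂ r) (Ici 0) :=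
    (continuousOn_const.mul C₁.cS).add (continuousOn_const.mul C₂.cS)
  have hVc : ContinuousOn (fun r => c * S₁ r + (1 - c) * S₂ r - S r) (Ici 0) := hUc.sub C.cS
  have hWc : ContinuousOn (fun r => c * T₁ r + (1 - c) * T₂ r - T r) (Ici 0) :=
    ((continuousOn_const.mul C₁.cT).add (continuousOn_const.mul C₂.cT)).sub C.cT
  have hW'c : ContinuousOn (fun r => c * G p q r (S₁ r) + (1 - c) * G p q r (S₂ r) -
      G p q r (S r)) (Ici 0) :=
    ((continuousOn_const.mul (cnv_G_cont H C₁.cS C₁.den)).add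
      (continuousOn_const.mul (cnv_G_cont H C₂.cS C₂.den))).sub (cnv_G_cont H C.cS C.den)
  have hV0 : c * S₁ 0 + (1 - c) * S₂ 0 - S 0 = 0 := by
    rw [C₁.S0, C₂.S0, C.S0, hs, sub_self]
  have hW0 : c * T₁ 0 + (1 - c) * T₂ 0 - T 0 = 0 := by
    rw [C₁.T0, C₂.T0, C.T0]
    ring
  have hV : ∀ r, 0 < r → HasDerivAt (fun r => c * S₁ r + (1 - c) * S₂ r - S r)
      (2 * k * p 1 r * (c * G p q r (S₁ r) + (1 - c) * G p q r (S₂ r) - G p q r (S r))) r := by
    intro r hr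
    have h := ((((C₁.dS r hr).const_mul c).add ((C₂.dS r hr).const_mul (1 - c))).sub (C.dS r hr))
    refine HasDerivAt.congr_deriv (f := fun r => c * S₁ r + (1 - c) * S₂ r - S r) h ?_
    ring
  have hW : ∀ r, 0 < r → HasDerivAt (fun r => c * T₁ r + (1 - c) * T₂ r - T r)
      (c * G p q r (S₁ r) + (1 - c) * G p q r (S₂ r) - G p q r (S r)) r := by
    intro r hr
    exact (((C₁.dT r hr).const_mul c).add ((C₂.dT r hr).const_mul (1 - c))).sub (C.dT r hr)
  have hdU : ∀ r, 0 ≤ r → 0 < r * p 1 r * (c * S₁ r + (1 - c) * S₂ r) - q 1 r := fun r hr =>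
    cnv_den hc hc' (C₁.den r hr) (C₂.den r hr)
  -- the factor
  have hmc : ContinuousOn (fun r => 2 * k * p 1 r *
      ((r * p 1 r * (c * S₁ r + (1 - c) * S₂ r) * S r - q 1 r * (c * S₁ r + (1 - c) * S₂ r + S r)) /
        ((r * p 1 r * (c * S₁ r + (1 - c) * S₂ r) - q 1 r) * (r * p 1 r * S r - q 1 r)))) (Ici 0) := by
    have hpc := (cnv_p_cont H).continuousOn (s := Ici (0 : ℝ))
    have hqc := (cnv_q_cont H).continuousOn (s := Ici (0 : ℝ))
    have hAc : ContinuousOn (fun r : ℝ => r * p 1 r) (Ici 0) := continuousOn_id.mul hpc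
    exact (continuousOn_const.mul hpc).mul ((((hAc.mul hUc).mul C.cS).sub (hqc.mul (hUc.add C.cS))).div
      (((hAc.mul hUc).sub hqc).mul ((hAc.mul C.cS).sub hqc))
      (fun r hr => (mul_pos (hdU r hr) (C.den r hr)).ne'))
  have hVn : ∀ r, 0 ≤ r → 0 ≤ c * S₁ r + (1 - c) * S₂ r - S r := by
    refine int_factor hVc hmc hV ?_ hV0.ge
    intro r hr
    have h1 := G_convex hc hc' (C₁.den r hr.le) (C₂.den r hr.le)
    have h2 := G_sub (C.den r hr.le) (hdU r hr.le)
    have hk0 : 0 ≤ 2 * (k : ℝ) * p 1 r := (mul_pos hK (hg0 r hr)).le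
    have h3 : (r * p 1 r * (c * S₁ r + (1 - c) * S₂ r) * S r - q 1 r * (c * S₁ r + (1 - c) * S₂ r + S r)) /
        ((r * p 1 r * (c * S₁ r + (1 - c) * S₂ r) - q 1 r) * (r * p 1 r * S r - q 1 r)) *
        (c * S₁ r + (1 - c) * S₂ r - S r) ≤
        c * G p q r (S₁ r) + (1 - c) * G p q r (S₂ r) - G p q r (S r) := by
      rw [← h2]
      unfold G
      linarith
    have h4 := mul_le_mul_of_nonneg_left h3 hk0
    rw [mul_assoc (2 * (k : ℝ) * p 1 r)]
    exact h4
  have hWn := cnv_step hK (cnv_p_diff H) hg0 (H.mono 1) hVc hWc hW'c hV0 hW0 hV hW hVn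
  have hlim : Tendsto (fun r => c * T₁ r + (1 - c) * T₂ r - T r) atTop
      (𝓝 (c * τ₁ + (1 - c) * τ₂ - τ)) :=
    ((C₁.limT.const_mul c).add (C₂.limT.const_mul (1 - c))).sub C.limT
  have h := ge_of_tendsto hlim (by
    filter_upwards [eventually_gt_atTop (0 : ℝ)] with r hr
    exact hWn r hr)
  linarith

theorem arc_conv (H : Hyp k p q) {b₁ a₁ τ₁ b₂ a₂ τ₂ b a τ c : ℝ} {x₁ y₁ x₂ y₂ x y : ℝ → ℝ}
    (A₁ : Arc p q b₁ a₁ τ₁ x₁ y₁) (A₂ : Arc p q b₂ a₂ τ₂ x₂ y₂) (A : Arc p q b a τ x y)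
    (hc : 0 ≤ c) (hc' : c ≤ 1)
    (hs : (b ^ (2 * k))⁻¹ = c * (b₁ ^ (2 * k))⁻¹ + (1 - c) * (b₂ ^ (2 * k))⁻¹) :
    τ ≤ c * τ₁ + (1 - c) * τ₂ := by
  obtain ⟨S₁, T₁, C₁⟩ := exists_chart H A₁
  obtain ⟨S₂, T₂, C₂⟩ := exists_chart H A₂
  obtain ⟨S, T, C⟩ := exists_chart H A
  exact chart_conv H C₁ C₂ C hc hc' hs

end Pool.Agent.CritPer.H
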