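import Pool.Agent.CritPer.H.Per
import Pool.Agent.CritPer.H.Cnv

set_option autoImplicit false

/-!
HD-CVT.  Convexity of the period in `s = b ^ (-2k)`.
PLAN.  A point `(b, 0)`, `b > 0`, of `cyc X` is `γ 0` for a periodic solution `γ` around the origin; `per_data` gives quarters; the `b` there is this `b` (uniqueness of the crossing, `(b, 0) = γ 0 ∈ range γ`), so `minPeriod X (b, 0) = 2 (τ₁ + τ₂)`.  Do this for the three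
points and use `arc_conv` for `(p, q)` and for the reflected field (`H.refl`).
-/

open Set Filter Topology

namespace Pool.Agent.CritPer.H

variable {k : ℕ} {p q : ℝ → ℝ → ℝ} {X : ℝ × ℝ → ℝ × ℝ}

private theorem cvt_data (H : Hyp k p q) (hX : ∀ z, X z = (p z.1 z.2, q z.1 z.2)) {b : ℝ}
    (h : 0 < b) (hk : ((b, (0 : ℝ)) : ℝ × ℝ) ∈ cyc X) :
    ∃ (a τ₁ τ₂ : ℝ) (x₁ y₁ x₂ y₂ : ℝ → ℝ), Arc p q b a τ₁ x₁ y₁ ∧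
      Arc (pr p) (qr q) b a τ₂ x₂ y₂ ∧ minPeriod X (b, 0) = 2 * (τ₁ + τ₂) := by
  obtain ⟨γ, hγ, h0, hS⟩ := hk
  obtain ⟨b', a, τ₁, τ₂, x₁, y₁, x₂, y₂, A₁, A₂, _, hu, hT⟩ := per_data H hX hγ hS
  have hb : b = b' := hu b h ⟨0, h0⟩
  subst hb
  rw [h0] at hT
  exact ⟨a, τ₁, τ₂, x₁, y₁, x₂, y₂, A₁, A₂, hT⟩

theorem conv_T (H : Hyp k p q) (hX : ∀ z, X z = (p z.1 z.2, q z.1 z.2)) {b₁ b₂ b c : ℝ}
    (h₁ : 0 < b₁) (h₂ : 0 < b₂) (h : 0 < b) (k₁ : ((b₁, (0 : ℝ)) : ℝ × ℝ) ∈ cyc X)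
    (k₂ : ((b₂, (0 : ℝ)) : ℝ × ℝ) ∈ cyc X) (hk : ((b, (0 : ℝ)) : ℝ × ℝ) ∈ cyc X)
    (hc : 0 ≤ c) (hc' : c ≤ 1)
    (hs : (b ^ (2 * k))⁻¹ = c * (b₁ ^ (2 * k))⁻¹ + (1 - c) * (b₂ ^ (2 * k))⁻¹) :
    minPeriod X (b, 0) ≤ c * minPeriod X (b₁, 0) + (1 - c) * minPeriod X (b₂, 0) := by
  obtain ⟨a₁, τ₁, σ₁, x₁, y₁, u₁, v₁, A₁, B₁, T₁⟩ := cvt_data H hX h₁ k₁
  obtain ⟨a₂, τ₂, σ₂, x₂, y₂, u₂, v₂, A₂, B₂, T₂⟩ := cvt_data H hX h₂ k₂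
  obtain ⟨a, τ, σ, x, y, u, v, A, B, T⟩ := cvt_data H hX h hk
  have e1 := arc_conv H A₁ A₂ A hc hc' hs
  have e2 := arc_conv H.refl B₁ B₂ B hc hc' hs
  rw [T₁, T₂, T]
  linarith

end Pool.Agent.CritPer.H
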