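import Mathlib

set_option autoImplicit false

/-!
Elementary facts on functions which are convex in the variable `s = b ^ (-n)`, `b > 0`: such a
function is continuous on an open interval, and it is constant between two critical points.
Also: the image of an open interval under a continuous injective function is an open interval.
-/

open Set Filter Topology

namespace Pool.Agent.CritPer.H

/-- `f` is a convex function of `b ^ (-n)` on `J` -/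
def CvxIn (n : ℕ) (J : Set ℝ) (f : ℝ → ℝ) : Prop :=
  ∀ b₁ ∈ J, ∀ b₂ ∈ J, ∀ b ∈ J, ∀ c : ℝ, 0 ≤ c → c ≤ 1 →
    (b ^ n)⁻¹ = c * (b₁ ^ n)⁻¹ + (1 - c) * (b₂ ^ n)⁻¹ → f b ≤ c * f b₁ + (1 - c) * f b₂

variable {n : ℕ} {J : Set ℝ} {f : ℝ → ℝ}

private noncomputable def Cvx_h (n : ℕ) (s : ℝ) : ℝ := s ^ (-(1 / (n : ℝ)))

private theorem Cvx_h_pos (n : ℕ) {s : ℝ} (hs : 0 < s) : 0 < Cvx_h n s :=
  Real.rpow_pos_of_pos hs _

private theorem Cvx_h_pow (hn : 1 ≤ n) {s : ℝ} (hs : 0 < s) : ((Cvx_h n s) ^ n)⁻¹ = s := by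
  unfold Cvx_h
  have hn0 : (n : ℝ) ≠ 0 := by
    have : 0 < n := hn
    exact_mod_cast this.ne'
  rw [← Real.rpow_natCast, ← Real.rpow_mul hs.le]
  have : -(1 / (n : ℝ)) * (n : ℝ) = -1 := by field_simp
  rw [this, Real.rpow_neg_one, inv_inv]

private theorem Cvx_h_g (hn : 1 ≤ n) {b : ℝ} (hb : 0 < b) : Cvx_h n ((b ^ n)⁻¹) = b := by
  unfold Cvx_h
  have hn0 : (n : ℝ) ≠ 0 := by
    have : 0 < n := hn
    exact_mod_cast this.ne'
  have hbn : 0 < b ^ n := pow_pos hb n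
  rw [Real.rpow_neg (inv_pos.mpr hbn).le, Real.inv_rpow hbn.le, inv_inv, ← Real.rpow_natCast,
    ← Real.rpow_mul hb.le]
  have : (n : ℝ) * (1 / (n : ℝ)) = 1 := by field_simp
  rw [this, Real.rpow_one]

private def Cvx_K (n : ℕ) (J : Set ℝ) : Set ℝ := {s | 0 < s ∧ Cvx_h n s ∈ J}

private theorem Cvx_h_cont (n : ℕ) {s : ℝ} (hs : 0 < s) : ContinuousAt (Cvx_h n) s :=
  Real.continuousAt_rpow_const s _ (Or.inl hs.ne')

private theorem Cvx_K_open (hJ : IsOpen J) : IsOpen (Cvx_K n J) := by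
  rw [isOpen_iff_mem_nhds]
  rintro s ⟨hs, hs'⟩
  have h1 : ∀ᶠ t in 𝓝 s, 0 < t := lt_mem_nhds hs
  have h2 : ∀ᶠ t in 𝓝 s, Cvx_h n t ∈ J :=
    (Cvx_h_cont n hs).eventually_mem (hJ.mem_nhds hs')
  exact h1.and h2

private theorem Cvx_K_ord (hJ' : J.OrdConnected) : (Cvx_K n J).OrdConnected := by
  rw [ordConnected_iff]
  rintro s ⟨hs, hs'⟩ t ⟨ht, ht'⟩ hst u ⟨hu1, hu2⟩
  have hu : 0 < u := lt_of_lt_of_le hs hu1
  refine ⟨hu, hJ'.out ht' hs' ⟨?_, ?_⟩⟩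
  · exact Real.rpow_le_rpow_of_nonpos hu hu2 (by simp)
  · exact Real.rpow_le_rpow_of_nonpos hs hu1 (by simp)

private theorem Cvx_conv (hn : 1 ≤ n) (hJ' : J.OrdConnected) (hf : CvxIn n J f) :
    ConvexOn ℝ (Cvx_K n J) (fun s => f (Cvx_h n s)) := by
  have hK : Convex ℝ (Cvx_K n J) := (Cvx_K_ord (n := n) hJ').convex
  refine ⟨hK, ?_⟩
  intro s hs t ht a c ha hc hac
  have hm := hK hs ht ha hc hac
  have h := hf _ hs.2 _ ht.2 _ hm.2 a ha (by linarith) (by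
    rw [Cvx_h_pow hn hm.1, Cvx_h_pow hn hs.1, Cvx_h_pow hn ht.1]
    simp only [smul_eq_mul]
    rw [← hac]; ring)
  simp only [smul_eq_mul] at h ⊢
  have : c = 1 - a := by linarith
  rw [this] at h ⊢
  exact h

private theorem Cvx_g_mem (hn : 1 ≤ n) (hpos : ∀ b ∈ J, 0 < b) {b : ℝ} (hb : b ∈ J) :
    (b ^ n)⁻¹ ∈ Cvx_K n J := by
  refine ⟨inv_pos.mpr (pow_pos (hpos b hb) n), ?_⟩
  rw [Cvx_h_g hn (hpos b hb)]
  exact hb

private theorem Cvx_h_deriv (n : ℕ) {s : ℝ} (hs : 0 < s) : ∃ d, HasDerivAt (Cvx_h n) d s :=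
  ⟨_, Real.hasDerivAt_rpow_const (p := -(1 / (n : ℝ))) (Or.inl hs.ne')⟩

private theorem Cvx_F_deriv (hn : 1 ≤ n) {b : ℝ} (hb : 0 < b) (hd : HasDerivAt f 0 b) :
    HasDerivAt (fun s => f (Cvx_h n s)) 0 ((b ^ n)⁻¹) := by
  obtain ⟨d, hd'⟩ := Cvx_h_deriv n (inv_pos.mpr (pow_pos hb n))
  have hd2 : HasDerivAt f 0 (Cvx_h n ((b ^ n)⁻¹)) := by rw [Cvx_h_g hn hb]; exact hd
  have := hd2.comp ((b ^ n)⁻¹) hd'
  rw [zero_mul] at this
  exact this

theorem cvx_cont (hn : 1 ≤ n) (hJ : IsOpen J) (hJ' : J.OrdConnected) (hpos : ∀ b ∈ J, 0 < b)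
    (hf : CvxIn n J f) {b : ℝ} (hb : b ∈ J) : ContinuousAt f b := by
  have hK := Cvx_g_mem hn hpos hb
  have hc : ContinuousAt (fun s => f (Cvx_h n s)) ((b ^ n)⁻¹) :=
    ((Cvx_conv hn hJ' hf).continuousOn (Cvx_K_open hJ)).continuousAt
      ((Cvx_K_open hJ).mem_nhds hK)
  have hb0 := hpos b hb
  have hg : ContinuousAt (fun b : ℝ => (b ^ n)⁻¹) b :=
    (continuousAt_id.pow n).inv₀ (pow_ne_zero n hb0.ne')
  have hcomp : ContinuousAt (fun b : ℝ => f (Cvx_h n ((b ^ n)⁻¹))) b :=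
    ContinuousAt.comp (g := fun s => f (Cvx_h n s)) (f := fun b : ℝ => (b ^ n)⁻¹) hc hg
  refine hcomp.congr ?_
  filter_upwards [hJ.mem_nhds hb] with b' hb'
  rw [Cvx_h_g hn (hpos b' hb')]

theorem const_between (hn : 1 ≤ n) (hJ : IsOpen J) (hJ' : J.OrdConnected) (hpos : ∀ b ∈ J, 0 < b)
    (hf : CvxIn n J f) {b₁ b₂ : ℝ} (h₁ : b₁ ∈ J) (h₂ : b₂ ∈ J) (h12 : b₁ < b₂)
    (hd₁ : HasDerivAt f 0 b₁) (hd₂ : HasDerivAt f 0 b₂) : ∀ b ∈ Icc b₁ b₂, f b = f b₁ := by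
  have hb₁ := hpos b₁ h₁
  have hb₂ := hpos b₂ h₂
  have hF := Cvx_conv hn hJ' hf
  have k₁ := Cvx_g_mem hn hpos h₁
  have k₂ := Cvx_g_mem hn hpos h₂
  have D₁ := Cvx_F_deriv hn hb₁ hd₁
  have D₂ := Cvx_F_deriv hn hb₂ hd₂
  have hn' : n ≠ 0 := by omega
  have hlt : ∀ x y : ℝ, 0 < x → x < y → (y ^ n)⁻¹ < (x ^ n)⁻¹ := by
    intro x y hx hxy
    exact inv_strictAnti₀ (pow_pos hx n) (pow_lt_pow_left₀ hxy hx.le hn')
  have e₁ : f (Cvx_h n ((b₁ ^ n)⁻¹)) = f b₁ := by rw [Cvx_h_g hn hb₁]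
  have e₂ : f (Cvx_h n ((b₂ ^ n)⁻¹)) = f b₂ := by rw [Cvx_h_g hn hb₂]
  have hl := hlt b₁ b₂ hb₁ h12
  have a1 := hF.le_slope_of_hasDerivAt k₂ k₁ hl D₂
  have a2 := hF.slope_le_of_hasDerivAt k₂ k₁ hl D₁
  rw [slope_def_field] at a1 a2
  have hd : 0 < (b₁ ^ n)⁻¹ - (b₂ ^ n)⁻¹ := by linarith
  have a3 : f b₂ ≤ f b₁ := by
    have := (le_div_iff₀ hd).mp a1
    simp only [e₁, e₂] at this
    linarith
  have a4 : f b₁ ≤ f b₂ := by
    have := (div_le_iff₀ hd).mp a2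
    simp only [e₁, e₂] at this
    linarith
  have h12' : f b₁ = f b₂ := le_antisymm a4 a3
  intro b hb
  rcases eq_or_lt_of_le hb.1 with h | hbl
  · rw [h]
  rcases eq_or_lt_of_le hb.2 with h | hbr
  · rw [h, h12']
  have hbJ : b ∈ J := hJ'.out h₁ h₂ hb
  have hb0 := hpos b hbJ
  have k := Cvx_g_mem hn hpos hbJ
  have e : f (Cvx_h n ((b ^ n)⁻¹)) = f b := by rw [Cvx_h_g hn hb0]
  have l1 := hlt b₁ b hb₁ hbl
  have l2 := hlt b b₂ hb0 hbr
  have a5 := hF.slope_le_of_hasDerivAt k k₁ l1 D₁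
  rw [slope_def_field] at a5
  have hd' : 0 < (b₁ ^ n)⁻¹ - (b ^ n)⁻¹ := by linarith
  have a6 : f b₁ ≤ f b := by
    have := (div_le_iff₀ hd').mp a5
    simp only [e₁, e] at this
    linarith
  refine le_antisymm ?_ a6
  have hseg : (b ^ n)⁻¹ ∈ segment ℝ ((b₂ ^ n)⁻¹) ((b₁ ^ n)⁻¹) := by
    rw [segment_eq_Icc hl.le]
    exact ⟨l2.le, l1.le⟩
  have := hF.le_max_of_mem_segment k₂ k₁ hseg
  simp only [e₁, e₂, e, h12', max_self] at this
  rw [h12']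
  exact this

/-- the image of an open interval under a continuous injective function -/
theorem image_open {φ : ℝ → ℝ} {I : Set ℝ} (hI : IsOpen I) (hI' : I.OrdConnected)
    (hφ : ContinuousOn φ I) (hinj : InjOn φ I) : IsOpen (φ '' I) ∧ (φ '' I).OrdConnected := by
  constructor
  · rw [isOpen_iff_mem_nhds]
    rintro y ⟨x, hx, rfl⟩
    obtain ⟨ε, hε, hb⟩ := Metric.isOpen_iff.mp hI x hx
    have hsub : Icc (x - ε / 2) (x + ε / 2) ⊆ I := by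
      intro z hz
      apply hb
      rw [Metric.mem_ball, Real.dist_eq, abs_lt]
      constructor <;> linarith [hz.1, hz.2]
    have hle : x - ε / 2 ≤ x + ε / 2 := by linarith
    have hc := hφ.mono hsub
    have hi := hinj.mono hsub
    have m1 : x - ε / 2 ∈ Icc (x - ε / 2) (x + ε / 2) := ⟨le_refl _, hle⟩
    have m2 : x + ε / 2 ∈ Icc (x - ε / 2) (x + ε / 2) := ⟨hle, le_refl _⟩
    have m3 : x ∈ Icc (x - ε / 2) (x + ε / 2) := ⟨by linarith, by linarith⟩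
    rcases hc.strictMonoOn_of_injOn_Icc' hle hi with h | h
    · have h1 := h m1 m3 (by linarith)
      have h2 := h m3 m2 (by linarith)
      refine Filter.mem_of_superset (Icc_mem_nhds h1 h2) ?_
      exact (intermediate_value_Icc hle hc).trans (image_mono hsub)
    · have h1 := h m1 m3 (by linarith)
      have h2 := h m3 m2 (by linarith)
      refine Filter.mem_of_superset (Icc_mem_nhds h2 h1) ?_
      exact (intermediate_value_Icc' hle hc).trans (image_mono hsub)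
  · exact (hI'.isPreconnected.image φ hφ).ordConnected

end Pool.Agent.CritPer.H
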