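import Pool.Agent.CritPer.Flow

set_option autoImplicit false

/-!
HalfDegree (MP_914726_an), paper proof /team-store/cp_h32.md.  Definitions.
-/

open Set Filter Topology

namespace Pool.Agent.CritPer.H

/-- reflection in the second axis -/
def pr (p : ℝ → ℝ → ℝ) (x y : ℝ) : ℝ := p (-x) y

/-- reflection in the second axis, with reversion of time -/
def qr (q : ℝ → ℝ → ℝ) (x y : ℝ) : ℝ := -q (-x) y

/-- the hypotheses on the field `(p, q)` -/
structure Hyp (k : ℕ) (p q : ℝ → ℝ → ℝ) : Prop where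
  hk : 1 ≤ k
  cp : ContDiff ℝ 1 (fun z : ℝ × ℝ => p z.1 z.2)
  cq : ContDiff ℝ 1 (fun z : ℝ × ℝ => q z.1 z.2)
  hp : ∀ r x y, p (r * x) (r * y) = r ^ (2 * k + 1) * p x y
  hq : ∀ r x y, q (r * x) (r * y) = r ^ (4 * k + 1) * q x y
  px : ∀ x, p x 0 = 0
  mono : ∀ x, Monotone (p x)
  pos : ∀ x y, 0 < y → 0 < p x y
  q0 : q 1 0 < 0

/-- a quarter of an orbit: the curve runs against the field `(p, q)` from `(b, 0)` to `(0, a)`
through the open first quadrant, in the time `τ` -/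
structure Arc (p q : ℝ → ℝ → ℝ) (b a τ : ℝ) (x y : ℝ → ℝ) : Prop where
  dx : ∀ t, HasDerivAt x (-(p (x t) (y t))) t
  dy : ∀ t, HasDerivAt y (-(q (x t) (y t))) t
  hb : 0 < b
  ha : 0 < a
  hτ : 0 < τ
  x0 : x 0 = b
  y0 : y 0 = 0
  x1 : x τ = 0
  y1 : y τ = a
  xpos : ∀ t, 0 ≤ t → t < τ → 0 < x t
  ypos : ∀ t, 0 < t → t ≤ τ → 0 < y t

/-- the right hand side in the coordinates `r = y / x`, `S = x ^ (-2k)` -/
noncomputable def G (p q : ℝ → ℝ → ℝ) (r S : ℝ) : ℝ := S ^ 2 / (r * p 1 r * S - q 1 r)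

/-- a quarter of an orbit in the coordinates `r = y / x`, `S = x ^ (-2k)`, `T` the time -/
structure Chart (k : ℕ) (p q : ℝ → ℝ → ℝ) (s a τ : ℝ) (S T : ℝ → ℝ) : Prop where
  hs : 0 < s
  S0 : S 0 = s
  T0 : T 0 = 0
  cS : ContinuousOn S (Ici 0)
  cT : ContinuousOn T (Ici 0)
  Spos : ∀ r, 0 ≤ r → 0 < S r
  den : ∀ r, 0 ≤ r → 0 < r * p 1 r * S r - q 1 r
  dS : ∀ r, 0 < r → HasDerivAt S (2 * k * p 1 r * G p q r (S r)) r
  dT : ∀ r, 0 < r → HasDerivAt T (G p q r (S r)) r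
  limT : Tendsto T atTop (𝓝 τ)
  limS : Tendsto (fun r => r ^ (2 * k) / S r) atTop (𝓝 (a ^ (2 * k)))

/-- the point at which the orbit of `z` meets the positive first axis -/
noncomputable def bz (X : ℝ × ℝ → ℝ × ℝ) (z : ℝ × ℝ) : ℝ :=
  sSup {b : ℝ | 0 < b ∧ ((b, (0 : ℝ)) : ℝ × ℝ) ∈ orbit X z}

variable {k : ℕ} {p q : ℝ → ℝ → ℝ}

theorem Hyp.neg_p (H : Hyp k p q) (x y : ℝ) : p (-x) (-y) = -p x y := by
  have h := H.hp (-1) x y
  rw [neg_one_mul, neg_one_mul, Odd.neg_one_pow ⟨k, rfl⟩, neg_one_mul] at h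
  exact h

theorem Hyp.neg_q (H : Hyp k p q) (x y : ℝ) : q (-x) (-y) = -q x y := by
  have h := H.hq (-1) x y
  rw [neg_one_mul, neg_one_mul, Odd.neg_one_pow ⟨2 * k, by ring⟩, neg_one_mul] at h
  exact h

/-- the reflected field satisfies the same hypotheses -/
theorem Hyp.refl (H : Hyp k p q) : Hyp k (pr p) (qr q) where
  hk := H.hk
  cp := by
    have h := H.cp.comp (contDiff_fst.neg.prodMk contDiff_snd : ContDiff ℝ 1 (fun z : ℝ × ℝ => ((-z.1, z.2) : ℝ × ℝ)))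
    exact h
  cq := by
    have h := (H.cq.comp (contDiff_fst.neg.prodMk contDiff_snd : ContDiff ℝ 1 (fun z : ℝ × ℝ => ((-z.1, z.2) : ℝ × ℝ)))).neg
    exact h
  hp := fun r x y => by
    unfold pr
    rw [← mul_neg]
    exact H.hp r (-x) y
  hq := fun r x y => by
    unfold qr
    rw [← mul_neg, H.hq r (-x) y]
    ring
  px := fun x => H.px (-x)
  mono := fun x => H.mono (-x)
  pos := fun x y hy => H.pos (-x) y hy
  q0 := by
    unfold qr
    have h := H.neg_q 1 0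
    rw [neg_zero] at h
    rw [h, neg_neg]
    exact H.q0

theorem Hyp.p_one (H : Hyp k p q) {x r : ℝ} : p x (r * x) = x ^ (2 * k + 1) * p 1 r := by
  have h := H.hp x 1 r
  rw [mul_one, mul_comm x r] at h
  exact h

theorem Hyp.q_one (H : Hyp k p q) {x r : ℝ} : q x (r * x) = x ^ (4 * k + 1) * q 1 r := by
  have h := H.hq x 1 r
  rw [mul_one, mul_comm x r] at h
  exact h

theorem Hyp.q_axis (H : Hyp k p q) (x : ℝ) : q x 0 = x ^ (4 * k + 1) * q 1 0 := by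
  have h := H.hq x 1 0
  rw [mul_one, mul_zero] at h
  exact h

end Pool.Agent.CritPer.H
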