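import Pool.Agent.CritPer.H.FS4
import Pool.Agent.CritPer.H.Bz

set_option autoImplicit false

/-!
HD-DIFB.  Differentiability of the crossing point.
PLAN.  Let `γ` be the periodic solution with `γ 0 = z₀`, `γ t₁ = (b₀, 0)`, `b₀ = bz X z₀` (`bz_spec`), `Ψ` from `flow_smooth` at `t₁`.  `f (z, t) = (Ψ (t, z)).2` is `C^1` at `(z₀, t₁)`, `f (z₀, t₁) = 0`, and its derivative in `t` is `(X (b₀, 0)).2 ≠ 0`
(`Ψ (t, z₀) = γ t` for `t` near `t₁`; `Hyp.q_axis`, `q0`).  Implicit function `ContDiffAt.implicitFunction` (IsInvertible: a nonzero `ℝ →L[ℝ] ℝ`): `θ` is `C^1` at `z₀`, `θ z₀ = t₁`, `f (z, θ z) = 0`; `β z = (Ψ (θ z, z)).1` is differentiable at `z₀`, `β z₀ = b₀ > 0`, and `β z = bz X z` near `z₀`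
(`hz`: the solution through `z` is global and periodic; `(β z, 0)` is on it; `bz_spec`).  `L (X z₀) = 0`: `bz X (γ t) = b₀` for all `t` (`bz_orbit`), chain rule.
Last part: `Ψ'` from `flow_smooth` for the solution `t ↦ γ (t + t₁)` through `(b₀, 0)` and the time `-t₁`: `bz X (Ψ' (-t₁, (b, 0))) = bz X (b, 0) = b` for `b` near `b₀` (`bz_orbit`, `bz_axis`); the chain rule at `b₀` gives `L (w) = 1` for some `w`, so `L ≠ 0`; with `L (X z₀) = 0` and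
`v` not parallel to `X z₀` (the two span the plane) one has `L v ≠ 0`.
-/

open Set Filter Topology

namespace Pool.Agent.CritPer.H

variable {k : ℕ} {P Q : MvPolynomial (Fin 2) ℝ}

private theorem DifB_axis_ne (H : PHyp k P Q) {b : ℝ} (hb : 0 < b) : (vf P Q (b, 0)).2 ≠ 0 := by
  have h1 := Hyp.q_axis H b
  have h2 := Hyp.q0 H
  have h3 : (vf P Q (b, 0)).2 = b ^ (4 * k + 1) * MvPolynomial.eval ![1, 0] Q := h1
  rw [h3]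
  have h4 : MvPolynomial.eval ![1, 0] Q < 0 := h2
  exact mul_ne_zero (pow_ne_zero _ hb.ne') h4.ne

/-- the solution through a point of `cyc` and the time at which it crosses the axis -/
private theorem DifB_cross (H : PHyp k P Q) {z₀ : ℝ × ℝ} (hz : z₀ ∈ cyc (vf P Q)) :
    ∃ (γ : ℝ → ℝ × ℝ) (t₁ : ℝ), IsSol (vf P Q) γ ∧ γ 0 = z₀ ∧ γ t₁ = (bz (vf P Q) z₀, 0) := by
  obtain ⟨-, ⟨γ, hγ, h0, t₁, ht₁⟩, -⟩ := bz_spec H hz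
  exact ⟨γ, t₁, hγ, h0, ht₁⟩

theorem diff_bz (H : PHyp k P Q) {z₀ : ℝ × ℝ} (hz : ∀ᶠ z in 𝓝 z₀, z ∈ cyc (vf P Q)) :
    ∃ L : ℝ × ℝ →L[ℝ] ℝ, HasFDerivAt (bz (vf P Q)) L z₀ ∧ L (vf P Q z₀) = 0 := by
  have hz₀ : z₀ ∈ cyc (vf P Q) := hz.self_of_nhds
  obtain ⟨γ, t₁, hγ, h0, ht₁⟩ := DifB_cross H hz₀
  have hbpos : 0 < bz (vf P Q) z₀ := (bz_spec H hz₀).1
  set b₀ : ℝ := bz (vf P Q) z₀ with hb₀
  obtain ⟨Ψ, hΨ, hev⟩ := flow_smooth P Q hγ t₁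
  rw [h0] at hΨ hev
  set u : (ℝ × ℝ) × ℝ := (z₀, t₁) with hu
  set f : (ℝ × ℝ) × ℝ → ℝ := fun w => (Ψ (w.2, w.1)).2 with hf
  have hψ : ContDiff ℝ 1 (fun w : (ℝ × ℝ) × ℝ => ((w.2, w.1) : ℝ × (ℝ × ℝ))) :=
    contDiff_snd.prodMk contDiff_fst
  have hcd : ContDiffAt ℝ 1 f u := by
    have h1 : ContDiffAt ℝ 1 Ψ ((fun w : (ℝ × ℝ) × ℝ => ((w.2, w.1) : ℝ × (ℝ × ℝ))) u) := hΨ
    exact (h1.comp u hψ.contDiffAt).snd
  have hc0 : (vf P Q (b₀, 0)).2 ≠ 0 := DifB_axis_ne H hbpos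
  have hΨu : Ψ (t₁, z₀) = (b₀, 0) := by
    have h1 := hev.self_of_nhds γ hγ h0
    have h2 : Ψ (t₁, z₀) = γ t₁ := h1
    rw [h2, ht₁]
  have hfu : f u = 0 := by
    have h2 : f u = (Ψ (t₁, z₀)).2 := rfl
    rw [h2, hΨu]
  have hder : HasDerivAt (fun T : ℝ => f (z₀, T)) (vf P Q (b₀, 0)).2 t₁ := by
    have h1 : HasDerivAt (fun T : ℝ => (γ T).2) (vf P Q (γ t₁)).2 t₁ := (hγ t₁).snd
    rw [ht₁] at h1
    refine h1.congr_of_eventuallyEq ?_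
    have h2 : Tendsto (fun T : ℝ => ((T, z₀) : ℝ × (ℝ × ℝ))) (𝓝 t₁) (𝓝 (t₁, z₀)) :=
      (continuous_id.prodMk continuous_const).tendsto t₁
    filter_upwards [h2.eventually hev] with T hT
    have h3 := hT γ hγ h0
    show (Ψ (T, z₀)).2 = (γ T).2
    rw [h3]
  have hinr : ∀ t : ℝ, (fderiv ℝ f u ∘L .inr ℝ (ℝ × ℝ) ℝ) t = t * (vf P Q (b₀, 0)).2 := by
    have h1 : HasFDerivAt f (fderiv ℝ f u) u := (hcd.differentiableAt one_ne_zero).hasFDerivAt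
    have h2 : HasDerivAt (fun T : ℝ => ((z₀, T) : (ℝ × ℝ) × ℝ)) ((0 : ℝ × ℝ), (1 : ℝ)) t₁ :=
      (hasDerivAt_const t₁ z₀).prodMk (hasDerivAt_id t₁)
    have h3 : HasDerivAt (fun T : ℝ => f (z₀, T)) (fderiv ℝ f u ((0 : ℝ × ℝ), (1 : ℝ))) t₁ := by
      have h7 := HasFDerivAt.comp_hasDerivAt (f := fun T : ℝ => ((z₀, T) : (ℝ × ℝ) × ℝ)) t₁ h1 h2
      exact h7
    have h4 := h3.unique hder
    intro t
    have h5 : (fderiv ℝ f u ∘L .inr ℝ (ℝ × ℝ) ℝ) t = fderiv ℝ f u ((0 : ℝ × ℝ), t) := rfl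
    have h6 : (((0 : ℝ × ℝ), t) : (ℝ × ℝ) × ℝ) = t • ((0 : ℝ × ℝ), (1 : ℝ)) := by
      ext <;> simp
    rw [h5, h6, map_smul, h4, smul_eq_mul]
  have hinv : (fderiv ℝ f u ∘L .inr ℝ (ℝ × ℝ) ℝ).IsInvertible := by
    refine ⟨ContinuousLinearEquiv.unitsEquivAut ℝ (Units.mk0 _ hc0), ?_⟩
    ext
    rw [hinr]
    simp
  have hiff := hcd.eventually_apply_eq_iff_implicitFunction one_ne_zero hinv
  set θ : ℝ × ℝ → ℝ := hcd.implicitFunction one_ne_zero hinv with hθdef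
  have hθ : DifferentiableAt ℝ θ z₀ :=
    (hcd.hasStrictFDerivAt_implicitFunction one_ne_zero hinv).hasFDerivAt.differentiableAt
  have hθ0 : θ z₀ = t₁ := by
    have h1 := hiff.self_of_nhds
    exact h1.1 rfl
  have hθf : ∀ᶠ z in 𝓝 z₀, f (z, θ z) = 0 := by
    have h1 := hcd.eventually_apply_implicitFunction one_ne_zero hinv
    filter_upwards [h1] with z h2
    rw [hfu] at h2
    exact h2
  have hpair : DifferentiableAt ℝ (fun z : ℝ × ℝ => ((θ z, z) : ℝ × (ℝ × ℝ))) z₀ :=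
    hθ.prodMk differentiableAt_id
  have hΨd : DifferentiableAt ℝ Ψ ((fun z : ℝ × ℝ => ((θ z, z) : ℝ × (ℝ × ℝ))) z₀) := by
    show DifferentiableAt ℝ Ψ (θ z₀, z₀)
    rw [hθ0]
    exact hΨ.differentiableAt one_ne_zero
  have hcomp : DifferentiableAt ℝ (fun z : ℝ × ℝ => Ψ (θ z, z)) z₀ :=
    DifferentiableAt.comp z₀ hΨd hpair
  have hβ : DifferentiableAt ℝ (fun z : ℝ × ℝ => (Ψ (θ z, z)).1) z₀ := hcomp.fst
  have hβ0 : (Ψ (θ z₀, z₀)).1 = b₀ := by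
    rw [hθ0, hΨu]
  have hβpos : ∀ᶠ z in 𝓝 z₀, 0 < (Ψ (θ z, z)).1 := by
    refine hβ.continuousAt.eventually (lt_mem_nhds ?_)
    show 0 < (Ψ (θ z₀, z₀)).1
    rw [hβ0]
    exact hbpos
  have htend : Tendsto (fun z : ℝ × ℝ => ((θ z, z) : ℝ × (ℝ × ℝ))) (𝓝 z₀) (𝓝 (t₁, z₀)) := by
    have h1 : Tendsto (fun z : ℝ × ℝ => ((θ z, z) : ℝ × (ℝ × ℝ))) (𝓝 z₀) (𝓝 (θ z₀, z₀)) :=
      hpair.continuousAt.tendsto
    rw [hθ0] at h1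
    exact h1
  have heq : bz (vf P Q) =ᶠ[𝓝 z₀] fun z : ℝ × ℝ => (Ψ (θ z, z)).1 := by
    filter_upwards [hz, hθf, hβpos, htend.eventually hev] with z h1 h2 h3 h4
    obtain ⟨-, -, -, huniq, -⟩ := bz_spec H h1
    obtain ⟨δ, hδ, hδ0, -⟩ := h1
    have h5 : Ψ (θ z, z) = δ (θ z) := h4 δ hδ.1 hδ0
    have h6 : (Ψ (θ z, z)).2 = 0 := h2
    refine (huniq _ h3 ⟨δ, hδ.1, hδ0, θ z, ?_⟩).symm
    rw [← h5]
    exact Prod.ext rfl h6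
  refine ⟨fderiv ℝ (fun z : ℝ × ℝ => (Ψ (θ z, z)).1) z₀, hβ.hasFDerivAt.congr_of_eventuallyEq heq,
    ?_⟩
  have hL := hβ.hasFDerivAt.congr_of_eventuallyEq heq
  have h1 : HasDerivAt γ (vf P Q z₀) 0 := by
    have h2 := hγ 0
    rw [h0] at h2
    exact h2
  have h3 : HasFDerivAt (bz (vf P Q)) (fderiv ℝ (fun z : ℝ × ℝ => (Ψ (θ z, z)).1) z₀) (γ 0) := by
    rw [h0]
    exact hL
  have h4 : HasDerivAt (fun t : ℝ => bz (vf P Q) (γ t))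
      (fderiv ℝ (fun z : ℝ × ℝ => (Ψ (θ z, z)).1) z₀ (vf P Q z₀)) 0 :=
    HasFDerivAt.comp_hasDerivAt (f := γ) 0 h3 h1
  have h5 : (fun t : ℝ => bz (vf P Q) (γ t)) = fun _ => bz (vf P Q) (γ 0) := by
    funext t
    exact (bz_orbit H hγ (by rw [h0]; exact hz₀) t).2
  rw [h5] at h4
  exact h4.unique (hasDerivAt_const _ _)

theorem diff_bz_ne (H : PHyp k P Q) {z₀ : ℝ × ℝ} (hz : z₀ ∈ cyc (vf P Q))
    (hb : ∀ᶠ b in 𝓝 (bz (vf P Q) z₀), ((b, (0 : ℝ)) : ℝ × ℝ) ∈ cyc (vf P Q))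
    {L : ℝ × ℝ →L[ℝ] ℝ} (hL : HasFDerivAt (bz (vf P Q)) L z₀) (hX : L (vf P Q z₀) = 0)
    {v : ℝ × ℝ} (hv : v.1 * (vf P Q z₀).2 - v.2 * (vf P Q z₀).1 ≠ 0) : L v ≠ 0 := by
  obtain ⟨γ, t₁, hγ, h0, ht₁⟩ := DifB_cross H hz
  have hbpos : 0 < bz (vf P Q) z₀ := (bz_spec H hz).1
  set b₀ : ℝ := bz (vf P Q) z₀ with hb₀
  intro hLv
  -- then L = 0
  have hL0 : ∀ w : ℝ × ℝ, L w = 0 := by
    intro w
    have h1 : (v.1 * (vf P Q z₀).2 - v.2 * (vf P Q z₀).1) • w =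
        (w.1 * (vf P Q z₀).2 - w.2 * (vf P Q z₀).1) • v +
          (v.1 * w.2 - v.2 * w.1) • vf P Q z₀ := by
      refine Prod.ext ?_ ?_
      · simp only [Prod.smul_fst, Prod.fst_add, smul_eq_mul]
        ring
      · simp only [Prod.smul_snd, Prod.snd_add, smul_eq_mul]
        ring
    have h2 := congrArg L h1
    rw [map_smul, map_add, map_smul, map_smul, hLv, hX, smul_zero, smul_zero, add_zero,
      smul_eq_mul] at h2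
    exact (mul_eq_zero.1 h2).resolve_left hv
  have hγ₁ : IsSol (vf P Q) (fun t => γ (t + t₁)) := hγ.shift t₁
  obtain ⟨Ψ, hΨ, hev⟩ := flow_smooth P Q hγ₁ (-t₁)
  have hγ₁0 : (fun t => γ (t + t₁)) 0 = (b₀, 0) := by
    show γ (0 + t₁) = (b₀, 0)
    rw [zero_add, ht₁]
  have hγ₁0' : γ (0 + t₁) = (b₀, 0) := hγ₁0
  simp only [hγ₁0'] at hΨ hev
  have hΨ0 : Ψ (-t₁, (b₀, (0 : ℝ))) = z₀ := by
    have h1 : Ψ (-t₁, (b₀, (0 : ℝ))) = γ (-t₁ + t₁) := hev.self_of_nhds _ hγ₁ hγ₁0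
    rw [h1, neg_add_cancel, h0]
  have hpath : HasDerivAt (fun b : ℝ => ((-t₁, (b, (0 : ℝ))) : ℝ × (ℝ × ℝ)))
      ((0 : ℝ), ((1 : ℝ), (0 : ℝ))) b₀ :=
    (hasDerivAt_const b₀ (-t₁)).prodMk ((hasDerivAt_id b₀).prodMk (hasDerivAt_const b₀ (0 : ℝ)))
  have hΨd : HasFDerivAt Ψ (fderiv ℝ Ψ (-t₁, (b₀, (0 : ℝ)))) (-t₁, (b₀, (0 : ℝ))) :=
    (hΨ.differentiableAt one_ne_zero).hasFDerivAt
  have hg : HasDerivAt (fun b : ℝ => Ψ (-t₁, (b, (0 : ℝ))))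
      (fderiv ℝ Ψ (-t₁, (b₀, (0 : ℝ))) ((0 : ℝ), ((1 : ℝ), (0 : ℝ)))) b₀ :=
    HasFDerivAt.comp_hasDerivAt (f := fun b : ℝ => ((-t₁, (b, (0 : ℝ))) : ℝ × (ℝ × ℝ))) b₀
      hΨd hpath
  have hL' : HasFDerivAt (bz (vf P Q)) L ((fun b : ℝ => Ψ (-t₁, (b, (0 : ℝ)))) b₀) := by
    show HasFDerivAt (bz (vf P Q)) L (Ψ (-t₁, (b₀, (0 : ℝ))))
    rw [hΨ0]
    exact hL
  have hcomp : HasDerivAt (fun b : ℝ => bz (vf P Q) (Ψ (-t₁, (b, (0 : ℝ))))) (0 : ℝ) b₀ := by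
    have h1 := HasFDerivAt.comp_hasDerivAt (f := fun b : ℝ => Ψ (-t₁, (b, (0 : ℝ)))) b₀ hL' hg
    rw [hL0] at h1
    exact h1
  have htend : Tendsto (fun b : ℝ => ((-t₁, (b, (0 : ℝ))) : ℝ × (ℝ × ℝ))) (𝓝 b₀)
      (𝓝 (-t₁, (b₀, (0 : ℝ)))) := hpath.continuousAt.tendsto
  have heq : (fun b : ℝ => bz (vf P Q) (Ψ (-t₁, (b, (0 : ℝ))))) =ᶠ[𝓝 b₀] fun b => b := by
    filter_upwards [hb, lt_mem_nhds hbpos, htend.eventually hev] with b h1 h2 h3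
    have h4 := bz_axis H h2 h1
    have h1' := h1
    obtain ⟨δ, hδ, hδ0, -⟩ := h1
    have h5 : Ψ (-t₁, (b, (0 : ℝ))) = δ (-t₁) := h3 δ hδ.1 hδ0
    have h6 := (bz_orbit H hδ.1 (by rw [hδ0]; exact h1') (-t₁)).2
    rw [h5, h6, hδ0, h4]
  have h7 : HasDerivAt (fun b : ℝ => b) (0 : ℝ) b₀ := hcomp.congr_of_eventuallyEq heq.symm
  exact zero_ne_one (h7.unique (hasDerivAt_id b₀))

end Pool.Agent.CritPer.H
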