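import Pool.Agent.CritPer.H.FS4
import Pool.Agent.CritPer.H.Bz

set_option autoImplicit false

/-!
HD-DIFT.  Differentiability of the period on the first axis.
PLAN.  `minPeriod_back`: by `IsSol.unique` the set in the definition of `minPeriod` is `A = {T > 0 | γ T = γ 0}` (nonempty).  Its infimum is a limit of elements of `A`, so `γ (inf) = γ 0` by continuity of `γ` (trivial if the infimum is `0`).
`diff_T`: let `γ` be the periodic solution with `γ 0 = (b₀, 0)` and `T₀ = minPeriod X (b₀, 0)`, so `γ T₀ = (b₀, 0)`.  `Ψ` from `flow_smooth` at `T₀`, `f (b, T) = (Ψ (T, (b, 0))).2` is `C^1` at `(b₀, T₀)`, `f = 0` there, derivative in `T` equal to `(X (b₀, 0)).2 ≠ 0` (`Ψ (T, (b₀, 0)) = γ T` for `T` near `T₀`; `Hyp.q_axis`, `q0`).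
Implicit function with uniqueness: `ContDiffAt.eventually_apply_eq_iff_implicitFunction` gives `f (b, T) = 0 ↔ T = θ b` near `(b₀, T₀)`.  For `b` near `b₀` the point `(b, T (b))`, `T (b) = minPeriod X (b, 0)`, is near `(b₀, T₀)` (`hc`) and `f = 0` there (`minPeriod_back`), so `T (b) = θ b`.
-/

open Set Filter Topology

namespace Pool.Agent.CritPer.H

variable {k : ℕ} {P Q : MvPolynomial (Fin 2) ℝ}

/-- the solution is back after the minimal period -/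
theorem minPeriod_back {γ : ℝ → ℝ × ℝ} (hγ : IsPerSol (vf P Q) γ) :
    γ (minPeriod (vf P Q) (γ 0)) = γ 0 := by
  obtain ⟨hs, ⟨T, hT, hper⟩, -⟩ := hγ
  have hX : ContDiff ℝ 1 (vf P Q) := contDiff_vf' P Q
  have hset : {T : ℝ | 0 < T ∧ ∃ δ, IsSol (vf P Q) δ ∧ δ 0 = γ 0 ∧ δ T = γ 0}
      = {T : ℝ | 0 < T ∧ γ T = γ 0} := by
    ext t
    constructor
    · rintro ⟨ht, δ, h1, h2, h3⟩
      have hd : δ = γ := IsSol.unique hX h1 hs h2
      rw [hd] at h3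
      exact ⟨ht, h3⟩
    · rintro ⟨ht, h⟩
      exact ⟨ht, γ, hs, rfl, h⟩
  unfold minPeriod
  rw [hset]
  have hne : ({T : ℝ | 0 < T ∧ γ T = γ 0}).Nonempty := by
    refine ⟨T, hT, ?_⟩
    have h := hper 0
    rwa [zero_add] at h
  have hbd : BddBelow {T : ℝ | 0 < T ∧ γ T = γ 0} := ⟨0, fun t ht => ht.1.le⟩
  have hcl := csInf_mem_closure hne hbd
  have hcont : Continuous γ := continuous_iff_continuousAt.2 fun t => (hs t).continuousAt
  have hclosed : IsClosed {t : ℝ | γ t = γ 0} := isClosed_eq hcont continuous_const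
  exact closure_minimal (fun t ht => ht.2) hclosed hcl

theorem diff_T (H : PHyp k P Q) {b₀ : ℝ} (hb : 0 < b₀)
    (hz : ∀ᶠ b in 𝓝 b₀, ((b, (0 : ℝ)) : ℝ × ℝ) ∈ cyc (vf P Q))
    (hc : ContinuousAt (fun b : ℝ => minPeriod (vf P Q) (b, 0)) b₀) :
    DifferentiableAt ℝ (fun b : ℝ => minPeriod (vf P Q) (b, 0)) b₀ := by
  obtain ⟨γ, hγ, h0, -⟩ := hz.self_of_nhds
  set T₀ : ℝ := minPeriod (vf P Q) (b₀, 0) with hT₀
  have hback : γ T₀ = γ 0 := by
    have h := minPeriod_back hγ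
    rwa [h0, ← hT₀, ← h0] at h
  obtain ⟨Ψ, hΨ, hev⟩ := flow_smooth P Q hγ.1 T₀
  rw [h0] at hΨ hev
  set u : ℝ × ℝ := (b₀, T₀) with hu
  set f : ℝ × ℝ → ℝ := fun w => (Ψ (w.2, (w.1, (0 : ℝ)))).2 with hf
  have hψ : ContDiff ℝ 1 (fun w : ℝ × ℝ => ((w.2, (w.1, (0 : ℝ))) : ℝ × (ℝ × ℝ))) :=
    contDiff_snd.prodMk (contDiff_fst.prodMk contDiff_const)
  have hcd : ContDiffAt ℝ 1 f u := by
    have h1 : ContDiffAt ℝ 1 Ψ ((fun w : ℝ × ℝ => ((w.2, (w.1, (0 : ℝ))) : ℝ × (ℝ × ℝ))) u) := hΨ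
    exact (h1.comp u hψ.contDiffAt).snd
  -- the field at the base point
  have hc0 : (vf P Q (b₀, 0)).2 ≠ 0 := by
    have h1 := Hyp.q_axis H b₀
    have h2 := Hyp.q0 H
    have h3 : (vf P Q (b₀, 0)).2 = b₀ ^ (4 * k + 1) * MvPolynomial.eval ![1, 0] Q := h1
    rw [h3]
    have h4 : MvPolynomial.eval ![1, 0] Q < 0 := h2
    exact mul_ne_zero (pow_ne_zero _ hb.ne') h4.ne
  -- the value along the base orbit
  have hfu : f u = 0 := by
    have h1 := hev.self_of_nhds γ hγ.1 h0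
    have h2 : f u = (Ψ (T₀, (b₀, (0 : ℝ)))).2 := rfl
    rw [h2, h1]
    show (γ T₀).2 = 0
    rw [hback, h0]
  have hder : HasDerivAt (fun T : ℝ => f (b₀, T)) (vf P Q (b₀, 0)).2 T₀ := by
    have h1 : HasDerivAt (fun T : ℝ => (γ T).2) (vf P Q (γ T₀)).2 T₀ := (hγ.1 T₀).snd
    rw [hback, h0] at h1
    refine h1.congr_of_eventuallyEq ?_
    have h2 : Tendsto (fun T : ℝ => ((T, (b₀, (0 : ℝ))) : ℝ × (ℝ × ℝ))) (𝓝 T₀)
        (𝓝 (T₀, (b₀, (0 : ℝ)))) :=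
      (continuous_id.prodMk continuous_const).tendsto T₀
    filter_upwards [h2.eventually hev] with T hT
    have h3 := hT γ hγ.1 h0
    show (Ψ (T, (b₀, (0 : ℝ)))).2 = (γ T).2
    rw [h3]
  have hinr : ∀ t : ℝ, (fderiv ℝ f u ∘L .inr ℝ ℝ ℝ) t = t * (vf P Q (b₀, 0)).2 := by
    have h1 : HasFDerivAt f (fderiv ℝ f u) u := (hcd.differentiableAt one_ne_zero).hasFDerivAt
    have h2 : HasDerivAt (fun T : ℝ => ((b₀, T) : ℝ × ℝ)) ((0 : ℝ), (1 : ℝ)) T₀ :=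
      (hasDerivAt_const T₀ b₀).prodMk (hasDerivAt_id T₀)
    have h3 : HasDerivAt (fun T : ℝ => f (b₀, T)) (fderiv ℝ f u ((0 : ℝ), (1 : ℝ))) T₀ := by
      have h7 := HasFDerivAt.comp_hasDerivAt (f := fun T : ℝ => ((b₀, T) : ℝ × ℝ)) T₀ h1 h2
      exact h7
    have h4 := h3.unique hder
    intro t
    have h5 : (fderiv ℝ f u ∘L .inr ℝ ℝ ℝ) t = fderiv ℝ f u ((0 : ℝ), t) := rfl
    have h6 : (((0 : ℝ), t) : ℝ × ℝ) = t • ((0 : ℝ), (1 : ℝ)) := by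
      ext <;> simp
    rw [h5, h6, map_smul, h4, smul_eq_mul]
  have hinv : (fderiv ℝ f u ∘L .inr ℝ ℝ ℝ).IsInvertible := by
    refine ⟨ContinuousLinearEquiv.unitsEquivAut ℝ (Units.mk0 _ hc0), ?_⟩
    ext
    rw [hinr]
    simp
  have hiff := hcd.eventually_apply_eq_iff_implicitFunction one_ne_zero hinv
  have hθ : DifferentiableAt ℝ (hcd.implicitFunction one_ne_zero hinv) b₀ :=
    (hcd.hasStrictFDerivAt_implicitFunction one_ne_zero hinv).hasFDerivAt.differentiableAt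
  refine hθ.congr_of_eventuallyEq ?_
  have ht : Tendsto (fun b : ℝ => ((b, minPeriod (vf P Q) (b, 0)) : ℝ × ℝ)) (𝓝 b₀) (𝓝 u) :=
    Tendsto.prodMk_nhds tendsto_id hc
  have ht2 : Tendsto (fun b : ℝ => ((minPeriod (vf P Q) (b, 0), (b, (0 : ℝ))) : ℝ × (ℝ × ℝ)))
      (𝓝 b₀) (𝓝 (T₀, (b₀, (0 : ℝ)))) :=
    Tendsto.prodMk_nhds hc (Tendsto.prodMk_nhds tendsto_id tendsto_const_nhds)
  filter_upwards [ht.eventually hiff, ht2.eventually hev, hz] with b h1 h2 h3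
  obtain ⟨δ, hδ, hδ0, -⟩ := h3
  have h4 := h2 δ hδ.1 hδ0
  have h5 := minPeriod_back hδ
  rw [hδ0] at h5
  have h6 : f (b, minPeriod (vf P Q) (b, 0)) = f u := by
    rw [hfu]
    show (Ψ (minPeriod (vf P Q) (b, 0), (b, (0 : ℝ)))).2 = 0
    rw [h4]
    show (δ (minPeriod (vf P Q) (b, 0))).2 = 0
    rw [h5]
  exact (h1.1 h6).symm

end Pool.Agent.CritPer.H
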