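import Pool.Agent.CritPer.H.Defs

set_option autoImplicit false

/-!
Monotonicity of the angle along a quarter of an orbit: `y p - x q` stays positive, since at a
first zero its derivative along the orbit would be positive by homogeneity.
-/

open Set Filter Topology

namespace Pool.Agent.CritPer.H

variable {k : ℕ} {p q : ℝ → ℝ → ℝ} {b a τ : ℝ} {x y : ℝ → ℝ}

private theorem dp_contDiff (H : Hyp k p q) :
    ContDiff ℝ 1 (fun z : ℝ × ℝ => z.2 * p z.1 z.2 - z.1 * q z.1 z.2) :=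
  (contDiff_snd.mul H.cp).sub (contDiff_fst.mul H.cq)

private theorem dp_radial (H : Hyp k p q) (u v : ℝ) :
    HasDerivAt (fun r : ℝ => (r * v) * p (r * u) (r * v) - (r * u) * q (r * u) (r * v))
      ((2 * k + 2) * (v * p u v) - (4 * k + 2) * (u * q u v)) 1 := by
  have e : (fun r : ℝ => (r * v) * p (r * u) (r * v) - (r * u) * q (r * u) (r * v)) =
      fun r : ℝ => r ^ (2 * k + 2) * (v * p u v) - r ^ (4 * k + 2) * (u * q u v) := by
    funext r
    rw [H.hp, H.hq]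
    ring
  rw [e]
  have h1 := ((hasDerivAt_pow (2 * k + 2) (1 : ℝ)).mul_const (v * p u v)).sub
    ((hasDerivAt_pow (4 * k + 2) (1 : ℝ)).mul_const (u * q u v))
  simp only [one_pow, mul_one] at h1
  have e2 : ((2 * k + 2) * (v * p u v) - (4 * k + 2) * (u * q u v) : ℝ) =
      ((2 * k + 2 : ℕ) : ℝ) * (v * p u v) - ((4 * k + 2 : ℕ) : ℝ) * (u * q u v) := by
    push_cast
    ring
  rw [e2]
  exact h1

private theorem dp_deriv (H : Hyp k p q) (A : Arc p q b a τ x y) {t : ℝ} (hx : 0 < x t)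
    (h0 : y t * p (x t) (y t) - x t * q (x t) (y t) = 0) :
    HasDerivAt (fun t => y t * p (x t) (y t) - x t * q (x t) (y t))
      (2 * k * (p (x t) (y t) / x t) * (y t * p (x t) (y t))) t := by
  have hD : HasFDerivAt (fun z : ℝ × ℝ => z.2 * p z.1 z.2 - z.1 * q z.1 z.2)
      (fderiv ℝ (fun z : ℝ × ℝ => z.2 * p z.1 z.2 - z.1 * q z.1 z.2) (x t, y t)) (x t, y t) :=
    ((dp_contDiff H).differentiable (by norm_num) _).hasFDerivAt
  set L := fderiv ℝ (fun z : ℝ × ℝ => z.2 * p z.1 z.2 - z.1 * q z.1 z.2) (x t, y t) with hL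
  have hc : HasDerivAt (fun s => (x s, y s)) (-(p (x t) (y t)), -(q (x t) (y t))) t :=
    (A.dx t).prodMk (A.dy t)
  have h1 : HasDerivAt (fun s => y s * p (x s) (y s) - x s * q (x s) (y s))
      (L (-(p (x t) (y t)), -(q (x t) (y t)))) t :=
    HasFDerivAt.comp_hasDerivAt t (f := fun s => (x s, y s)) hD hc
  have hr : HasDerivAt (fun r : ℝ => (r * x t, r * y t)) (x t, y t) 1 := by
    have ha : HasDerivAt (fun r : ℝ => r * x t) (1 * x t) 1 := (hasDerivAt_id (1 : ℝ)).mul_const _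
    have hb : HasDerivAt (fun r : ℝ => r * y t) (1 * y t) 1 := (hasDerivAt_id (1 : ℝ)).mul_const _
    rw [one_mul] at ha hb
    exact ha.prodMk hb
  have hD1 : HasFDerivAt (fun z : ℝ × ℝ => z.2 * p z.1 z.2 - z.1 * q z.1 z.2) L
      ((1 : ℝ) * x t, (1 : ℝ) * y t) := by
    rw [one_mul, one_mul]
    exact hD
  have h2 : HasDerivAt (fun r : ℝ => (r * y t) * p (r * x t) (r * y t) -
      (r * x t) * q (r * x t) (r * y t)) (L (x t, y t)) 1 :=
    HasFDerivAt.comp_hasDerivAt (1 : ℝ) (f := fun r : ℝ => (r * x t, r * y t)) hD1 hr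
  have h3 := h2.unique (dp_radial H (x t) (y t))
  have h4 : ((-(p (x t) (y t)), -(q (x t) (y t))) : ℝ × ℝ) =
      (-(p (x t) (y t) / x t)) • ((x t, y t) : ℝ × ℝ) := by
    ext
    · simp only [Prod.smul_mk, smul_eq_mul]
      field_simp
    · simp only [Prod.smul_mk, smul_eq_mul]
      field_simp
      linarith
  rw [h4, map_smul, h3, smul_eq_mul] at h1
  have h5 : x t * q (x t) (y t) = y t * p (x t) (y t) := by linarith
  rw [h5] at h1
  have h6 : -(p (x t) (y t) / x t) * ((2 * k + 2) * (y t * p (x t) (y t)) -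
      (4 * k + 2) * (y t * p (x t) (y t))) =
      2 * k * (p (x t) (y t) / x t) * (y t * p (x t) (y t)) := by ring
  rw [h6] at h1
  exact h1

theorem Arc.dpos (H : Hyp k p q) (A : Arc p q b a τ x y) {t : ℝ} (h0 : 0 ≤ t) (h1 : t ≤ τ) :
    0 < y t * p (x t) (y t) - x t * q (x t) (y t) := by
  have hcx : Continuous x := continuous_iff_continuousAt.2 fun s => (A.dx s).continuousAt
  have hcy : Continuous y := continuous_iff_continuousAt.2 fun s => (A.dy s).continuousAt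
  have hcD : Continuous (fun s => y s * p (x s) (y s) - x s * q (x s) (y s)) :=
    (dp_contDiff H).continuous.comp (hcx.prodMk hcy)
  by_contra hn
  have hcomp : IsCompact (Icc 0 τ ∩ {s | y s * p (x s) (y s) - x s * q (x s) (y s) ≤ 0}) :=
    isCompact_Icc.inter_right (isClosed_le hcD continuous_const)
  obtain ⟨t₁, ⟨⟨h10, h1τ⟩, h1D⟩, hmin⟩ := hcomp.exists_isLeast ⟨t, ⟨h0, h1⟩, not_lt.1 hn⟩
  have hbefore : ∀ s, 0 ≤ s → s < t₁ → 0 < y s * p (x s) (y s) - x s * q (x s) (y s) := by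
    intro s hs hst
    by_contra hh
    exact absurd (hmin ⟨⟨hs, hst.le.trans h1τ⟩, not_lt.1 hh⟩) (not_le.2 hst)
  have ht0 : t₁ ≠ 0 := by
    intro h
    rw [h] at h1D
    have h2 : y 0 * p (x 0) (y 0) - x 0 * q (x 0) (y 0) ≤ 0 := h1D
    rw [A.x0, A.y0, H.q_axis, zero_mul] at h2
    have h3 : 0 < b ^ (4 * k + 1) := pow_pos A.hb _
    have h4 : 0 < b * (b ^ (4 * k + 1) * -q 1 0) :=
      mul_pos A.hb (mul_pos h3 (by linarith [H.q0]))
    nlinarith
  have hpos1 : 0 < t₁ := lt_of_le_of_ne h10 (Ne.symm ht0)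
  have htτ : t₁ ≠ τ := by
    intro h
    rw [h] at h1D
    have h2 : y τ * p (x τ) (y τ) - x τ * q (x τ) (y τ) ≤ 0 := h1D
    rw [A.x1, A.y1, zero_mul] at h2
    have h3 : 0 < a * p 0 a := mul_pos A.ha (H.pos 0 a A.ha)
    linarith
  have h1lt : t₁ < τ := lt_of_le_of_ne h1τ htτ
  have hx1 : 0 < x t₁ := A.xpos t₁ h10 h1lt
  have hy1 : 0 < y t₁ := A.ypos t₁ hpos1 h1τ
  have hp1 : 0 < p (x t₁) (y t₁) := H.pos _ _ hy1
  have hleft : ∀ᶠ s in 𝓝[<] t₁, 0 < y s * p (x s) (y s) - x s * q (x s) (y s) := by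
    have h2 : ∀ᶠ s in 𝓝[<] t₁, s ∈ Ioo 0 t₁ := Ioo_mem_nhdsLT hpos1
    filter_upwards [h2] with s hs
    exact hbefore s hs.1.le hs.2
  have hge : 0 ≤ y t₁ * p (x t₁) (y t₁) - x t₁ * q (x t₁) (y t₁) := by
    have h2 : Tendsto (fun s => y s * p (x s) (y s) - x s * q (x s) (y s)) (𝓝[<] t₁)
        (𝓝 (y t₁ * p (x t₁) (y t₁) - x t₁ * q (x t₁) (y t₁))) :=
      (hcD.tendsto t₁).mono_left nhdsWithin_le_nhds
    exact ge_of_tendsto h2 (hleft.mono fun s hs => hs.le)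
  have heq : y t₁ * p (x t₁) (y t₁) - x t₁ * q (x t₁) (y t₁) = 0 := le_antisymm h1D hge
  have hd := dp_deriv H A hx1 heq
  have hk : (0 : ℝ) < 2 * k := by
    have : (1 : ℝ) ≤ k := by exact_mod_cast H.hk
    linarith
  have hdpos : 0 < 2 * k * (p (x t₁) (y t₁) / x t₁) * (y t₁ * p (x t₁) (y t₁)) :=
    mul_pos (mul_pos hk (div_pos hp1 hx1)) (mul_pos hy1 hp1)
  have hsl := (hasDerivAt_iff_tendsto_slope.1 hd).mono_left
    (nhdsWithin_mono t₁ (fun s (hs : s ∈ Iio t₁) => ne_of_lt hs))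
  have hev := (hsl.eventually (lt_mem_nhds hdpos)).and (hleft.and self_mem_nhdsWithin)
  obtain ⟨s, hs1, hs2, hs3⟩ := hev.exists
  rw [slope_def_field, heq, sub_zero] at hs1
  have hs4 : s - t₁ < 0 := sub_neg.2 hs3
  have h5 := div_neg_of_pos_of_neg hs2 hs4
  linarith

end Pool.Agent.CritPer.H
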