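import Mathlib

set_option autoImplicit false

/-!
HD-FS1.  The Volterra operator on `C([0,1])` and the bijectivity of `h - V (A h)` for a `2 x 2`
matrix `A` of continuous functions: the `n`-th power of the Volterra operator has norm at most
`C ^ n / n!`.
-/

open Set Filter Topology

namespace Pool.Agent.CritPer.H

/-- the Banach space `C([0,1])` -/
abbrev E := C(Icc (0 : ℝ) 1, ℝ)

private theorem fs1_cont_ext (f : E) : Continuous (IccExtend (zero_le_one' ℝ) f) :=
  f.continuous.Icc_extend'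

private theorem fs1_cont_prim {g : ℝ → ℝ} (hg : Continuous g) :
    Continuous fun t : Icc (0 : ℝ) 1 => ∫ s in (0 : ℝ)..(t : ℝ), g s :=
  (intervalIntegral.continuous_primitive (fun a b => hg.intervalIntegrable a b) 0).comp
    continuous_subtype_val

theorem exists_V : ∃ V : E →L[ℝ] E, ∀ (f : E) (t : Icc (0 : ℝ) 1),
    V f t = ∫ s in (0 : ℝ)..(t : ℝ), IccExtend zero_le_one f s := by
  let L : E →ₗ[ℝ] E :=
    { toFun := fun f => ⟨fun t => ∫ s in (0 : ℝ)..(t : ℝ), IccExtend zero_le_one f s,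
        fs1_cont_prim (fs1_cont_ext f)⟩
      map_add' := by
        intro f g
        ext t
        have h : (IccExtend (zero_le_one' ℝ) ((f + g : E)) : ℝ → ℝ)
            = fun s => IccExtend (zero_le_one' ℝ) f s + IccExtend (zero_le_one' ℝ) g s := by
          funext s; simp [IccExtend]
        show (∫ s in (0 : ℝ)..(t : ℝ), IccExtend (zero_le_one' ℝ) ((f + g : E)) s) = _
        rw [h, intervalIntegral.integral_add ((fs1_cont_ext f).intervalIntegrable _ _)
          ((fs1_cont_ext g).intervalIntegrable _ _)]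
        rfl
      map_smul' := by
        intro c f
        ext t
        have h : (IccExtend (zero_le_one' ℝ) ((c • f : E)) : ℝ → ℝ)
            = fun s => c * IccExtend (zero_le_one' ℝ) f s := by
          funext s; simp [IccExtend]
        show (∫ s in (0 : ℝ)..(t : ℝ), IccExtend (zero_le_one' ℝ) ((c • f : E)) s) = _
        rw [h, intervalIntegral.integral_const_mul]
        rfl }
  refine ⟨L.mkContinuous 1 ?_, fun f t => rfl⟩
  intro f
  rw [one_mul, ContinuousMap.norm_le _ (norm_nonneg f)]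
  intro t
  have h := intervalIntegral.norm_integral_le_of_norm_le_const (a := (0 : ℝ)) (b := (t : ℝ))
    (f := fun s => IccExtend (zero_le_one' ℝ) f s) (C := ‖f‖)
    (fun s _ => by simpa [IccExtend] using f.norm_coe_le_norm (projIcc 0 1 zero_le_one s))
  have h2 : |(t : ℝ) - 0| ≤ 1 := by
    rw [abs_le]; constructor <;> linarith [t.2.1, t.2.2]
  calc ‖L f t‖ ≤ ‖f‖ * |(t : ℝ) - 0| := h
    _ ≤ ‖f‖ * 1 := mul_le_mul_of_nonneg_left h2 (norm_nonneg f)
    _ = ‖f‖ := mul_one _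

private theorem fs1_bound {V : E →L[ℝ] E} (hV : ∀ (f : E) (t : Icc (0 : ℝ) 1),
    V f t = ∫ s in (0 : ℝ)..(t : ℝ), IccExtend zero_le_one f s) (f : E) (K : ℝ) (n : ℕ)
    (hf : ∀ s : Icc (0 : ℝ) 1, |f s| ≤ K * (s : ℝ) ^ n) (t : Icc (0 : ℝ) 1) :
    |V f t| ≤ K * ((t : ℝ) ^ (n + 1) / ((n : ℝ) + 1)) := by
  rw [hV]
  have h1 : ‖∫ s in (0 : ℝ)..(t : ℝ), IccExtend (zero_le_one' ℝ) f s‖
      ≤ ∫ s in (0 : ℝ)..(t : ℝ), K * s ^ n := by
    refine intervalIntegral.norm_integral_le_of_norm_le t.2.1 (Filter.Eventually.of_forall ?_) ?_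
    · intro s hs
      have hs1 : s ∈ Icc (0 : ℝ) 1 := ⟨hs.1.le, hs.2.trans t.2.2⟩
      rw [IccExtend_of_mem _ _ hs1, Real.norm_eq_abs]
      exact hf ⟨s, hs1⟩
    · exact (continuous_const.mul (continuous_id.pow n)).intervalIntegrable _ _
  rw [Real.norm_eq_abs] at h1
  refine h1.trans (le_of_eq ?_)
  rw [intervalIntegral.integral_const_mul, integral_pow]
  simp

theorem volterra2 {V : E →L[ℝ] E} (hV : ∀ (f : E) (t : Icc (0 : ℝ) 1),
    V f t = ∫ s in (0 : ℝ)..(t : ℝ), IccExtend zero_le_one f s) (a b c d : E)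
    (L : (E × E) →L[ℝ] (E × E))
    (hL : ∀ h k, L (h, k) = (h - V (a * h + b * k), k - V (c * h + d * k))) :
    L.IsInvertible := by
  obtain ⟨T, hT⟩ : ∃ T : (E × E) →L[ℝ] (E × E), T = 1 - L := ⟨_, rfl⟩
  have hTa : ∀ x : E × E, T x = (V (a * x.1 + b * x.2), V (c * x.1 + d * x.2)) := by
    intro x
    rw [hT]
    show x - L (x.1, x.2) = _
    rw [hL]
    refine Prod.ext ?_ ?_
    · show x.1 - (x.1 - V (a * x.1 + b * x.2)) = _
      abel
    · show x.2 - (x.2 - V (c * x.1 + d * x.2)) = _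
      abel
  set C : ℝ := ‖a‖ + ‖b‖ + ‖c‖ + ‖d‖ with hC
  have hC0 : 0 ≤ C := by positivity
  -- one step
  have step : ∀ (p q : E), ‖p‖ + ‖q‖ ≤ C → ∀ (x : E × E) (K : ℝ) (n : ℕ), 0 ≤ K →
      (∀ s : Icc (0 : ℝ) 1, |x.1 s| ≤ K * (s : ℝ) ^ n) →
      (∀ s : Icc (0 : ℝ) 1, |x.2 s| ≤ K * (s : ℝ) ^ n) → ∀ s : Icc (0 : ℝ) 1,
      |(p * x.1 + q * x.2) s| ≤ (C * K) * (s : ℝ) ^ n := by
    intro p q hpq x K n hK h1 h2 s
    have hs : 0 ≤ K * (s : ℝ) ^ n := mul_nonneg hK (pow_nonneg s.2.1 n)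
    have e1 : |p s| ≤ ‖p‖ := p.norm_coe_le_norm s
    have e2 : |q s| ≤ ‖q‖ := q.norm_coe_le_norm s
    calc |(p * x.1 + q * x.2) s| = |p s * x.1 s + q s * x.2 s| := rfl
      _ ≤ |p s * x.1 s| + |q s * x.2 s| := abs_add_le _ _
      _ = |p s| * |x.1 s| + |q s| * |x.2 s| := by rw [abs_mul, abs_mul]
      _ ≤ ‖p‖ * (K * (s : ℝ) ^ n) + ‖q‖ * (K * (s : ℝ) ^ n) :=
        add_le_add (mul_le_mul e1 (h1 s) (abs_nonneg _) (norm_nonneg _))
          (mul_le_mul e2 (h2 s) (abs_nonneg _) (norm_nonneg _))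
      _ = (‖p‖ + ‖q‖) * (K * (s : ℝ) ^ n) := by ring
      _ ≤ C * (K * (s : ℝ) ^ n) := mul_le_mul_of_nonneg_right hpq hs
      _ = (C * K) * (s : ℝ) ^ n := by ring
  have hab : ‖a‖ + ‖b‖ ≤ C := by
    have := norm_nonneg c
    have := norm_nonneg d
    linarith
  have hcd : ‖c‖ + ‖d‖ ≤ C := by
    have := norm_nonneg a
    have := norm_nonneg b
    linarith
  have key : ∀ (n : ℕ) (x : E × E),
      (∀ s : Icc (0 : ℝ) 1, |((T ^ n) x).1 s| ≤ (C ^ n / (n.factorial : ℝ) * ‖x‖) * (s : ℝ) ^ n) ∧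
      (∀ s : Icc (0 : ℝ) 1, |((T ^ n) x).2 s| ≤ (C ^ n / (n.factorial : ℝ) * ‖x‖) * (s : ℝ) ^ n) := by
    intro n
    induction n with
    | zero =>
      intro x
      have h1 : ‖x.1‖ ≤ ‖x‖ := norm_fst_le x
      have h2 : ‖x.2‖ ≤ ‖x‖ := norm_snd_le x
      constructor
      · intro s
        simp only [pow_zero, Nat.factorial_zero, Nat.cast_one, div_one, one_mul, mul_one]
        exact (x.1.norm_coe_le_norm s).trans h1
      · intro s
        simp only [pow_zero, Nat.factorial_zero, Nat.cast_one, div_one, one_mul, mul_one]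
        exact (x.2.norm_coe_le_norm s).trans h2
    | succ n ih =>
      intro x
      obtain ⟨i1, i2⟩ := ih x
      have hK : 0 ≤ C ^ n / (n.factorial : ℝ) * ‖x‖ := by positivity
      have e0 : (T ^ (n + 1)) x = T ((T ^ n) x) := by rw [pow_succ']; rfl
      have e1 : ∀ s : Icc (0 : ℝ) 1,
          (C * (C ^ n / (n.factorial : ℝ) * ‖x‖)) * ((s : ℝ) ^ (n + 1) / ((n : ℝ) + 1)) =
          (C ^ (n + 1) / ((n + 1).factorial : ℝ) * ‖x‖) * (s : ℝ) ^ (n + 1) := by
        intro s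
        rw [Nat.factorial_succ]
        push_cast
        have h1 : (n.factorial : ℝ) ≠ 0 := by positivity
        have h2 : (n : ℝ) + 1 ≠ 0 := by positivity
        field_simp
        ring
      constructor
      · intro s
        rw [e0, hTa, ← e1]
        exact fs1_bound hV _ _ n (step a b hab _ _ n hK i1 i2) s
      · intro s
        rw [e0, hTa, ← e1]
        exact fs1_bound hV _ _ n (step c d hcd _ _ n hK i1 i2) s
  have hnorm : ∀ n, ‖T ^ n‖ ≤ C ^ n / (n.factorial : ℝ) := by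
    intro n
    have h0 : 0 ≤ C ^ n / (n.factorial : ℝ) := by positivity
    refine ContinuousLinearMap.opNorm_le_bound _ h0 fun x => ?_
    obtain ⟨i1, i2⟩ := key n x
    have hK : 0 ≤ C ^ n / (n.factorial : ℝ) * ‖x‖ := by positivity
    have h1 : ∀ s : Icc (0 : ℝ) 1, (C ^ n / (n.factorial : ℝ) * ‖x‖) * (s : ℝ) ^ n ≤
        C ^ n / (n.factorial : ℝ) * ‖x‖ := fun s =>
      mul_le_of_le_one_right hK (pow_le_one₀ s.2.1 s.2.2)
    rw [Prod.norm_def]
    refine max_le ?_ ?_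
    · rw [ContinuousMap.norm_le _ hK]
      exact fun s => (i1 s).trans (h1 s)
    · rw [ContinuousMap.norm_le _ hK]
      exact fun s => (i2 s).trans (h1 s)
  obtain ⟨n, hn⟩ : ∃ n : ℕ, C ^ n / (n.factorial : ℝ) < 1 :=
    ((FloorSemiring.tendsto_pow_div_factorial_atTop C).eventually_lt_const zero_lt_one).exists
  have hu : IsUnit (1 - T ^ n) :=
    @isUnit_one_sub_of_norm_lt_one ((E × E) →L[ℝ] (E × E)) _ _ (T ^ n) ((hnorm n).trans_lt hn)
  have hu2 : IsUnit (1 - T) := by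
    rw [← mul_neg_geom_sum] at hu
    have hcomm : Commute (1 - T) (∑ i ∈ Finset.range n, T ^ i) := by
      rw [Commute, SemiconjBy, mul_neg_geom_sum, geom_sum_mul_neg]
    exact (hcomm.isUnit_mul_iff.1 hu).1
  have hLT : L = 1 - T := by rw [hT]; abel
  rw [hLT]
  obtain ⟨u, hu3⟩ := hu2
  exact ⟨ContinuousLinearEquiv.unitsEquiv ℝ (E × E) u, by
    rw [← hu3]
    rfl⟩

end Pool.Agent.CritPer.H
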