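import Pool.Agent.CritPer.H.FS1

set_option autoImplicit false

/-!
HD-FS2.  Polynomials on `C([0,1])`: values, smoothness, derivative.
-/

open Set Filter Topology

namespace Pool.Agent.CritPer.H

/-- the value of a polynomial at a pair of continuous functions -/
noncomputable def ae (P : MvPolynomial (Fin 2) ℝ) (w : E × E) : E :=
  MvPolynomial.aeval ![w.1, w.2] P

private theorem FS2_C (c : ℝ) (w : E × E) : ae (MvPolynomial.C c) w = algebraMap ℝ E c := by
  unfold ae
  rw [MvPolynomial.aeval_C]

private theorem FS2_add (P Q : MvPolynomial (Fin 2) ℝ) (w : E × E) :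
    ae (P + Q) w = ae P w + ae Q w := by
  unfold ae
  rw [map_add]

private theorem FS2_mul_X (P : MvPolynomial (Fin 2) ℝ) (i : Fin 2) (w : E × E) :
    ae (P * MvPolynomial.X i) w = ae P w * (![w.1, w.2] : Fin 2 → E) i := by
  unfold ae
  rw [map_mul, MvPolynomial.aeval_X]

theorem ae_apply (P : MvPolynomial (Fin 2) ℝ) (w : E × E) (t : Icc (0 : ℝ) 1) :
    ae P w t = MvPolynomial.eval ![w.1 t, w.2 t] P := by
  induction P using MvPolynomial.induction_on with
  | C c =>
    rw [FS2_C, MvPolynomial.eval_C]
    simp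
  | add P Q hP hQ => rw [FS2_add, map_add, ContinuousMap.add_apply, hP, hQ]
  | mul_X P i hP =>
    rw [FS2_mul_X, map_mul, ContinuousMap.mul_apply, hP, MvPolynomial.eval_X]
    fin_cases i <;> rfl

theorem contDiff_ae (P : MvPolynomial (Fin 2) ℝ) {n : WithTop ℕ∞} : ContDiff ℝ n (ae P) := by
  induction P using MvPolynomial.induction_on with
  | C c =>
    rw [show ae (MvPolynomial.C c) = fun _ => algebraMap ℝ E c from funext fun w => FS2_C c w]
    exact contDiff_const
  | add P Q hP hQ =>
    rw [show ae (P + Q) = fun w => ae P w + ae Q w from funext fun w => FS2_add P Q w]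
    exact hP.add hQ
  | mul_X P i hP =>
    rw [show ae (P * MvPolynomial.X i) = fun w => ae P w * (![w.1, w.2] : Fin 2 → E) i from
      funext fun w => FS2_mul_X P i w]
    refine hP.mul ?_
    fin_cases i
    · exact contDiff_fst
    · exact contDiff_snd

theorem hasFDerivAt_ae (P : MvPolynomial (Fin 2) ℝ) (w : E × E) :
    ∃ (a b : E) (L : E × E →L[ℝ] E), HasFDerivAt (ae P) L w ∧ ∀ h k, L (h, k) = a * h + b * k := by
  induction P using MvPolynomial.induction_on with
  | C c =>
    refine ⟨0, 0, 0, ?_, fun h k => ?_⟩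
    · rw [show ae (MvPolynomial.C c) = fun _ => algebraMap ℝ E c from funext fun w => FS2_C c w]
      exact hasFDerivAt_const _ _
    · rw [_root_.zero_apply, zero_mul, zero_mul, add_zero]
  | add P Q hP hQ =>
    obtain ⟨a, b, L, h1, h2⟩ := hP
    obtain ⟨a', b', L', h3, h4⟩ := hQ
    refine ⟨a + a', b + b', L + L', ?_, fun h k => ?_⟩
    · rw [show ae (P + Q) = fun w => ae P w + ae Q w from funext fun w => FS2_add P Q w]
      exact h1.add h3
    · rw [_root_.add_apply, h2, h4]
      ring
  | mul_X P i hP =>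
    obtain ⟨a, b, L, h1, h2⟩ := hP
    rw [show ae (P * MvPolynomial.X i) = fun w => ae P w * (![w.1, w.2] : Fin 2 → E) i from
      funext fun w => FS2_mul_X P i w]
    fin_cases i
    · refine ⟨ae P w + w.1 * a, w.1 * b, ae P w • ContinuousLinearMap.fst ℝ E E + w.1 • L,
        h1.mul hasFDerivAt_fst, fun h k => ?_⟩
      have e : (ae P w • ContinuousLinearMap.fst ℝ E E + w.1 • L) (h, k) =
          ae P w * h + w.1 * L (h, k) := rfl
      rw [e, h2]
      ring
    · refine ⟨w.2 * a, ae P w + w.2 * b, ae P w • ContinuousLinearMap.snd ℝ E E + w.2 • L,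
        h1.mul hasFDerivAt_snd, fun h k => ?_⟩
      have e : (ae P w • ContinuousLinearMap.snd ℝ E E + w.2 • L) (h, k) =
          ae P w * k + w.2 * L (h, k) := rfl
      rw [e, h2]
      ring

end Pool.Agent.CritPer.H
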