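import Pool.Agent.CritPer.H.FS2
import Pool.Agent.CritPer.Flow

set_option autoImplicit false

/-!
HD-FS3.  Integral equations and solutions: the rescaled solutions `t ↦ δ (T t)` on `[0, 1]` are the
solutions in `C([0,1]) × C([0,1])` of the integral equation (fundamental theorem of calculus and
uniqueness of solutions).
-/

open Set Filter Topology

namespace Pool.Agent.CritPer.H

private theorem FS3_cd (P : MvPolynomial (Fin 2) ℝ) :
    ContDiff ℝ 1 (fun z : ℝ × ℝ => MvPolynomial.eval ![z.1, z.2] P) := by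
  induction P using MvPolynomial.induction_on with
  | C a =>
    simp only [MvPolynomial.eval_C]
    exact contDiff_const
  | add p q hp hq =>
    simp only [map_add]
    exact hp.add hq
  | mul_X p i hp =>
    simp only [map_mul, MvPolynomial.eval_X]
    refine hp.mul ?_
    fin_cases i
    · exact contDiff_fst
    · exact contDiff_snd

private theorem FS3_vf (P Q : MvPolynomial (Fin 2) ℝ) : ContDiff ℝ 1 (vf P Q) :=
  (FS3_cd P).prodMk (FS3_cd Q)

private theorem FS3_ext (f : E) (g : ℝ → ℝ) (hf : ∀ s : Icc (0 : ℝ) 1, f s = g s)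
    (t : Icc (0 : ℝ) 1) :
    (∫ s in (0 : ℝ)..(t : ℝ), IccExtend zero_le_one f s) = ∫ s in (0 : ℝ)..(t : ℝ), g s := by
  refine intervalIntegral.integral_congr fun s hs => ?_
  rw [uIcc_of_le t.2.1] at hs
  have hs1 : s ∈ Icc (0 : ℝ) 1 := ⟨hs.1, hs.2.trans t.2.2⟩
  change IccExtend zero_le_one f s = g s
  rw [IccExtend_of_mem zero_le_one f hs1]
  exact hf ⟨s, hs1⟩

private theorem FS3_int {V : E →L[ℝ] E} (hV : ∀ (f : E) (t : Icc (0 : ℝ) 1),
    V f t = ∫ s in (0 : ℝ)..(t : ℝ), IccExtend zero_le_one f s) {T : ℝ} {g g' : ℝ → ℝ}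
    (hg : ∀ s, HasDerivAt g (T * g' s) s) (hc : Continuous g') (f : E)
    (hf : ∀ s : Icc (0 : ℝ) 1, f s = g' s) (t : Icc (0 : ℝ) 1) :
    g t = g 0 + T * V f t := by
  have h1 : (∫ s in (0 : ℝ)..(t : ℝ), T * g' s) = g t - g 0 :=
    intervalIntegral.integral_eq_sub_of_hasDerivAt (fun s _ => hg s)
      ((continuous_const.mul hc).intervalIntegrable _ _)
  rw [intervalIntegral.integral_const_mul] at h1
  rw [hV, FS3_ext f g' hf t, h1]
  ring

private theorem FS3_res {P Q : MvPolynomial (Fin 2) ℝ} {δ : ℝ → ℝ × ℝ} (hδ : IsSol (vf P Q) δ)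
    (T s : ℝ) : HasDerivAt (fun s => δ (T * s)) (T • vf P Q (δ (T * s))) s := by
  have h1 : HasDerivAt (fun s : ℝ => T * s) T s := by
    have h := (hasDerivAt_id s).const_mul T
    rw [mul_one] at h
    exact h
  exact (hδ (T * s)).scomp s h1

theorem eqn_of_sol {V : E →L[ℝ] E} (hV : ∀ (f : E) (t : Icc (0 : ℝ) 1),
    V f t = ∫ s in (0 : ℝ)..(t : ℝ), IccExtend zero_le_one f s) {P Q : MvPolynomial (Fin 2) ℝ}
    {δ : ℝ → ℝ × ℝ} (hδ : IsSol (vf P Q) δ) (T : ℝ) :
    ∃ u v : E, (∀ t : Icc (0 : ℝ) 1, (u t, v t) = δ (T * t)) ∧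
      u = (δ 0).1 • (1 : E) + T • V (ae P (u, v)) ∧
      v = (δ 0).2 • (1 : E) + T • V (ae Q (u, v)) := by
  have cδ : Continuous δ := continuous_iff_continuousAt.2 fun t => (hδ t).continuousAt
  have cT : Continuous fun s : ℝ => δ (T * s) := cδ.comp (continuous_const.mul continuous_id)
  have hd := FS3_res hδ T
  have cX : Continuous fun s : ℝ => vf P Q (δ (T * s)) := (FS3_vf P Q).continuous.comp cT
  obtain ⟨u, hu⟩ : ∃ u : E, ∀ t : Icc (0 : ℝ) 1, u t = (δ (T * t)).1 :=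
    ⟨⟨fun t => (δ (T * t)).1, (continuous_fst.comp cT).comp continuous_subtype_val⟩, fun _ => rfl⟩
  obtain ⟨v, hv⟩ : ∃ v : E, ∀ t : Icc (0 : ℝ) 1, v t = (δ (T * t)).2 :=
    ⟨⟨fun t => (δ (T * t)).2, (continuous_snd.comp cT).comp continuous_subtype_val⟩, fun _ => rfl⟩
  refine ⟨u, v, fun t => Prod.ext (hu t) (hv t), ?_, ?_⟩
  · ext t
    have h1 := FS3_int hV (T := T) (g := fun s => (δ (T * s)).1)
      (g' := fun s => (vf P Q (δ (T * s))).1) (fun s => (hd s).fst) (continuous_fst.comp cX)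
      (ae P (u, v)) (fun s => by
        rw [ae_apply]
        change MvPolynomial.eval ![u s, v s] P = MvPolynomial.eval ![_, _] P
        rw [hu, hv]) t
    change u t = (δ 0).1 * 1 + T * V (ae P (u, v)) t
    rw [hu t, mul_one]
    rw [mul_zero] at h1
    exact h1
  · ext t
    have h1 := FS3_int hV (T := T) (g := fun s => (δ (T * s)).2)
      (g' := fun s => (vf P Q (δ (T * s))).2) (fun s => (hd s).snd) (continuous_snd.comp cX)
      (ae Q (u, v)) (fun s => by
        rw [ae_apply]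
        change MvPolynomial.eval ![u s, v s] Q = MvPolynomial.eval ![_, _] Q
        rw [hu, hv]) t
    change v t = (δ 0).2 * 1 + T * V (ae Q (u, v)) t
    rw [hv t, mul_one]
    rw [mul_zero] at h1
    exact h1

private theorem FS3_lift (f : E) (c T : ℝ) : ∃ z : ℝ → ℝ, z 0 = c ∧
    (∀ t, HasDerivAt z (T * IccExtend zero_le_one f t) t) ∧
    ∀ t : ℝ, z t = c + T * ∫ s in (0 : ℝ)..t, IccExtend zero_le_one f s := by
  have hc : Continuous (IccExtend zero_le_one f : ℝ → ℝ) := f.continuous.Icc_extend'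
  refine ⟨fun t => c + T * ∫ s in (0 : ℝ)..t, IccExtend zero_le_one f s, ?_, fun t => ?_,
    fun t => rfl⟩
  · change c + T * (∫ s in (0 : ℝ)..0, IccExtend zero_le_one f s) = c
    rw [intervalIntegral.integral_same, mul_zero, add_zero]
  · exact ((intervalIntegral.integral_hasDerivAt_right (hc.intervalIntegrable _ _)
      (hc.stronglyMeasurableAtFilter _ _) hc.continuousAt).const_mul T).const_add c

theorem sol_of_eqn {V : E →L[ℝ] E} (hV : ∀ (f : E) (t : Icc (0 : ℝ) 1),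
    V f t = ∫ s in (0 : ℝ)..(t : ℝ), IccExtend zero_le_one f s) {P Q : MvPolynomial (Fin 2) ℝ}
    {δ : ℝ → ℝ × ℝ} (hδ : IsSol (vf P Q) δ) {T : ℝ} {u v : E}
    (hu : u = (δ 0).1 • (1 : E) + T • V (ae P (u, v)))
    (hv : v = (δ 0).2 • (1 : E) + T • V (ae Q (u, v))) :
    (u ⟨1, zero_le_one, le_rfl⟩, v ⟨1, zero_le_one, le_rfl⟩) = δ T := by
  obtain ⟨z1, hz10, hz1d, hz1⟩ := FS3_lift (ae P (u, v)) (δ 0).1 T
  obtain ⟨z2, hz20, hz2d, hz2⟩ := FS3_lift (ae Q (u, v)) (δ 0).2 T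
  have hu' : ∀ t : Icc (0 : ℝ) 1, z1 t = u t := by
    intro t
    have h1 := DFunLike.congr_fun hu t
    change u t = (δ 0).1 * 1 + T * V (ae P (u, v)) t at h1
    rw [hz1, h1, mul_one, hV]
  have hv' : ∀ t : Icc (0 : ℝ) 1, z2 t = v t := by
    intro t
    have h1 := DFunLike.congr_fun hv t
    change v t = (δ 0).2 * 1 + T * V (ae Q (u, v)) t at h1
    rw [hz2, h1, mul_one, hV]
  obtain ⟨z, hz⟩ : ∃ z : ℝ → ℝ × ℝ, ∀ t, z t = (z1 t, z2 t) := ⟨fun t => (z1 t, z2 t), fun _ => rfl⟩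
  have hzd : ∀ t ∈ Icc (0 : ℝ) 1, HasDerivAt z (T • vf P Q (z t)) t := by
    intro t ht
    have h1 : HasDerivAt (fun t => (z1 t, z2 t)) (T * IccExtend zero_le_one (ae P (u, v)) t,
        T * IccExtend zero_le_one (ae Q (u, v)) t) t := (hz1d t).prodMk (hz2d t)
    have h2 : (T * IccExtend zero_le_one (ae P (u, v)) t,
        T * IccExtend zero_le_one (ae Q (u, v)) t) = T • vf P Q (z t) := by
      rw [IccExtend_of_mem zero_le_one _ ht, IccExtend_of_mem zero_le_one _ ht, ae_apply, ae_apply,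
        hz, ← hu' ⟨t, ht⟩, ← hv' ⟨t, ht⟩]
      rfl
    rw [← h2]
    have h3 : z = fun t => (z1 t, z2 t) := funext hz
    rw [h3]
    exact h1
  have cz : ContinuousOn z (Icc 0 1) := fun t ht => (hzd t ht).continuousAt.continuousWithinAt
  have hd := FS3_res hδ T
  have cd : ContinuousOn (fun s => δ (T * s)) (Icc 0 1) := fun t _ =>
    (hd t).continuousAt.continuousWithinAt
  obtain ⟨M, hM⟩ : ∃ M, (z '' Icc 0 1) ∪ ((fun s => δ (T * s)) '' Icc 0 1) ⊆
      Metric.closedBall 0 M := by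
    have h : Bornology.IsBounded ((z '' Icc 0 1) ∪ ((fun s => δ (T * s)) '' Icc 0 1)) :=
      ((isCompact_Icc.image_of_continuousOn cz).union
        (isCompact_Icc.image_of_continuousOn cd)).isBounded
    exact h.subset_closedBall 0
  obtain ⟨K, hK⟩ := (((FS3_vf P Q).const_smul T).contDiffOn
    (s := Metric.closedBall 0 M)).exists_lipschitzOnWith one_ne_zero (convex_closedBall _ _)
      (isCompact_closedBall _ _)
  have key : EqOn z (fun s => δ (T * s)) (Icc 0 1) := by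
    refine ODE_solution_unique_of_mem_Icc_right (v := fun _ => fun w => T • vf P Q w)
      (s := fun _ => Metric.closedBall 0 M) (K := K) (fun _ _ => hK) cz
      (fun t ht => (hzd t (Ico_subset_Icc_self ht)).hasDerivWithinAt)
      (fun t ht => hM (Or.inl (mem_image_of_mem _ (Ico_subset_Icc_self ht)))) cd
      (fun t _ => (hd t).hasDerivWithinAt)
      (fun t ht => hM (Or.inr ⟨t, Ico_subset_Icc_self ht, rfl⟩)) ?_
    rw [hz, hz10, hz20, mul_zero]
  have h1 := key (x := 1) ⟨zero_le_one, le_rfl⟩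
  change z 1 = δ (T * 1) at h1
  rw [mul_one, hz] at h1
  rw [← h1, ← hu' ⟨1, zero_le_one, le_rfl⟩, ← hv' ⟨1, zero_le_one, le_rfl⟩]

end Pool.Agent.CritPer.H
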