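import Pool.Agent.CritPer.H.FS3

set_option autoImplicit false

/-!
HD-FS4.  Smooth dependence of the flow of a polynomial field on the time and the initial point,
by the implicit function theorem in `C([0,1]) × C([0,1])` applied to the integral equation
`(u, v) = (x₀, y₀) + T ∫_0^t (P (u, v), Q (u, v))`.
-/

open Set Filter Topology

namespace Pool.Agent.CritPer.H

/-- The integral equation. -/
private noncomputable def FS4_Phi (P Q : MvPolynomial (Fin 2) ℝ) (V : E →L[ℝ] E)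
    (z : (ℝ × (ℝ × ℝ)) × (E × E)) : E × E :=
  (z.2.1 - z.1.2.1 • (1 : E) - z.1.1 • V (ae P z.2),
   z.2.2 - z.1.2.2 • (1 : E) - z.1.1 • V (ae Q z.2))

private theorem FS4_contDiff (P Q : MvPolynomial (Fin 2) ℝ) (V : E →L[ℝ] E) :
    ContDiff ℝ 1 (FS4_Phi P Q V) := by
  unfold FS4_Phi
  have h1 : ContDiff ℝ 1 (fun z : (ℝ × (ℝ × ℝ)) × (E × E) => z.1.1) :=
    contDiff_fst.comp contDiff_fst
  have h2 : ContDiff ℝ 1 (fun z : (ℝ × (ℝ × ℝ)) × (E × E) => z.1.2.1) :=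
    contDiff_fst.comp (contDiff_snd.comp contDiff_fst)
  have h3 : ContDiff ℝ 1 (fun z : (ℝ × (ℝ × ℝ)) × (E × E) => z.1.2.2) :=
    contDiff_snd.comp (contDiff_snd.comp contDiff_fst)
  have h4 : ContDiff ℝ 1 (fun z : (ℝ × (ℝ × ℝ)) × (E × E) => z.2.1) :=
    contDiff_fst.comp contDiff_snd
  have h5 : ContDiff ℝ 1 (fun z : (ℝ × (ℝ × ℝ)) × (E × E) => z.2.2) :=
    contDiff_snd.comp contDiff_snd
  have hP : ContDiff ℝ 1 (fun z : (ℝ × (ℝ × ℝ)) × (E × E) => V (ae P z.2)) :=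
    V.contDiff.comp ((contDiff_ae P).comp contDiff_snd)
  have hQ : ContDiff ℝ 1 (fun z : (ℝ × (ℝ × ℝ)) × (E × E) => V (ae Q z.2)) :=
    V.contDiff.comp ((contDiff_ae Q).comp contDiff_snd)
  exact ((h4.sub (h2.smul contDiff_const)).sub (h1.smul hP)).prodMk
    ((h5.sub (h3.smul contDiff_const)).sub (h1.smul hQ))

/-- The partial derivative of the equation is invertible. -/
private theorem FS4_inv (P Q : MvPolynomial (Fin 2) ℝ) {V : E →L[ℝ] E}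
    (hV : ∀ (f : E) (t : Icc (0 : ℝ) 1),
      V f t = ∫ s in (0 : ℝ)..(t : ℝ), IccExtend zero_le_one f s)
    (z : (ℝ × (ℝ × ℝ)) × (E × E)) :
    (fderiv ℝ (FS4_Phi P Q V) z ∘L .inr ℝ (ℝ × (ℝ × ℝ)) (E × E)).IsInvertible := by
  obtain ⟨a, b, LP, hP, hLP⟩ := hasFDerivAt_ae P z.2
  obtain ⟨c, d, LQ, hQ, hLQ⟩ := hasFDerivAt_ae Q z.2
  have h1 : HasFDerivAt (fun y => FS4_Phi P Q V (z.1, y))
      (fderiv ℝ (FS4_Phi P Q V) z ∘L .inr ℝ (ℝ × (ℝ × ℝ)) (E × E)) z.2 := by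
    have h2 : HasFDerivAt (FS4_Phi P Q V) (fderiv ℝ (FS4_Phi P Q V) z) (z.1, z.2) :=
      ((FS4_contDiff P Q V).differentiable (by simp)).differentiableAt.hasFDerivAt
    exact h2.comp z.2 (hasFDerivAt_prodMk_right z.1 z.2)
  have h3 : HasFDerivAt (fun y : E × E => FS4_Phi P Q V (z.1, y))
      ((ContinuousLinearMap.fst ℝ E E - z.1.1 • (V ∘L LP)).prod
        (ContinuousLinearMap.snd ℝ E E - z.1.1 • (V ∘L LQ))) z.2 := by
    have hA : HasFDerivAt (fun y : E × E => y.1 - z.1.2.1 • (1 : E) - z.1.1 • V (ae P y))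
        (ContinuousLinearMap.fst ℝ E E - z.1.1 • (V ∘L LP)) z.2 :=
      (hasFDerivAt_fst.sub_const _).sub (((V.hasFDerivAt).comp z.2 hP).const_smul z.1.1)
    have hB : HasFDerivAt (fun y : E × E => y.2 - z.1.2.2 • (1 : E) - z.1.1 • V (ae Q y))
        (ContinuousLinearMap.snd ℝ E E - z.1.1 • (V ∘L LQ)) z.2 :=
      (hasFDerivAt_snd.sub_const _).sub (((V.hasFDerivAt).comp z.2 hQ).const_smul z.1.1)
    exact hA.prodMk hB
  rw [h1.unique h3]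
  refine volterra2 hV (z.1.1 • a) (z.1.1 • b) (z.1.1 • c) (z.1.1 • d) _ fun h k => ?_
  have e : ((ContinuousLinearMap.fst ℝ E E - z.1.1 • (V ∘L LP)).prod
        (ContinuousLinearMap.snd ℝ E E - z.1.1 • (V ∘L LQ))) (h, k) =
      (h - z.1.1 • V (LP (h, k)), k - z.1.1 • V (LQ (h, k))) := rfl
  rw [e, hLP, hLQ, smul_mul_assoc, smul_mul_assoc, smul_mul_assoc, smul_mul_assoc, ← smul_add,
    ← smul_add, map_smul, map_smul]

theorem flow_smooth (P Q : MvPolynomial (Fin 2) ℝ) {γ : ℝ → ℝ × ℝ} (hγ : IsSol (vf P Q) γ)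
    (T₀ : ℝ) :
    ∃ Ψ : ℝ × (ℝ × ℝ) → ℝ × ℝ, ContDiffAt ℝ 1 Ψ (T₀, γ 0) ∧
      ∀ᶠ w in 𝓝 ((T₀, γ 0) : ℝ × (ℝ × ℝ)), ∀ δ, IsSol (vf P Q) δ → δ 0 = w.2 →
        Ψ w = δ w.1 := by
  obtain ⟨V, hV⟩ := exists_V
  obtain ⟨u, v, -, hu, hv⟩ := eqn_of_sol hV hγ T₀
  have h0 : FS4_Phi P Q V ((T₀, γ 0), (u, v)) = 0 := by
    refine Prod.ext ?_ ?_
    · change u - (γ 0).1 • (1 : E) - T₀ • V (ae P (u, v)) = 0
      rw [sub_sub]
      exact sub_eq_zero.2 hu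
    · change v - (γ 0).2 • (1 : E) - T₀ • V (ae Q (u, v)) = 0
      rw [sub_sub]
      exact sub_eq_zero.2 hv
  have cdf : ContDiffAt ℝ 1 (FS4_Phi P Q V) ((T₀, γ 0), (u, v)) :=
    (FS4_contDiff P Q V).contDiffAt
  have hinv := FS4_inv P Q hV ((T₀, γ 0), (u, v))
  have hsm : ContDiffAt ℝ 1 (cdf.implicitFunction (by simp) hinv) (T₀, γ 0) :=
    cdf.contDiffAt_implicitFunction (by simp) hinv
  set ev : E →L[ℝ] ℝ := ContinuousMap.evalCLM ℝ (⟨1, zero_le_one, le_rfl⟩ : Icc (0 : ℝ) 1) with hev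
  set F : ℝ × (ℝ × ℝ) → E × E := cdf.implicitFunction (by simp) hinv with hF
  refine ⟨fun w => (ev (F w).1, ev (F w).2), ?_, ?_⟩
  · exact (ev.contDiff.contDiffAt.comp _ (contDiff_fst.contDiffAt.comp _ hsm)).prodMk
      (ev.contDiff.contDiffAt.comp _ (contDiff_snd.contDiffAt.comp _ hsm))
  · filter_upwards [cdf.eventually_apply_implicitFunction (by simp) hinv] with w hw δ hδ hδ0
    rw [h0] at hw
    have h1 : (F w).1 - w.2.1 • (1 : E) - w.1 • V (ae P (F w)) = 0 := congrArg Prod.fst hw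
    have h2 : (F w).2 - w.2.2 • (1 : E) - w.1 • V (ae Q (F w)) = 0 := congrArg Prod.snd hw
    rw [sub_sub, sub_eq_zero] at h1 h2
    have h3 := sol_of_eqn hV hδ (T := w.1) (u := (F w).1) (v := (F w).2)
      (by rw [hδ0]; exact h1) (by rw [hδ0]; exact h2)
    exact h3

end Pool.Agent.CritPer.H
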