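import Pool.Agent.CritPer.H.Pol

set_option autoImplicit false

/-!
HD-HYP.  The hypotheses `Hyp` follow from the existence of a periodic orbit around the origin.
The positivity of `P` in the upper half plane by homogeneity and monotonicity, the sign of `Q` on the first axis because an orbit
would otherwise be trapped in the quadrant `x > 0`, `y > 0`.
-/

open Set Filter Topology

namespace Pool.Agent.CritPer.H

private theorem hof_poly (P : MvPolynomial (Fin 2) ℝ) (a b : Polynomial ℝ) (t : ℝ) :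
    (MvPolynomial.aeval ![a, b] P).eval t = MvPolynomial.eval ![a.eval t, b.eval t] P := by
  induction P using MvPolynomial.induction_on with
  | C c => simp
  | add f g hf hg => rw [map_add, Polynomial.eval_add, hf, hg, map_add]
  | mul_X f i hf =>
    rw [map_mul, Polynomial.eval_mul, hf, map_mul, MvPolynomial.aeval_X, MvPolynomial.eval_X]
    fin_cases i <;> rfl

private theorem hof_zero (P : MvPolynomial (Fin 2) ℝ) (a b : Polynomial ℝ) {S : Set ℝ} (hS : S.Infinite)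
    (h : ∀ t ∈ S, MvPolynomial.eval ![a.eval t, b.eval t] P = 0) (t : ℝ) :
    MvPolynomial.eval ![a.eval t, b.eval t] P = 0 := by
  have h1 : MvPolynomial.aeval ![a, b] P = 0 := by
    refine Polynomial.eq_zero_of_infinite_isRoot _ (hS.mono fun u hu => ?_)
    show (MvPolynomial.aeval ![a, b] P).eval u = 0
    rw [hof_poly]
    exact h u hu
  rw [← hof_poly, h1, Polynomial.eval_zero]

theorem pos_of {k : ℕ} {P Q : MvPolynomial (Fin 2) ℝ}
    (hP : P.IsHomogeneous (2 * k + 1)) (px : ∀ x : ℝ, MvPolynomial.eval ![x, 0] P = 0)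
    (mono : ∀ x : ℝ, Monotone (fun y : ℝ => MvPolynomial.eval ![x, y] P))
    {γ : ℝ → ℝ × ℝ} (hγ : IsPerSol (vf P Q) γ) (hS : Surrounds (range γ)) (x y : ℝ)
    (hy : 0 < y) : 0 < MvPolynomial.eval ![x, y] P := by
  have e00 : MvPolynomial.eval ![0, 0] P = 0 := px 0
  have h01 : 0 < MvPolynomial.eval ![0, 1] P := by
    have h1 : MvPolynomial.eval ![0, 0] P ≤ MvPolynomial.eval ![0, 1] P := mono 0 zero_le_one
    rw [e00] at h1
    exact lt_of_le_of_ne h1 (p01_ne hP hγ hS).symm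
  rcases eq_or_ne x 0 with rfl | hx
  · have h1 := eval_smul_hom hP y 0 1
    rw [mul_zero, mul_one] at h1
    rw [h1]
    positivity
  · have h0 : 0 ≤ MvPolynomial.eval ![x, y] P := by
      have h1 : MvPolynomial.eval ![x, 0] P ≤ MvPolynomial.eval ![x, y] P := mono x hy.le
      rwa [px x] at h1
    refine lt_of_le_of_ne h0 fun h => ?_
    have h1 : ∀ t ∈ Icc 0 y, MvPolynomial.eval ![x, t] P = 0 := by
      intro t ht
      apply le_antisymm
      · have h2 : MvPolynomial.eval ![x, t] P ≤ MvPolynomial.eval ![x, y] P := mono x ht.2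
        rwa [← h] at h2
      · have h2 : MvPolynomial.eval ![x, 0] P ≤ MvPolynomial.eval ![x, t] P := mono x ht.1
        rwa [px x] at h2
    have h2 : ∀ t : ℝ, MvPolynomial.eval ![x, t] P = 0 := by
      intro t
      have h3 := hof_zero P (Polynomial.C x) Polynomial.X (Icc_infinite hy)
        (fun u hu => by rw [Polynomial.eval_C, Polynomial.eval_X]; exact h1 u hu) t
      rwa [Polynomial.eval_C, Polynomial.eval_X] at h3
    have h3 := hof_zero P (Polynomial.C x * Polynomial.X) (Polynomial.C 1) (Ioi_infinite (0 : ℝ))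
      (fun u hu => by
        have hu0 : u ≠ 0 := (mem_Ioi.1 hu).ne'
        rw [Polynomial.eval_mul, Polynomial.eval_C, Polynomial.eval_X, Polynomial.eval_C]
        have h4 := eval_smul_hom hP u x u⁻¹
        rw [mul_inv_cancel₀ hu0, h2, mul_zero, mul_comm] at h4
        exact h4) 0
    rw [Polynomial.eval_mul, Polynomial.eval_C, Polynomial.eval_X, Polynomial.eval_C, mul_zero] at h3
    exact h01.ne' h3

private theorem hof_fst {γ : ℝ → ℝ × ℝ} {v : ℝ × ℝ} {t : ℝ} (h : HasDerivAt γ v t) :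
    HasDerivAt (fun u => (γ u).1) v.1 t :=
  (ContinuousLinearMap.fst ℝ ℝ ℝ).hasFDerivAt.comp_hasDerivAt t h

private theorem hof_snd {γ : ℝ → ℝ × ℝ} {v : ℝ × ℝ} {t : ℝ} (h : HasDerivAt γ v t) :
    HasDerivAt (fun u => (γ u).2) v.2 t :=
  (ContinuousLinearMap.snd ℝ ℝ ℝ).hasFDerivAt.comp_hasDerivAt t h

private theorem hof_first {y : ℝ → ℝ} (cy : Continuous y) (h0 : 0 < y 0) {t : ℝ} (ht : 0 ≤ t) (hy : y t ≤ 0) :
    ∃ s, 0 < s ∧ y s = 0 ∧ ∀ u, 0 ≤ u → u < s → 0 < y u := by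
  have hcl : IsClosed {u : ℝ | 0 ≤ u ∧ y u ≤ 0} := isClosed_Ici.inter (isClosed_le cy continuous_const)
  have hbd : BddBelow {u : ℝ | 0 ≤ u ∧ y u ≤ 0} := ⟨0, fun u hu => hu.1⟩
  obtain ⟨h1, h2⟩ := hcl.csInf_mem ⟨t, ht, hy⟩ hbd
  obtain ⟨s, hs⟩ : ∃ s, s = sInf {u : ℝ | 0 ≤ u ∧ y u ≤ 0} := ⟨_, rfl⟩
  rw [← hs] at h1 h2
  have h3 : ∀ u, 0 ≤ u → u < s → 0 < y u := by
    intro u hu hus
    by_contra hc
    have h4 : s ≤ u := by
      rw [hs]
      exact csInf_le hbd ⟨hu, not_lt.1 hc⟩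
    linarith
  have hs0 : 0 < s := by
    refine lt_of_le_of_ne h1 fun h => ?_
    rw [← h] at h2
    linarith
  refine ⟨s, hs0, le_antisymm h2 ?_, h3⟩
  by_contra hc
  have h4 : y s < 0 := not_le.1 hc
  obtain ⟨u, hu, hyu⟩ := intermediate_value_Icc' h1 cy.continuousOn ⟨h2, h0.le⟩
  have h5 : u < s := lt_of_le_of_ne hu.2 fun h => by
    rw [h] at hyu
    linarith
  have h6 := h3 u hu.1 h5
  linarith

private theorem hof_der {y : ℝ → ℝ} {d s : ℝ} (hs : 0 < s) (hd : HasDerivAt y d s) (h0 : y s = 0)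
    (h : ∀ u, 0 ≤ u → u < s → 0 < y u) : d ≤ 0 := by
  have h1 : Tendsto (slope y s) (𝓝[<] s) (𝓝 d) :=
    (hasDerivAt_iff_tendsto_slope.1 hd).mono_left (nhdsWithin_mono s fun u hu => ne_of_lt hu)
  refine le_of_tendsto h1 ?_
  have h2 : ∀ᶠ u in 𝓝[<] s, 0 < u := (lt_mem_nhds hs).filter_mono nhdsWithin_le_nhds
  filter_upwards [h2, self_mem_nhdsWithin] with u hu hus
  have hus' : u < s := hus
  rw [slope_def_field, h0, sub_zero]
  have h3 := h u hu.le hus'
  exact div_nonpos_of_nonneg_of_nonpos h3.le (by linarith)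

theorem hyp_of {k : ℕ} (hk : 1 ≤ k) {P Q : MvPolynomial (Fin 2) ℝ}
    (hP : P.IsHomogeneous (2 * k + 1)) (hQ : Q.IsHomogeneous (4 * k + 1))
    (px : ∀ x : ℝ, MvPolynomial.eval ![x, 0] P = 0)
    (mono : ∀ x : ℝ, Monotone (fun y : ℝ => MvPolynomial.eval ![x, y] P))
    {γ : ℝ → ℝ × ℝ} (hγ : IsPerSol (vf P Q) γ) (hS : Surrounds (range γ)) :
    Hyp k (fun x y => MvPolynomial.eval ![x, y] P) (fun x y => MvPolynomial.eval ![x, y] Q) := by
  refine ⟨hk, contDiff_ev P, contDiff_ev Q, fun r x y => eval_smul_hom hP r x y,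
    fun r x y => eval_smul_hom hQ r x y, px, mono, fun x y hy => pos_of hP px mono hγ hS x y hy, ?_⟩
  show MvPolynomial.eval ![1, 0] Q < 0
  by_contra hc
  have hq : 0 < MvPolynomial.eval ![1, 0] Q := lt_of_le_of_ne (not_lt.1 hc) (q10_ne hQ px hγ hS).symm
  obtain ⟨a, ha, t0, ht0⟩ := hits_ray hS (v := ((0, 1) : ℝ × ℝ)) (by simp)
  obtain ⟨b, hb, t1, ht1⟩ := hits_ray hS (v := ((-1, 0) : ℝ × ℝ)) (by simp)
  rw [Prod.smul_mk, smul_zero, smul_eq_mul, mul_one] at ht0
  rw [Prod.smul_mk, smul_zero, smul_eq_mul] at ht1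
  obtain ⟨hsol, ⟨T, hT, hper⟩, hnc⟩ := hγ
  have hd := hsol.shift t0
  have dx : ∀ t, HasDerivAt (fun u => (γ (u + t0)).1) (MvPolynomial.eval ![(γ (t + t0)).1, (γ (t + t0)).2] P) t :=
    fun t => hof_fst (hd t)
  have dy : ∀ t, HasDerivAt (fun u => (γ (u + t0)).2) (MvPolynomial.eval ![(γ (t + t0)).1, (γ (t + t0)).2] Q) t :=
    fun t => hof_snd (hd t)
  obtain ⟨x, hx⟩ : ∃ x : ℝ → ℝ, x = fun u => (γ (u + t0)).1 := ⟨_, rfl⟩
  obtain ⟨y, hy⟩ : ∃ y : ℝ → ℝ, y = fun u => (γ (u + t0)).2 := ⟨_, rfl⟩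
  have hxa : ∀ t, (γ (t + t0)).1 = x t := fun t => by rw [hx]
  have hya : ∀ t, (γ (t + t0)).2 = y t := fun t => by rw [hy]
  simp only [hxa, hya] at dx dy
  have x0 : x 0 = 0 := by rw [← hxa, zero_add, ht0]
  have y0 : 0 < y 0 := by rw [← hya, zero_add, ht0]; exact ha
  have cy : Continuous y := continuous_iff_continuousAt.2 fun t => (dy t).continuousAt
  have cx : Continuous x := continuous_iff_continuousAt.2 fun t => (dx t).continuousAt
  have hyper : ∀ n : ℕ, ∀ t, y (t + n * T) = y t := by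
    intro n
    induction n with
    | zero => intro t; rw [Nat.cast_zero, zero_mul, add_zero]
    | succ n ih =>
      intro t
      rw [← ih t, ← hya, ← hya, ← hper (t + n * T + t0)]
      congr 2
      push_cast
      ring
  have hzero : y (t1 - t0) = 0 := by
    rw [← hya, sub_add_cancel, ht1]
  obtain ⟨n, hn⟩ := exists_nat_ge ((t0 - t1) / T)
  have ht2 : 0 ≤ t1 - t0 + n * T := by
    rw [div_le_iff₀ hT] at hn
    linarith
  have hz2 : y (t1 - t0 + n * T) ≤ 0 := by rw [hyper, hzero]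
  obtain ⟨s, hs, hys, hpos⟩ := hof_first cy y0 ht2 hz2
  have hxs : 0 < x s := by
    have h1 : StrictMonoOn x (Icc 0 s) := by
      refine strictMonoOn_of_deriv_pos (convex_Icc 0 s) cx.continuousOn fun t ht => ?_
      rw [interior_Icc] at ht
      rw [(dx t).deriv]
      exact pos_of hP px mono ⟨hsol, ⟨T, hT, hper⟩, hnc⟩ hS _ _ (hpos t ht.1.le ht.2)
    have h2 := h1 (left_mem_Icc.2 hs.le) (right_mem_Icc.2 hs.le) hs
    rwa [x0] at h2
  have h3 := hof_der hs (dy s) hys hpos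
  rw [hys] at h3
  have h4 := eval_smul_hom hQ (x s) 1 0
  rw [mul_one, mul_zero] at h4
  rw [h4] at h3
  have h5 : 0 < x s ^ (4 * k + 1) * MvPolynomial.eval ![1, 0] Q := by positivity
  linarith

end Pool.Agent.CritPer.H
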