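import Pool.Agent.CritPer.H.DifB
import Pool.Agent.CritPer.H.DifT
import Pool.Agent.CritPer.H.CvT
import Pool.Agent.CritPer.H.HypOf
import Pool.Agent.CritPer.H.Cvx

set_option autoImplicit false

/-!
HD-FIN.  At most one critical period.
PLAN.  `critSet_le_one`: every `z ∈ annulus X`, `z ≠ 0`, has a neighbourhood in `cyc X` (the annulus is open and contained in `insert 0 (cyc X)`).  `φ σ = bz X (c σ)` on `I`: continuous (`diff_bz`, `hI.smooth`), injective: if `φ σ = φ σ' = b`, then `(b, 0)` is on both orbits, so `c σ' ∈ orbit X (c σ)`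
and `hI.unique` at `z = c σ` gives `σ = σ'`.  `J = φ '' I` is open and order connected (`image_open`), `(b, 0) ∈ cyc X` for `b ∈ J`.  `f b = minPeriod X (b, 0)` satisfies `CvxIn (2k) J f` (`conv_T`), so it is continuous (`cvx_cont`) and differentiable (`diff_T`) on `J`.
`minPeriod X (c σ) = f (φ σ)` (`bz_spec`), so `deriv (...) σ = f' (φ σ) φ' σ` with `φ' σ = L (c' σ) ≠ 0` (`diff_bz_ne`, `hI.transversal`).  Let `σ₁ ≠ σ₂` be in `critSet`; then `f' = 0` at `φ σ₁ ≠ φ σ₂`; `f` is constant between them (`const_between`), so `minPeriod X (c σ)` is constant for `σ` between `σ₁` and `σ₂`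
(`φ` is strictly monotone on `I`: `ContinuousOn.strictMonoOn_of_injOn_Icc'` or intermediate values), so its derivative vanishes there: contradiction with the punctured neighbourhood of `σ₁` in `critSet`.  `Set.encard_le_one_iff`.
`main`: the set `I` is nonempty, so `annulus X` contains `c σ ≠ 0`, which lies on a periodic orbit around the origin; `hyp_of`.
-/

open Set Filter Topology

namespace Pool.Agent.CritPer.H

variable {k : ℕ} {P Q : MvPolynomial (Fin 2) ℝ}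

theorem nhds_cyc {X : ℝ × ℝ → ℝ × ℝ} {z : ℝ × ℝ} (hz : z ∈ annulus X) (h0 : z ≠ 0) :
    ∀ᶠ w in 𝓝 z, w ∈ cyc X := by
  have h1 : z ∈ interior (insert 0 (cyc X)) := connectedComponentIn_subset _ _ hz
  have h2 : insert 0 (cyc X) ∈ 𝓝 z := mem_interior_iff_mem_nhds.mp h1
  filter_upwards [h2, isOpen_ne.mem_nhds h0] with w hw hw0
  rcases hw with hw | hw
  · exact absurd hw hw0
  · exact hw

private theorem Fin_orbit {P Q : MvPolynomial (Fin 2) ℝ} {z z' w : ℝ × ℝ}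
    (h1 : w ∈ orbit (vf P Q) z) (h2 : w ∈ orbit (vf P Q) z') : z' ∈ orbit (vf P Q) z := by
  obtain ⟨γ, hγ, hγ0, t, ht⟩ := h1
  obtain ⟨δ, hδ, hδ0, s, hs⟩ := h2
  have hX : ContDiff ℝ 1 (vf P Q) := contDiff_vf' P Q
  have h3 := IsSol.unique hX (hδ.shift s) (hγ.shift t) (by
    simp only [zero_add]
    rw [hs, ht])
  refine ⟨γ, hγ, hγ0, -s + t, ?_⟩
  have h4 := congrFun h3 (-s)
  simp only [neg_add_cancel] at h4
  rw [← h4, hδ0]

private theorem Fin_self {X : ℝ × ℝ → ℝ × ℝ} {z : ℝ × ℝ} (hz : z ∈ cyc X) : z ∈ orbit X z := by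
  obtain ⟨γ, hγ, h0, _⟩ := hz
  exact ⟨γ, hγ.1, h0, 0, h0⟩

theorem critSet_le_one (H : PHyp k P Q) {I : Set ℝ} {c : ℝ → ℝ × ℝ}
    (hI : IsParam (vf P Q) I c) : (critSet (vf P Q) I c).encard ≤ 1 := by
  classical
  set X := vf P Q with hXdef
  set φ : ℝ → ℝ := fun σ => bz X (c σ) with hφ
  set f : ℝ → ℝ := fun b => minPeriod X (b, 0) with hf
  have hn : ∀ σ ∈ I, ∀ᶠ w in 𝓝 (c σ), w ∈ cyc X := fun σ hσ =>
    nhds_cyc (hI.mem σ hσ).1 (hI.mem σ hσ).2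
  have hm : ∀ σ ∈ I, c σ ∈ cyc X := fun σ hσ => (hn σ hσ).self_of_nhds
  have hc : ∀ σ ∈ I, HasDerivAt c (deriv c σ) σ := fun σ hσ =>
    (((hI.smooth.contDiffAt (hI.isOpen.mem_nhds hσ)).differentiableAt (by simp))).hasDerivAt
  have hd : ∀ σ ∈ I, ∃ L : ℝ × ℝ →L[ℝ] ℝ, HasFDerivAt (bz X) L (c σ) ∧ L (X (c σ)) = 0 ∧
      HasDerivAt φ (L (deriv c σ)) σ := by
    intro σ hσ
    obtain ⟨L, hL, hL0⟩ := diff_bz H (hn σ hσ)
    exact ⟨L, hL, hL0, hL.comp_hasDerivAt σ (hc σ hσ)⟩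
  have hcont : ContinuousOn φ I := by
    intro σ hσ
    obtain ⟨L, _, _, h⟩ := hd σ hσ
    exact h.continuousAt.continuousWithinAt
  have hinj : InjOn φ I := by
    intro σ hσ σ' hσ' he
    have h1 := (bz_spec H (hm σ hσ)).2.1
    have h2 := (bz_spec H (hm σ' hσ')).2.1
    have he' : bz X (c σ) = bz X (c σ') := he
    rw [← hXdef] at h1 h2
    rw [← he'] at h2
    have h3 : c σ' ∈ orbit X (c σ) := Fin_orbit h1 h2
    have hu := hI.unique (c σ) (hI.mem σ hσ).1 (hI.mem σ hσ).2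
    exact hu.unique ⟨hσ, Fin_self (hm σ hσ)⟩ ⟨hσ', h3⟩
  obtain ⟨hJ, hJ'⟩ := image_open hI.isOpen hI.ordConnected hcont hinj
  set J : Set ℝ := φ '' I with hJdef
  have hJpos : ∀ b ∈ J, 0 < b := by
    rintro b ⟨σ, hσ, rfl⟩
    exact (bz_spec H (hm σ hσ)).1
  have hJc : ∀ b ∈ J, ((b, (0 : ℝ)) : ℝ × ℝ) ∈ cyc X := by
    rintro b ⟨σ, hσ, rfl⟩
    exact (bz_spec H (hm σ hσ)).2.2.1
  have hk : 1 ≤ k := H.hk
  have hcv : CvxIn (2 * k) J f := by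
    intro b₁ h₁ b₂ h₂ b hb t ht ht' hs
    exact conv_T H (fun z => rfl) (hJpos b₁ h₁) (hJpos b₂ h₂) (hJpos b hb) (hJc b₁ h₁)
      (hJc b₂ h₂) (hJc b hb) ht ht' hs
  have hJn : ∀ b ∈ J, ∀ᶠ b' in 𝓝 b, ((b', (0 : ℝ)) : ℝ × ℝ) ∈ cyc X := by
    intro b hb
    filter_upwards [hJ.mem_nhds hb] with b' hb'
    exact hJc b' hb'
  have hdf : ∀ b ∈ J, DifferentiableAt ℝ f b := by
    intro b hb
    exact diff_T H (hJpos b hb) (hJn b hb)
      (cvx_cont (by omega : 1 ≤ 2 * k) hJ hJ' hJpos hcv hb)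
  have hder : ∀ σ ∈ I, ∃ m : ℝ, m ≠ 0 ∧ HasDerivAt φ m σ ∧
      HasDerivAt (fun r => minPeriod X (c r)) (deriv f (φ σ) * m) σ := by
    intro σ hσ
    obtain ⟨L, hL, hL0, h⟩ := hd σ hσ
    have hφJ : φ σ ∈ J := ⟨σ, hσ, rfl⟩
    refine ⟨L (deriv c σ), ?_, h, ?_⟩
    · exact diff_bz_ne H (hm σ hσ) (hJn _ hφJ) hL hL0 (hI.transversal σ hσ)
    · have h1 : HasDerivAt (f ∘ φ) (deriv f (φ σ) * L (deriv c σ)) σ :=
        (hdf _ hφJ).hasDerivAt.comp σ h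
      refine h1.congr_of_eventuallyEq ?_
      filter_upwards [hI.isOpen.mem_nhds hσ] with r hr
      exact (bz_spec H (hm r hr)).2.2.2.2
  have key : ∀ σ₁ ∈ critSet X I c, ∀ σ₂ ∈ critSet X I c, ¬ φ σ₁ < φ σ₂ := by
    intro σ₁ h₁ σ₂ h₂ hlt
    obtain ⟨m₁, hm₁, hφ₁, hT₁⟩ := hder σ₁ h₁.1
    obtain ⟨m₂, hm₂, hφ₂, hT₂⟩ := hder σ₂ h₂.1
    have hj₁ : φ σ₁ ∈ J := ⟨σ₁, h₁.1, rfl⟩
    have hj₂ : φ σ₂ ∈ J := ⟨σ₂, h₂.1, rfl⟩
    have e₁ : deriv f (φ σ₁) = 0 := by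
      have h := h₁.2.1
      rw [hT₁.deriv] at h
      exact (mul_eq_zero.mp h).resolve_right hm₁
    have e₂ : deriv f (φ σ₂) = 0 := by
      have h := h₂.2.1
      rw [hT₂.deriv] at h
      exact (mul_eq_zero.mp h).resolve_right hm₂
    have d₁ : HasDerivAt f 0 (φ σ₁) := by
      rw [← e₁]
      exact (hdf _ hj₁).hasDerivAt
    have d₂ : HasDerivAt f 0 (φ σ₂) := by
      rw [← e₂]
      exact (hdf _ hj₂).hasDerivAt
    have hcon := const_between (by omega : 1 ≤ 2 * k) hJ hJ' hJpos hcv hj₁ hj₂ hlt d₁ d₂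
    have hz : ∀ b ∈ Ioo (φ σ₁) (φ σ₂), deriv f b = 0 := by
      intro b hb
      have h3 : f =ᶠ[𝓝 b] fun _ => f (φ σ₁) := by
        filter_upwards [Ioo_mem_nhds hb.1 hb.2] with b' hb'
        exact hcon b' ⟨hb'.1.le, hb'.2.le⟩
      rw [h3.deriv_eq]
      exact deriv_const _ _
    have hmax : IsLocalMax φ σ₁ := by
      have h4 : ∀ᶠ r in 𝓝 σ₁, φ r < φ σ₂ :=
        hφ₁.continuousAt.eventually_lt continuousAt_const hlt
      have h5 : ∀ᶠ r in 𝓝 σ₁, r ≠ σ₁ → deriv (fun r => minPeriod X (c r)) r ≠ 0 :=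
        eventually_nhdsWithin_iff.mp h₁.2.2
      filter_upwards [h4, h5, hI.isOpen.mem_nhds h₁.1] with r hr1 hr2 hr3
      by_contra hcc
      rw [not_le] at hcc
      have hne : r ≠ σ₁ := by
        rintro rfl
        exact lt_irrefl _ hcc
      obtain ⟨m, _, _, hT⟩ := hder r hr3
      apply hr2 hne
      rw [hT.deriv, hz _ ⟨hcc, hr1⟩, zero_mul]
    exact hm₁ (hmax.hasDerivAt_eq_zero hφ₁)
  rw [Set.encard_le_one_iff]
  intro σ₁ σ₂ h₁ h₂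
  rcases lt_trichotomy (φ σ₁) (φ σ₂) with h | h | h
  · exact absurd h (key σ₁ h₁ σ₂ h₂)
  · exact hinj h₁.1 h₂.1 h
  · exact absurd h (key σ₂ h₂ σ₁ h₁)

theorem main {k : ℕ} (hk : 1 ≤ k) {P Q : MvPolynomial (Fin 2) ℝ}
    (hP : P.IsHomogeneous (2 * k + 1)) (hQ : Q.IsHomogeneous (4 * k + 1))
    (px : ∀ x : ℝ, MvPolynomial.eval ![x, 0] P = 0)
    (mono : ∀ x : ℝ, Monotone (fun y : ℝ => MvPolynomial.eval ![x, y] P)) {I : Set ℝ}
    {c : ℝ → ℝ × ℝ} (hI : IsParam (vf P Q) I c) : (critSet (vf P Q) I c).encard ≤ 1 := by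
  obtain ⟨σ, hσ⟩ := hI.nonempty
  obtain ⟨h1, h2⟩ := hI.mem σ hσ
  obtain ⟨γ, hγ, _, hS⟩ := (nhds_cyc h1 h2).self_of_nhds
  exact critSet_le_one (hyp_of hk hP hQ px mono hγ hS) hI

end Pool.Agent.CritPer.H
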