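import Pool.Agent.CritPer.H.PerA

set_option autoImplicit false

/-!
HD-PER.  A periodic orbit which surrounds the origin: four quarters, minimal period.
PLAN.  `exists_max`: the set `{b | 0 ≤ b, (b, 0) ∈ range γ ∪ -range γ}` is compact (`range γ` is the image of `[0, T]`), nonempty (`hits_ray`), and does not contain `0`.
`per_data`: let `b` be the maximum; `u` = `γ` or `-γ` shifted such that `u 0 = (b, 0)` (`neg_sol`, `IsSol.shift`; the range of a shift is the range, so `Surrounds` is kept); `per_half`.  With `h = τ₁ + τ₂ > 0`: `u (t + h) = -u t`, `(u t).2 ≠ 0` unless `t = m h` (`m` an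
integer: `t = m h + r`, `0 ≤ r < h`, `Int.floor`), `u (m h) = (-1)^m (b, 0)`.  So `(b', 0) ∈ range u`, `b' > 0` gives `b' = b`; `range (-u) = range u`.  `γ` is a time shift of `u` (if `u = -γ` shifted use `u (t + h) = -u t`), say `γ t = u (t + c)`.
`minPeriod_eq` (Flow.lean) for `γ` with `T = 2 h`: `γ (t + 2h) = γ t`; if `γ t = γ 0`, i.e. `u (t + c) = u c`, then `u (t + s) = u s` for all `s` (`IsSol.unique`, shifts), so `u t = u 0 = (b, 0)` and `t = m h` with `m` even.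
-/

open Set Filter Topology

namespace Pool.Agent.CritPer.H

variable {k : ℕ} {p q : ℝ → ℝ → ℝ} {X : ℝ × ℝ → ℝ × ℝ} {γ : ℝ → ℝ × ℝ}

private theorem Per_shift {X : ℝ × ℝ → ℝ × ℝ} {δ : ℝ → ℝ × ℝ} (h : IsPerSol X δ) (s : ℝ) :
    IsPerSol X (fun t => δ (t + s)) ∧ range (fun t => δ (t + s)) = range δ := by
  obtain ⟨hs, ⟨T, hT, hper⟩, t₀, ht₀⟩ := h
  refine ⟨⟨hs.shift s, ⟨T, hT, fun t => ?_⟩, ?_⟩, ?_⟩
  · have h1 : t + T + s = t + s + T := by ring
    show δ (t + T + s) = δ (t + s)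
    rw [h1]
    exact hper _
  · by_contra hcon
    push Not at hcon
    apply ht₀
    have h1 := hcon (t₀ - s)
    have h2 := hcon (-s)
    simp only [sub_add_cancel, neg_add_cancel] at h1 h2
    rw [h1, h2]
  · ext z
    constructor
    · rintro ⟨t, rfl⟩
      exact ⟨t + s, rfl⟩
    · rintro ⟨t, rfl⟩
      exact ⟨t - s, by simp⟩

private theorem Per_cont {X : ℝ × ℝ → ℝ × ℝ} {δ : ℝ → ℝ × ℝ} (h : IsSol X δ) : Continuous δ :=
  continuous_iff_continuousAt.2 fun t => (h t).continuousAt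

private theorem Per_compact {X : ℝ × ℝ → ℝ × ℝ} {δ : ℝ → ℝ × ℝ} (h : IsPerSol X δ) :
    IsCompact (range δ) := by
  obtain ⟨hs, ⟨T, hT, hper⟩, -⟩ := h
  have h1 : Function.Periodic δ T := hper
  rw [← h1.image_Icc hT 0]
  exact isCompact_Icc.image (Per_cont hs)

/-- the zeros of the second coordinate -/
private theorem Per_zeros {u : ℝ → ℝ × ℝ} {h : ℝ} (hh : 0 < h) (hu : ∀ t, u (t + h) = -u t)
    (hneg : ∀ t, 0 < t → t < h → (u t).2 < 0) {s : ℝ} (hs : (u s).2 = 0) :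
    (∃ m : ℤ, s = m * (2 * h) ∧ u s = u 0) ∨ u s = -u 0 := by
  have hA : Function.Antiperiodic u h := hu
  have key : ∀ (s r : ℝ) (j : ℤ), s = r + j * (2 * h) → u s = u r := by
    intro s r j hsr
    rw [hsr]
    exact hA.int_even_mul_periodic j r
  obtain ⟨m, hm⟩ : ∃ m : ℤ, m = ⌊s / h⌋ := ⟨_, rfl⟩
  have h1 : (m : ℝ) ≤ s / h := by
    rw [hm]
    exact Int.floor_le _
  have h2 : s / h < m + 1 := by
    rw [hm]
    exact Int.lt_floor_add_one _
  have h1' : (m : ℝ) * h ≤ s := (le_div_iff₀ hh).1 h1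
  have h2' : s < (m + 1) * h := (div_lt_iff₀ hh).1 h2
  have hr0 : 0 ≤ s - m * h := by linarith
  have hr1 : s - m * h < h := by linarith
  rcases Int.even_or_odd' m with ⟨j, hj | hj⟩
  · left
    have h3 : s = (s - m * h) + j * (2 * h) := by
      rw [hj]
      push_cast
      ring
    have h4 := key _ _ _ h3
    have h5 : s - m * h = 0 := by
      rcases hr0.eq_or_lt with h6 | h6
      · exact h6.symm
      · exfalso
        have h7 := hneg _ h6 hr1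
        rw [← h4, hs] at h7
        exact lt_irrefl _ h7
    refine ⟨j, ?_, ?_⟩
    · rw [h5, zero_add] at h3
      exact h3
    · rw [h4, h5]
  · right
    have h3 : s = (s - m * h + h) + j * (2 * h) := by
      rw [hj]
      push_cast
      ring
    have h4 := key _ _ _ h3
    rw [hu] at h4
    have h5 : s - m * h = 0 := by
      rcases hr0.eq_or_lt with h6 | h6
      · exact h6.symm
      · exfalso
        have h7 := hneg _ h6 hr1
        rw [h4, Prod.snd_neg] at hs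
        linarith
    rw [h4, h5]

theorem exists_max {X : ℝ × ℝ → ℝ × ℝ} (hγ : IsPerSol X γ) (hS : Surrounds (range γ)) :
    ∃ b : ℝ, 0 < b ∧ (((b, (0 : ℝ)) : ℝ × ℝ) ∈ range γ ∨ ((-b, (0 : ℝ)) : ℝ × ℝ) ∈ range γ) ∧
      ∀ b' : ℝ, 0 < b' → (((b', (0 : ℝ)) : ℝ × ℝ) ∈ range γ ∨
        ((-b', (0 : ℝ)) : ℝ × ℝ) ∈ range γ) → b' ≤ b := by
  obtain ⟨r, hr, hrS⟩ := hits_ray hS (v := ((1 : ℝ), (0 : ℝ))) (fun h => one_ne_zero (congrArg Prod.fst h))
  have hK : IsCompact (range γ) := Per_compact hγ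
  have c1 : Continuous (fun b : ℝ => ((b, (0 : ℝ)) : ℝ × ℝ)) := by fun_prop
  have c2 : Continuous (fun b : ℝ => ((-b, (0 : ℝ)) : ℝ × ℝ)) := by fun_prop
  have hcl : IsClosed ((fun b : ℝ => ((b, (0 : ℝ)) : ℝ × ℝ)) ⁻¹' range γ ∪
      (fun b : ℝ => ((-b, (0 : ℝ)) : ℝ × ℝ)) ⁻¹' range γ) :=
    (hK.isClosed.preimage c1).union (hK.isClosed.preimage c2)
  obtain ⟨R, hR⟩ : ∃ R, range γ ⊆ Metric.closedBall 0 R := hK.isBounded.subset_closedBall 0
  have hsub : ((fun b : ℝ => ((b, (0 : ℝ)) : ℝ × ℝ)) ⁻¹' range γ ∪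
      (fun b : ℝ => ((-b, (0 : ℝ)) : ℝ × ℝ)) ⁻¹' range γ) ⊆ Icc (-R) R := by
    rintro b (hb | hb)
    · have h1 := hR hb
      rw [mem_closedBall_zero_iff, Prod.norm_def] at h1
      have h2 : |b| ≤ R := le_trans (le_max_left _ _) h1
      exact abs_le.1 h2
    · have h1 := hR hb
      rw [mem_closedBall_zero_iff, Prod.norm_def] at h1
      have h2 : |(-b)| ≤ R := le_trans (le_max_left _ _) h1
      rw [abs_neg] at h2
      exact abs_le.1 h2
  have hC : IsCompact ((fun b : ℝ => ((b, (0 : ℝ)) : ℝ × ℝ)) ⁻¹' range γ ∪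
      (fun b : ℝ => ((-b, (0 : ℝ)) : ℝ × ℝ)) ⁻¹' range γ) :=
    isCompact_Icc.of_isClosed_subset hcl hsub
  have hrS' : ((r, (0 : ℝ)) : ℝ × ℝ) ∈ range γ := by
    have h1 : r • (((1 : ℝ), (0 : ℝ)) : ℝ × ℝ) = (r, 0) := by
      rw [Prod.smul_mk, smul_eq_mul, smul_eq_mul, mul_one, mul_zero]
    rw [h1] at hrS
    exact hrS
  obtain ⟨b, hb1, hb2⟩ := hC.exists_isGreatest ⟨r, Or.inl hrS'⟩
  refine ⟨b, lt_of_lt_of_le hr (hb2 (Or.inl hrS')), hb1, fun b' _ h => hb2 h⟩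

theorem per_data (H : Hyp k p q) (hX : ∀ z, X z = (p z.1 z.2, q z.1 z.2)) (hγ : IsPerSol X γ)
    (hS : Surrounds (range γ)) :
    ∃ (b a τ₁ τ₂ : ℝ) (x₁ y₁ x₂ y₂ : ℝ → ℝ), Arc p q b a τ₁ x₁ y₁ ∧
      Arc (pr p) (qr q) b a τ₂ x₂ y₂ ∧ ((b, (0 : ℝ)) : ℝ × ℝ) ∈ range γ ∧
      (∀ b' : ℝ, 0 < b' → ((b', (0 : ℝ)) : ℝ × ℝ) ∈ range γ → b' = b) ∧
      minPeriod X (γ 0) = 2 * (τ₁ + τ₂) := by
  obtain ⟨b, hb, hbm, hmax⟩ := exists_max hγ hS
  have hXc : ContDiff ℝ 1 X := by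
    have h1 : X = fun z : ℝ × ℝ => ((p z.1 z.2, q z.1 z.2) : ℝ × ℝ) := funext hX
    rw [h1]
    exact H.cp.prodMk H.cq
  obtain ⟨u, hu, hSu, hu0, hmaxu, c, hc⟩ : ∃ u : ℝ → ℝ × ℝ, IsPerSol X u ∧ Surrounds (range u) ∧
      u 0 = (b, 0) ∧ (∀ b' : ℝ, 0 < b' → (((b', (0 : ℝ)) : ℝ × ℝ) ∈ range u ∨
        ((-b', (0 : ℝ)) : ℝ × ℝ) ∈ range u) → b' ≤ b) ∧
      ∃ c : ℝ, (∀ t, γ t = u (t + c)) ∨ (∀ t, γ t = -u (t + c)) := by
    rcases hbm with ⟨t₁, ht₁⟩ | ⟨t₁, ht₁⟩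
    · obtain ⟨h1, h2⟩ := Per_shift hγ t₁
      refine ⟨fun t => γ (t + t₁), h1, ?_, ?_, ?_, -t₁, Or.inl fun t => ?_⟩
      · rw [h2]
        exact hS
      · show γ (0 + t₁) = _
        rw [zero_add, ht₁]
      · rw [h2]
        exact hmax
      · show γ t = γ (t + -t₁ + t₁)
        rw [neg_add_cancel_right]
    · obtain ⟨hn, hSn⟩ := neg_sol H hX hγ hS
      obtain ⟨h1, h2⟩ := Per_shift hn t₁
      refine ⟨fun t => -γ (t + t₁), h1, ?_, ?_, ?_, -t₁, Or.inr fun t => ?_⟩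
      · rw [h2]
        exact hSn
      · show -γ (0 + t₁) = _
        rw [zero_add, ht₁, Prod.neg_mk, neg_neg, neg_zero]
      · rw [h2]
        intro b' hb' h3
        apply hmax b' hb'
        rcases h3 with ⟨t, ht⟩ | ⟨t, ht⟩
        · right
          refine ⟨t, ?_⟩
          have h4 : -γ t = (b', 0) := ht
          rw [← neg_neg (γ t), h4, Prod.neg_mk, neg_zero]
        · left
          refine ⟨t, ?_⟩
          have h4 : -γ t = (-b', 0) := ht
          rw [← neg_neg (γ t), h4, Prod.neg_mk, neg_zero, neg_neg]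
      · show γ t = -(-γ (t + -t₁ + t₁))
        rw [neg_add_cancel_right, neg_neg]
  obtain ⟨a, τ₁, τ₂, x₁, y₁, x₂, y₂, A₁, A₂, hhalf, hneg⟩ := per_half H hX hu hSu hb hu0 hmaxu
  have hh : 0 < τ₁ + τ₂ := add_pos A₁.hτ A₂.hτ
  obtain ⟨c, hc⟩ : ∃ c : ℝ, ∀ t, γ t = u (t + c) := by
    rcases hc with hc | hc
    · exact ⟨c, hc⟩
    · refine ⟨c + (τ₁ + τ₂), fun t => ?_⟩
      rw [← add_assoc, hhalf]
      exact hc t
  have hper2 : ∀ t, u (t + 2 * (τ₁ + τ₂)) = u t := by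
    intro t
    have h1 : t + 2 * (τ₁ + τ₂) = t + (τ₁ + τ₂) + (τ₁ + τ₂) := by ring
    rw [h1, hhalf, hhalf, neg_neg]
  refine ⟨b, a, τ₁, τ₂, x₁, y₁, x₂, y₂, A₁, A₂, ?_, ?_, ?_⟩
  · refine ⟨-c, ?_⟩
    rw [hc, neg_add_cancel]
    exact hu0
  · rintro b' hb' ⟨t, ht⟩
    rw [hc] at ht
    have h1 : (u (t + c)).2 = 0 := by rw [ht]
    rcases Per_zeros hh hhalf hneg h1 with ⟨m, -, h2⟩ | h2
    · rw [ht, hu0] at h2
      exact congrArg Prod.fst h2
    · rw [ht, hu0, Prod.neg_mk] at h2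
      have h3 : b' = -b := congrArg Prod.fst h2
      linarith
  · refine minPeriod_eq hXc hγ.1 (by linarith) (fun t => ?_) (fun t ht => ?_)
    · have h1 : t + 2 * (τ₁ + τ₂) + c = t + c + 2 * (τ₁ + τ₂) := by ring
      rw [hc, hc, h1, hper2]
    · have h1 : (fun s => u (s + (t + c))) = fun s => u (s + c) := by
        refine IsSol.unique hXc (hu.1.shift _) (hu.1.shift _) ?_
        show u (0 + (t + c)) = u (0 + c)
        rw [hc, hc] at ht
        rw [zero_add]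
        exact ht
      have h2 : u t = u 0 := by
        have h3 := congrFun h1 (-c)
        have h4 : -c + (t + c) = t := by ring
        have h5 : -c + c = 0 := by ring
        simp only [h4, h5] at h3
        exact h3
      have h3 : (u t).2 = 0 := by rw [h2, hu0]
      rcases Per_zeros hh hhalf hneg h3 with ⟨m, h4, -⟩ | h4
      · exact ⟨m, h4⟩
      · exfalso
        rw [h2, hu0, Prod.neg_mk] at h4
        have h5 : b = -b := congrArg Prod.fst h4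
        linarith

end Pool.Agent.CritPer.H
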