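import Pool.Agent.CritPer.H.QA
import Pool.Agent.CritPer.H.Alp

set_option autoImplicit false

/-!
HD-PERA.  The outermost crossing closes after half a turn.
PLAN.  `u 0 = (b, 0)`, `b` maximal.  `arc_back` for `u`: `Arc p q b a τ₁`, `u (-τ₁) = (0, a)`.  Shift: `u₁ t = u (t - τ₁)` has the value `(0, a)` at `0`; its reflection `t ↦ (-(u₁ (-t)).1, (u₁ (-t)).2)` (`refl_sol`) has the value `(0, a)` at `0` and solves the reflected system;
`arc_forw` (with `H.refl`): `Arc (pr p) (qr q) b₀ a τ₀` and `u₁ (-τ₀) = (-b₀, 0)`, so `b₀ ≤ b` (`hmax`).  The negative of the reflection of `u`, `t ↦ ((u (-t)).1, -(u (-t)).2)`, solves the reflected system (`refl_sol`, `neg_sol` with `H.refl`) and has the value `(b, 0)` at `0`;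
`arc_back` (with `H.refl`): `Arc (pr p) (qr q) b a' τ₂`, `u τ₂ = (0, -a')`, and `(u t).2 < 0` for `0 < t ≤ τ₂`.  `-u` shifted by `τ₂` has the value `(0, a')` at `0`; `arc_forw`: `Arc p q b' a' τ₃`, `-u (τ₂ + τ₃) = (b', 0)`, `b' ≤ b`, `(u t).2 < 0` for `τ₂ ≤ t < τ₂ + τ₃`.
`alpha_mono` (reflected) and `b₀ ≤ b`: `a ≤ a'`; `alpha_mono` and `b' ≤ b`: `a' ≤ a`.  So `a = a'`, `b' = b` (`arc_inj`), and `u (τ₂ + τ₃) = -u 0`; then `u (t + h) = -u t` by `IsSol.unique` (`neg_sol`, `IsSol.shift`).  The `τ₁` of the statement is `τ₃`.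
-/

open Set Filter Topology

namespace Pool.Agent.CritPer.H

variable {k : ℕ} {p q : ℝ → ℝ → ℝ} {X : ℝ × ℝ → ℝ × ℝ} {u : ℝ → ℝ × ℝ}

private theorem perA_shift (hu : IsPerSol X u) (hS : Surrounds (range u)) (s : ℝ) :
    IsPerSol X (fun t => u (t + s)) ∧ Surrounds (range (fun t => u (t + s))) := by
  obtain ⟨h1, ⟨T, hT, h2⟩, t₀, h3⟩ := hu
  refine ⟨⟨h1.shift s, ⟨T, hT, fun t => ?_⟩, ?_⟩, ?_⟩
  · have h := h2 (t + s)
    change u (t + T + s) = u (t + s)
    rw [show t + T + s = t + s + T by ring]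
    exact h
  · by_contra hcon
    push Not at hcon
    apply h3
    have e1 := hcon (t₀ - s)
    have e2 := hcon (-s)
    rw [sub_add_cancel] at e1
    rw [neg_add_cancel] at e2
    rw [e1, e2]
  · have h4 : range (fun t => u (t + s)) = range u := by
      ext z
      constructor
      · rintro ⟨t, rfl⟩
        exact ⟨t + s, rfl⟩
      · rintro ⟨t, rfl⟩
        exact ⟨t - s, by simp only [sub_add_cancel]⟩
    rw [h4]
    exact hS

private theorem perA_contDiff (H : Hyp k p q) (hX : ∀ z, X z = (p z.1 z.2, q z.1 z.2)) :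
    ContDiff ℝ 1 X := by
  have h1 : X = fun z : ℝ × ℝ => (p z.1 z.2, q z.1 z.2) := funext hX
  rw [h1]
  exact H.cp.prodMk H.cq

theorem per_half (H : Hyp k p q) (hX : ∀ z, X z = (p z.1 z.2, q z.1 z.2)) (hu : IsPerSol X u)
    (hS : Surrounds (range u)) {b : ℝ} (hb : 0 < b) (h0 : u 0 = (b, 0))
    (hmax : ∀ b' : ℝ, 0 < b' → (((b', (0 : ℝ)) : ℝ × ℝ) ∈ range u ∨
      ((-b', (0 : ℝ)) : ℝ × ℝ) ∈ range u) → b' ≤ b) :
    ∃ (a τ₁ τ₂ : ℝ) (x₁ y₁ x₂ y₂ : ℝ → ℝ), Arc p q b a τ₁ x₁ y₁ ∧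
      Arc (pr p) (qr q) b a τ₂ x₂ y₂ ∧ (∀ t, u (t + (τ₁ + τ₂)) = -u t) ∧
      ∀ t, 0 < t → t < τ₁ + τ₂ → (u t).2 < 0 := by
  -- first quarter against the time
  obtain ⟨a, σ, hσ, A1⟩ := arc_back H hX hu hS hb h0
  -- the quarter before
  obtain ⟨s1, s2⟩ := perA_shift hu hS (-σ)
  obtain ⟨r1, r2⟩ := refl_sol H hX s1 s2
  have e1 : ((fun t : ℝ => ((-((fun t => u (t + -σ)) (-t)).1, ((fun t => u (t + -σ)) (-t)).2) : ℝ × ℝ)) 0)
      = (0, a) := by
    simp only [neg_zero, zero_add]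
    rw [hσ]
    simp
  obtain ⟨b₀, τ₀, hb₀, A0⟩ := arc_forw H.refl (fun z => rfl) r1 r2 A1.ha e1
  have hb0 : b₀ ≤ b := by
    apply hmax b₀ A0.hb
    right
    refine ⟨-τ₀ + -σ, ?_⟩
    have h1 := congrArg Prod.fst hb₀
    have h2 := congrArg Prod.snd hb₀
    simp only at h1 h2
    apply Prod.ext
    · simp only
      linarith
    · simp only
      exact h2
  -- the quarter after the time zero
  obtain ⟨q1, q2⟩ := refl_sol H hX hu hS
  obtain ⟨w1, w2⟩ := neg_sol H.refl (fun z => rfl) q1 q2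
  have e2 : ((fun t : ℝ => -((-(u (-t)).1, (u (-t)).2) : ℝ × ℝ)) 0) = (b, 0) := by
    simp only [neg_zero]
    rw [h0]
    simp
  obtain ⟨a', τ₂, ha', A2⟩ := arc_back H.refl (fun z => rfl) w1 w2 hb e2
  have hu2 : u τ₂ = (0, -a') := by
    have h1 := congrArg Prod.fst ha'
    have h2 := congrArg Prod.snd ha'
    simp only [neg_neg, Prod.neg_mk] at h1 h2
    apply Prod.ext
    · exact h1
    · simp only
      linarith
  -- the last quarter
  obtain ⟨v1, v2⟩ := perA_shift hu hS τ₂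
  obtain ⟨n1, n2⟩ := neg_sol H hX v1 v2
  have e3 : ((fun t : ℝ => -((fun t => u (t + τ₂)) t)) 0) = (0, a') := by
    simp only [zero_add]
    rw [hu2]
    simp
  obtain ⟨b', τ₃, hb', A3⟩ := arc_forw H hX n1 n2 A2.ha e3
  have hb1 : u (τ₃ + τ₂) = (-b', 0) := by
    have h1 : -u (τ₃ + τ₂) = (b', 0) := hb'
    rw [← neg_neg (u (τ₃ + τ₂)), h1]
    simp
  have hb2 : b' ≤ b := by
    apply hmax b' A3.hb
    right
    exact ⟨τ₃ + τ₂, hb1⟩
  have m1 : a ≤ a' := alpha_mono H.refl A0 A2 hb0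
  have m2 : a' ≤ a := alpha_mono H A3 A1 hb2
  have haa : a' = a := le_antisymm m2 m1
  subst haa
  have hbb : b' = b := arc_inj H A3 A1
  subst hbb
  refine ⟨a', τ₃, τ₂, _, _, _, _, A3, A2, ?_, ?_⟩
  · have hfun : (fun t => u (t + (τ₃ + τ₂))) = fun t => -u t := by
      obtain ⟨g1, -⟩ := neg_sol H hX hu hS
      refine IsSol.unique (perA_contDiff H hX) (hu.1.shift _) g1.1 ?_
      simp only [zero_add]
      rw [hb1, h0]
      simp
    intro t
    exact congrFun hfun t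
  · intro t ht1 ht2
    rcases le_or_gt t τ₂ with h | h
    · have h1 := A2.ypos t ht1 h
      simp only [neg_neg, Prod.neg_mk] at h1
      linarith
    · have h1 := A3.ypos (τ₃ + τ₂ - t) (by linarith) (by linarith)
      simp only [Prod.snd_neg] at h1
      rw [show τ₃ - (τ₃ + τ₂ - t) + τ₂ = t by ring] at h1
      linarith

end Pool.Agent.CritPer.H
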