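import Pool.Agent.CritPer.H.Ray

set_option autoImplicit false

/-!
HD-QA.  Quarters of periodic orbits.

`arc_back` runs from `(b, 0)` against the field up to the first time with `x = 0`; the second coordinate is positive because
its derivative is positive at each of its zeros. `arc_forw` runs from `(0, a)` along the field up to the first time with
`y = 0`; the first coordinate increases. The time is reversed.
-/

open Set Filter Topology

namespace Pool.Agent.CritPer.H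

variable {k : ℕ} {p q : ℝ → ℝ → ℝ} {X : ℝ × ℝ → ℝ × ℝ} {γ : ℝ → ℝ × ℝ}

private theorem QA_sgn {y : ℝ → ℝ} {c s : ℝ} (hd : HasDerivAt y c s) (hc : 0 < c) (h0 : y s = 0) :
    (∀ᶠ t in 𝓝[>] s, 0 < y t) ∧ ∀ᶠ t in 𝓝[<] s, y t < 0 := by
  have h1 : ∀ᶠ t in 𝓝[≠] s, 0 < slope y s t := (hasDerivAt_iff_tendsto_slope.1 hd).eventually_const_lt hc
  have h2 : ∀ t, slope y s t = (t - s)⁻¹ * y t := by
    intro t
    rw [slope_def_field, h0, sub_zero, div_eq_inv_mul]
  constructor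
  · have h3 : ∀ᶠ t in 𝓝[>] s, 0 < slope y s t :=
      h1.filter_mono (nhdsWithin_mono _ fun t (ht : s < t) => ne_of_gt ht)
    filter_upwards [h3, self_mem_nhdsWithin] with t ht (hst : s < t)
    rw [h2] at ht
    exact (mul_pos_iff_of_pos_left (inv_pos.2 (sub_pos.2 hst))).1 ht
  · have h3 : ∀ᶠ t in 𝓝[<] s, 0 < slope y s t :=
      h1.filter_mono (nhdsWithin_mono _ fun t (ht : t < s) => ne_of_lt ht)
    filter_upwards [h3, self_mem_nhdsWithin] with t ht (hst : t < s)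
    rw [h2] at ht
    by_contra hcon
    have h4 : (t - s)⁻¹ * y t ≤ 0 :=
      mul_nonpos_of_nonpos_of_nonneg (inv_nonpos.2 (sub_nonpos.2 hst.le)) (not_lt.1 hcon)
    linarith

/-- a first zero -/
private theorem QA_first {f : ℝ → ℝ} (hf : Continuous f) {a b : ℝ} (hab : a ≤ b) (ha : 0 < f a) (hb : f b ≤ 0) :
    ∃ c, a < c ∧ c ≤ b ∧ f c = 0 ∧ ∀ t, a ≤ t → t < c → 0 < f t := by
  obtain ⟨S, hS⟩ : ∃ S : Set ℝ, S = {t | a ≤ t ∧ f t ≤ 0} := ⟨_, rfl⟩
  have hcl : IsClosed S := by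
    rw [hS]
    exact isClosed_Ici.inter (isClosed_le hf continuous_const)
  have hbS : b ∈ S := by
    rw [hS]
    exact ⟨hab, hb⟩
  have hbd : BddBelow S := ⟨a, fun t ht => by rw [hS] at ht; exact ht.1⟩
  have hc : sInf S ∈ S := hcl.csInf_mem ⟨b, hbS⟩ hbd
  obtain ⟨c, hcdef⟩ : ∃ c, c = sInf S := ⟨_, rfl⟩
  rw [← hcdef] at hc
  have hc' : a ≤ c ∧ f c ≤ 0 := by
    rw [hS] at hc
    exact hc
  have hpos : ∀ t, a ≤ t → t < c → 0 < f t := by
    intro t h1 h2
    by_contra h3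
    have h4 : t ∈ S := by
      rw [hS]
      exact ⟨h1, not_lt.1 h3⟩
    have h5 := csInf_le hbd h4
    rw [← hcdef] at h5
    linarith
  have hac : a < c := by
    rcases eq_or_lt_of_le hc'.1 with h | h
    · rw [← h] at hc'
      linarith [hc'.2]
    · exact h
  refine ⟨c, hac, ?_, ?_, hpos⟩
  · rw [hcdef]
    exact csInf_le hbd hbS
  · refine le_antisymm hc'.2 ?_
    have h6 : Tendsto f (𝓝[<] c) (𝓝 (f c)) := (hf.tendsto c).mono_left nhdsWithin_le_nhds
    refine ge_of_tendsto h6 ?_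
    filter_upwards [Ioo_mem_nhdsLT hac] with t ht
    exact (hpos t ht.1.le ht.2).le

private theorem QA_pos {y y' : ℝ → ℝ} {τ : ℝ} (hd : ∀ t, HasDerivAt y (y' t) t) (h0 : y 0 = 0)
    (h : ∀ t, 0 ≤ t → t ≤ τ → y t = 0 → 0 < y' t) : ∀ t, 0 < t → t ≤ τ → 0 < y t := by
  intro t ht htτ
  by_contra hcon
  have hc : Continuous y := continuous_iff_continuousAt.2 fun s => (hd s).continuousAt
  have h1 := (QA_sgn (hd 0) (h 0 le_rfl (ht.le.trans htτ) h0) h0).1
  obtain ⟨ε, hε1, hε2, hε3⟩ : ∃ ε, 0 < ε ∧ ε < t ∧ 0 < y ε := by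
    obtain ⟨ε, h2, h3⟩ := (h1.and (Ioo_mem_nhdsGT ht)).exists
    exact ⟨ε, h3.1, h3.2, h2⟩
  obtain ⟨c, hc1, hc2, hc3, hc4⟩ := QA_first hc hε2.le hε3 (not_lt.1 hcon)
  have h2 := (QA_sgn (hd c) (h c (hε1.le.trans hc1.le) (hc2.trans htτ) hc3) hc3).2
  obtain ⟨s, hs1, hs2⟩ := (h2.and (Ioo_mem_nhdsLT hc1)).exists
  exact absurd (hc4 s hs2.1.le hs2.2) (not_lt.2 hs1.le)

private theorem QA_per {T : ℝ} (hT : ∀ t, γ (t + T) = γ t) (t : ℝ) (n : ℕ) :
    γ (t + n * T) = γ t ∧ γ (t - n * T) = γ t := by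
  have h : ∀ (n : ℕ) (t : ℝ), γ (t + n * T) = γ t := by
    intro n
    induction n with
    | zero => intro t; simp
    | succ n ih =>
      intro t
      have e : t + ((n + 1 : ℕ) : ℝ) * T = (t + n * T) + T := by
        push_cast
        ring
      rw [e, hT, ih]
  refine ⟨h n t, ?_⟩
  have h1 := h n (t - n * T)
  rw [sub_add_cancel] at h1
  exact h1.symm

private theorem QA_time {T : ℝ} (hT0 : 0 < T) (hT : ∀ t, γ (t + T) = γ t) (t : ℝ) :
    (∃ s, 0 ≤ s ∧ γ s = γ t) ∧ ∃ s, 0 ≤ s ∧ γ (-s) = γ t := by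
  obtain ⟨n, hn⟩ := exists_nat_ge (|t| / T)
  rw [div_le_iff₀ hT0] at hn
  have h1 := neg_abs_le t
  have h2 := le_abs_self t
  obtain ⟨h3, h4⟩ := QA_per hT t n
  refine ⟨⟨t + n * T, by linarith, h3⟩, ⟨n * T - t, by linarith, ?_⟩⟩
  rw [neg_sub]
  exact h4

theorem arc_back (H : Hyp k p q) (hX : ∀ z, X z = (p z.1 z.2, q z.1 z.2)) (hγ : IsPerSol X γ)
    (hS : Surrounds (range γ)) {b : ℝ} (hb : 0 < b) (h0 : γ 0 = (b, 0)) :
    ∃ a τ : ℝ, γ (-τ) = (0, a) ∧ Arc p q b a τ (fun t => (γ (-t)).1) (fun t => (γ (-t)).2) := by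
  obtain ⟨hsol, ⟨T, hT0, hT⟩, -⟩ := hγ
  have hd : ∀ t, HasDerivAt (fun t => γ (-t)) (-(X (γ (-t)))) t := by
    intro t
    have h1 : HasDerivAt (fun t : ℝ => -t) (-1) t := (hasDerivAt_id t).neg
    have h2 := (hsol (-t)).scomp t h1
    rw [neg_one_smul] at h2
    exact h2
  have dx : ∀ t, HasDerivAt (fun t => (γ (-t)).1) (-(p (γ (-t)).1 (γ (-t)).2)) t := by
    intro t
    have h1 := (hd t).fst
    rw [hX] at h1
    exact h1
  have dy : ∀ t, HasDerivAt (fun t => (γ (-t)).2) (-(q (γ (-t)).1 (γ (-t)).2)) t := by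
    intro t
    have h1 := (hd t).snd
    rw [hX] at h1
    exact h1
  have cx : Continuous fun t => (γ (-t)).1 := continuous_iff_continuousAt.2 fun t => (dx t).continuousAt
  obtain ⟨r, hr, t0, ht0⟩ := hits_ray hS (v := (-1, 0)) (by
    intro h
    have h1 := congrArg Prod.fst h
    simp at h1)
  obtain ⟨-, s, hs, hsγ⟩ := QA_time hT0 hT t0
  have hxs : (γ (-s)).1 ≤ 0 := by
    rw [hsγ, ht0]
    show r * (-1) ≤ 0
    linarith
  have hx0 : (γ (-0)).1 = b := by rw [neg_zero, h0]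
  have hy0 : (γ (-0)).2 = 0 := by rw [neg_zero, h0]
  obtain ⟨τ, hτ, -, hxτ, hpos⟩ := QA_first cx hs (show 0 < (γ (-0)).1 by rw [hx0]; exact hb) hxs
  have hne : ∀ t, γ t ≠ 0 := fun t h => hS.1 ⟨t, h⟩
  have hxnn : ∀ t, 0 ≤ t → t ≤ τ → 0 ≤ (γ (-t)).1 := by
    intro t h1 h2
    rcases eq_or_lt_of_le h2 with h | h
    · rw [h]
      exact hxτ.ge
    · exact (hpos t h1 h).le
  have hq0 := H.q0
  have hypos : ∀ t, 0 < t → t ≤ τ → 0 < (γ (-t)).2 := by
    refine QA_pos dy hy0 fun t h1 h2 h3 => ?_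
    have h4 : 0 < (γ (-t)).1 := by
      rcases eq_or_lt_of_le (hxnn t h1 h2) with h | h
      · exact absurd (Prod.ext h.symm h3) (hne (-t))
      · exact h
    rw [h3, H.q_axis]
    have h5 : 0 < (γ (-t)).1 ^ (4 * k + 1) := pow_pos h4 _
    have h6 := mul_neg_of_pos_of_neg h5 hq0
    linarith
  refine ⟨(γ (-τ)).2, τ, Prod.ext hxτ rfl, ?_⟩
  exact
    { dx := dx
      dy := dy
      hb := hb
      ha := hypos τ hτ le_rfl
      hτ := hτ
      x0 := hx0
      y0 := hy0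
      x1 := hxτ
      y1 := rfl
      xpos := hpos
      ypos := hypos }

theorem arc_forw (H : Hyp k p q) (hX : ∀ z, X z = (p z.1 z.2, q z.1 z.2)) (hγ : IsPerSol X γ)
    (hS : Surrounds (range γ)) {a : ℝ} (ha : 0 < a) (h0 : γ 0 = (0, a)) :
    ∃ b τ : ℝ, γ τ = (b, 0) ∧
      Arc p q b a τ (fun t => (γ (τ - t)).1) (fun t => (γ (τ - t)).2) := by
  obtain ⟨hsol, ⟨T, hT0, hT⟩, -⟩ := hγ
  have dx : ∀ t, HasDerivAt (fun t => (γ t).1) (p (γ t).1 (γ t).2) t := by
    intro t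
    have h1 := (hsol t).fst
    rw [hX] at h1
    exact h1
  have dy : ∀ t, HasDerivAt (fun t => (γ t).2) (q (γ t).1 (γ t).2) t := by
    intro t
    have h1 := (hsol t).snd
    rw [hX] at h1
    exact h1
  have cx : Continuous fun t => (γ t).1 := continuous_iff_continuousAt.2 fun t => (dx t).continuousAt
  have cy : Continuous fun t => (γ t).2 := continuous_iff_continuousAt.2 fun t => (dy t).continuousAt
  obtain ⟨r, hr, t0, ht0⟩ := hits_ray hS (v := (0, -1)) (by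
    intro h
    have h1 := congrArg Prod.snd h
    simp at h1)
  obtain ⟨⟨s, hs, hsγ⟩, -⟩ := QA_time hT0 hT t0
  have hys : (γ s).2 ≤ 0 := by
    rw [hsγ, ht0]
    show r * (-1) ≤ 0
    linarith
  have hx0 : (γ 0).1 = 0 := by rw [h0]
  have hy0 : (γ 0).2 = a := by rw [h0]
  obtain ⟨τ, hτ, -, hyτ, hpos⟩ := QA_first cy hs (show 0 < (γ 0).2 by rw [hy0]; exact ha) hys
  have hmono : StrictMonoOn (fun t => (γ t).1) (Icc 0 τ) := by
    refine strictMonoOn_of_deriv_pos (convex_Icc 0 τ) cx.continuousOn fun t ht => ?_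
    rw [interior_Icc] at ht
    rw [(dx t).deriv]
    exact H.pos _ _ (hpos t ht.1.le ht.2)
  have hxpos : ∀ t, 0 < t → t ≤ τ → 0 < (γ t).1 := by
    intro t h1 h2
    have h3 := hmono ⟨le_rfl, hτ.le⟩ ⟨h1.le, h2⟩ h1
    simp only [hx0] at h3
    exact h3
  have hrev : ∀ t, HasDerivAt (fun t : ℝ => τ - t) (-1) t := fun t => by
    have h1 := (hasDerivAt_id t).const_sub τ
    exact h1
  refine ⟨(γ τ).1, τ, Prod.ext rfl hyτ, ?_⟩
  exact
    { dx := fun t => by
        have h1 := (dx (τ - t)).scomp t (hrev t)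
        rw [neg_one_smul] at h1
        exact h1
      dy := fun t => by
        have h1 := (dy (τ - t)).scomp t (hrev t)
        rw [neg_one_smul] at h1
        exact h1
      hb := hxpos τ hτ le_rfl
      ha := ha
      hτ := hτ
      x0 := by
        show (γ (τ - 0)).1 = (γ τ).1
        rw [sub_zero]
      y0 := by
        show (γ (τ - 0)).2 = 0
        rw [sub_zero, hyτ]
      x1 := by
        show (γ (τ - τ)).1 = 0
        rw [sub_self, hx0]
      y1 := by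
        show (γ (τ - τ)).2 = a
        rw [sub_self, hy0]
      xpos := fun t h1 h2 => hxpos (τ - t) (by linarith) (by linarith)
      ypos := fun t h1 h2 => hpos (τ - t) (by linarith) (by linarith) }

end Pool.Agent.CritPer.H
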