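import Pool.Agent.CritPer.H.Defs

set_option autoImplicit false

/-!
HD-RAY.  Orbits which surround the origin meet every ray; symmetries.
PLAN.  `hits_ray`: as in the first lines of `OFam.cyc_eq` (Pool/Agent/CritPer/Center.lean) with the ray `r ↦ r • v`, `r ≥ 0`: if it does not meet `S` for `r > 0` it lies (with `0 ∉ S`) in the component of `0`, which is bounded.
`surrounds_image`: a homeomorphism (here a linear isometry-like map `e` with `e 0 = 0`) maps the component of `0` of the complement onto the component of `0` of the complement of the image; it is enough to treat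
the continuous linear equivalence `e`: `Homeomorph.image_connectedComponentIn` or by hand (`IsPreconnected.image`, `subset_connectedComponentIn`), bounded by `ContinuousLinearEquiv` Lipschitz.
`neg_sol`, `refl_sol`: derivatives by the chain rule (`Hyp.neg_p`, `Hyp.neg_q`), `p (x) (y) = pr p (-x) y`; the range of `t ↦ (-(γ (-t)).1, (γ (-t)).2)` is the image of `range γ` under `z ↦ (-z.1, z.2)`.
-/

open Set Filter Topology

namespace Pool.Agent.CritPer.H

theorem hits_ray {S : Set (ℝ × ℝ)} (hS : Surrounds S) {v : ℝ × ℝ} (hv : v ≠ 0) :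
    ∃ r : ℝ, 0 < r ∧ r • v ∈ S := by
  by_contra hcon
  push Not at hcon
  have hc : Continuous fun r : ℝ => r • v := continuous_id.smul continuous_const
  have hR : IsPreconnected ((fun r : ℝ => r • v) '' Ici 0) :=
    isPreconnected_Ici.image _ hc.continuousOn
  have hsub : ((fun r : ℝ => r • v) '' Ici 0) ⊆ Sᶜ := by
    rintro _ ⟨x, hx, rfl⟩
    rcases eq_or_lt_of_le (show (0 : ℝ) ≤ x from hx) with h | h
    · rw [← h]
      show (0 : ℝ) • v ∉ S
      rw [zero_smul]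
      exact hS.1
    · exact hcon x h
  have h1 := hR.subset_connectedComponentIn (x := (0 : ℝ × ℝ)) ⟨0, self_mem_Ici, zero_smul ℝ v⟩ hsub
  have h2 := hS.2.subset h1
  obtain ⟨M, hM⟩ := h2.subset_closedBall 0
  have hv0 : 0 < ‖v‖ := norm_pos_iff.2 hv
  have hr : (0 : ℝ) ≤ (|M| + 1) / ‖v‖ := by positivity
  have h3 := hM ⟨(|M| + 1) / ‖v‖, hr, rfl⟩
  rw [Metric.mem_closedBall, dist_zero_right] at h3
  have h4 : ‖((|M| + 1) / ‖v‖) • v‖ = |M| + 1 := by
    rw [norm_smul, Real.norm_of_nonneg hr, div_mul_cancel₀ _ hv0.ne']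
  have h5 : |M| + 1 ≤ M := by
    rw [← h4]
    exact h3
  have := le_abs_self M
  linarith

theorem surrounds_image {S : Set (ℝ × ℝ)} (hS : Surrounds S) (e : (ℝ × ℝ) ≃L[ℝ] (ℝ × ℝ)) :
    Surrounds (e '' S) := by
  have h0 : (0 : ℝ × ℝ) ∉ e '' S := by
    rintro ⟨s, hs, hs0⟩
    have h1 : s = 0 := by
      rw [← e.symm_apply_apply s, hs0, map_zero]
    rw [h1] at hs
    exact hS.1 hs
  refine ⟨h0, ?_⟩
  have h1 : IsPreconnected (e.symm '' connectedComponentIn (e '' S)ᶜ (0 : ℝ × ℝ)) :=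
    isPreconnected_connectedComponentIn.image _ e.symm.continuous.continuousOn
  have h2 : e.symm '' connectedComponentIn (e '' S)ᶜ (0 : ℝ × ℝ) ⊆ Sᶜ := by
    rintro _ ⟨d, hd, rfl⟩ hdS
    exact connectedComponentIn_subset _ _ hd ⟨e.symm d, hdS, e.apply_symm_apply d⟩
  have h3 := h1.subset_connectedComponentIn (x := (0 : ℝ × ℝ))
    ⟨0, mem_connectedComponentIn h0, map_zero _⟩ h2
  have h4 : connectedComponentIn (e '' S)ᶜ (0 : ℝ × ℝ) ⊆
      e '' connectedComponentIn Sᶜ (0 : ℝ × ℝ) := by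
    intro d hd
    exact ⟨e.symm d, h3 ⟨d, hd, rfl⟩, e.apply_symm_apply d⟩
  exact (e.toContinuousLinearMap.lipschitz.isBounded_image hS.2).subset h4

variable {k : ℕ} {p q : ℝ → ℝ → ℝ} {X : ℝ × ℝ → ℝ × ℝ} {γ : ℝ → ℝ × ℝ}

theorem neg_sol (H : Hyp k p q) (hX : ∀ z, X z = (p z.1 z.2, q z.1 z.2)) (hγ : IsPerSol X γ)
    (hS : Surrounds (range γ)) :
    IsPerSol X (fun t => -γ t) ∧ Surrounds (range (fun t => -γ t)) := by
  obtain ⟨h1, ⟨T, hT, hT2⟩, t, ht⟩ := hγ
  refine ⟨⟨fun t => ?_, ⟨T, hT, fun t => ?_⟩, t, ?_⟩, ?_⟩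
  · have h2 : X (-γ t) = -X (γ t) := by
      rw [hX, hX]
      refine Prod.ext ?_ ?_
      · exact H.neg_p _ _
      · exact H.neg_q _ _
    rw [h2]
    exact (h1 t).neg
  · show -γ (t + T) = -γ t
    rw [hT2]
  · intro h
    exact ht (neg_injective h)
  · have h3 := surrounds_image hS (ContinuousLinearEquiv.neg ℝ)
    have h4 : range (fun t => -γ t) = (ContinuousLinearEquiv.neg ℝ : (ℝ × ℝ) ≃L[ℝ] (ℝ × ℝ)) '' range γ := by
      rw [← range_comp]
      rfl
    rw [h4]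
    exact h3

theorem refl_sol (H : Hyp k p q) (hX : ∀ z, X z = (p z.1 z.2, q z.1 z.2)) (hγ : IsPerSol X γ)
    (hS : Surrounds (range γ)) :
    IsPerSol (fun z => (pr p z.1 z.2, qr q z.1 z.2)) (fun t => (-(γ (-t)).1, (γ (-t)).2)) ∧
      Surrounds (range (fun t => (((-(γ (-t)).1, (γ (-t)).2)) : ℝ × ℝ))) := by
  obtain ⟨h1, ⟨T, hT, hT2⟩, t, ht⟩ := hγ
  refine ⟨⟨fun t => ?_, ⟨T, hT, fun t => ?_⟩, -t, ?_⟩, ?_⟩
  · have h2 : HasDerivAt (fun t : ℝ => γ (-t)) (-X (γ (-t))) t := by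
      have h3 := (h1 (-t)).scomp t (hasDerivAt_neg t)
      rw [neg_one_smul] at h3
      exact h3
    have h4 : HasDerivAt (fun t : ℝ => (γ (-t)).1) (-X (γ (-t))).1 t := h2.fst
    have h5 : HasDerivAt (fun t : ℝ => (γ (-t)).2) (-X (γ (-t))).2 t := h2.snd
    have h6 := h4.neg.prodMk h5
    have h7 : (-(-X (γ (-t))).1, (-X (γ (-t))).2) =
        ((pr p (-(γ (-t)).1) (γ (-t)).2, qr q (-(γ (-t)).1) (γ (-t)).2) : ℝ × ℝ) := by
      unfold pr qr
      rw [hX, neg_neg]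
      refine Prod.ext ?_ ?_
      · show -(-(p (γ (-t)).1 (γ (-t)).2)) = _
        rw [neg_neg]
      · rfl
    rw [h7] at h6
    exact h6
  · have h2 : γ (-(t + T)) = γ (-t) := by
      rw [← hT2 (-(t + T))]
      congr 1
      ring
    show (-(γ (-(t + T))).1, (γ (-(t + T))).2) = (-(γ (-t)).1, (γ (-t)).2)
    rw [h2]
  · intro h
    apply ht
    have h2 : (-(γ (- -t)).1, (γ (- -t)).2) = (-(γ (-0)).1, (γ (-0)).2) := h
    rw [neg_neg, neg_zero] at h2
    obtain ⟨h5, h6⟩ := Prod.mk.inj h2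
    exact Prod.ext (neg_injective h5) h6
  · have h3 := surrounds_image hS ((ContinuousLinearEquiv.neg ℝ : ℝ ≃L[ℝ] ℝ).prodCongr
      (ContinuousLinearEquiv.refl ℝ ℝ))
    have h4 : range (fun t => (((-(γ (-t)).1, (γ (-t)).2)) : ℝ × ℝ)) =
        ((ContinuousLinearEquiv.neg ℝ : ℝ ≃L[ℝ] ℝ).prodCongr
      (ContinuousLinearEquiv.refl ℝ ℝ)) '' range γ := by
      ext z
      constructor
      · rintro ⟨s, rfl⟩
        exact ⟨γ (-s), ⟨-s, rfl⟩, rfl⟩
      · rintro ⟨_, ⟨s, rfl⟩, rfl⟩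
        refine ⟨-s, ?_⟩
        show (-(γ (- -s)).1, (γ (- -s)).2) = (-(γ s).1, (γ s).2)
        rw [neg_neg]
    rw [h4]
    exact h3

end Pool.Agent.CritPer.H
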