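import Pool.Agent.CritPer.Flow

set_option autoImplicit false

/-!
HD-REV.  Reversion of time.
If `γ` solves `z' = X z` then `t ↦ γ (-t)` and `t ↦ γ (T - t)` solve `z' = -X z`.  So the set of points on
periodic orbits, the orbits, the minimal periods, hence the period annulus and the property of being a center
are the same for `X` and `-X`.
-/

open Set Filter Topology

namespace Pool.Agent.CritPer.H

private theorem rev_vf (P Q : MvPolynomial (Fin 2) ℝ) :
    vf (-P) (-Q) = fun z => -(vf P Q z) := by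
  funext z
  show (MvPolynomial.eval ![z.1, z.2] (-P), MvPolynomial.eval ![z.1, z.2] (-Q)) =
    -(MvPolynomial.eval ![z.1, z.2] P, MvPolynomial.eval ![z.1, z.2] Q)
  rw [map_neg, map_neg, Prod.neg_mk]

private theorem rev_sol {X : ℝ × ℝ → ℝ × ℝ} {γ : ℝ → ℝ × ℝ} (h : IsSol X γ) (T : ℝ) :
    IsSol (fun z => -X z) (fun t => γ (T - t)) := by
  intro t
  have h1 : HasDerivAt (fun t : ℝ => T - t) (-1) t := (hasDerivAt_id t).const_sub T
  have h2 := (h (T - t)).scomp t h1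
  rw [neg_one_smul] at h2
  exact h2

private theorem rev_sol0 {X : ℝ × ℝ → ℝ × ℝ} {γ : ℝ → ℝ × ℝ} (h : IsSol X γ) :
    IsSol (fun z => -X z) (fun t => γ (-t)) := by
  have h1 := rev_sol h 0
  have h2 : (fun t : ℝ => γ (0 - t)) = fun t => γ (-t) := by
    funext t
    rw [zero_sub]
  rw [h2] at h1
  exact h1

private theorem rev_range (γ : ℝ → ℝ × ℝ) : range (fun t => γ (-t)) = range γ := by
  apply Subset.antisymm
  · rintro _ ⟨t, rfl⟩
    exact ⟨-t, rfl⟩
  · rintro _ ⟨t, rfl⟩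
    exact ⟨-t, by show γ (- -t) = γ t; rw [neg_neg]⟩

private theorem rev_cyc_le (X : ℝ × ℝ → ℝ × ℝ) : cyc X ⊆ cyc (fun z => -X z) := by
  rintro z ⟨γ, ⟨h1, ⟨T, hT, h2⟩, t, ht⟩, h3, h4⟩
  refine ⟨fun t => γ (-t), ⟨rev_sol0 h1, ⟨T, hT, fun t => ?_⟩, -t, ?_⟩, ?_, ?_⟩
  · show γ (-(t + T)) = γ (-t)
    have := h2 (-(t + T))
    rw [← this]
    congr 1
    ring
  · show γ (- -t) ≠ γ (-0)
    rw [neg_neg, neg_zero]
    exact ht
  · show γ (-0) = z
    rw [neg_zero]
    exact h3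
  · rw [rev_range]
    exact h4

private theorem rev_negneg (X : ℝ × ℝ → ℝ × ℝ) : (fun z => -(fun z => -X z) z) = X := by
  funext z
  exact neg_neg _

private theorem rev_cyc (X : ℝ × ℝ → ℝ × ℝ) : cyc (fun z => -X z) = cyc X := by
  apply Subset.antisymm
  · have h := rev_cyc_le (fun z => -X z)
    rw [rev_negneg] at h
    exact h
  · exact rev_cyc_le X

private theorem rev_annulus (X : ℝ × ℝ → ℝ × ℝ) : annulus (fun z => -X z) = annulus X := by
  unfold annulus
  rw [rev_cyc]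

private theorem rev_orbit_le (X : ℝ × ℝ → ℝ × ℝ) (z : ℝ × ℝ) :
    orbit X z ⊆ orbit (fun z => -X z) z := by
  rintro w ⟨γ, h1, h2, h3⟩
  refine ⟨fun t => γ (-t), rev_sol0 h1, ?_, ?_⟩
  · show γ (-0) = z
    rw [neg_zero]
    exact h2
  · rw [rev_range]
    exact h3

private theorem rev_orbit (X : ℝ × ℝ → ℝ × ℝ) (z : ℝ × ℝ) :
    orbit (fun z => -X z) z = orbit X z := by
  apply Subset.antisymm
  · have h := rev_orbit_le (fun z => -X z) z
    rw [rev_negneg] at h
    exact h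
  · exact rev_orbit_le X z

private theorem rev_min_le (X : ℝ × ℝ → ℝ × ℝ) (z : ℝ × ℝ) :
    {T | 0 < T ∧ ∃ γ, IsSol X γ ∧ γ 0 = z ∧ γ T = z} ⊆
      {T | 0 < T ∧ ∃ γ, IsSol (fun z => -X z) γ ∧ γ 0 = z ∧ γ T = z} := by
  rintro T ⟨hT, γ, h1, h2, h3⟩
  refine ⟨hT, fun t => γ (T - t), rev_sol h1 T, ?_, ?_⟩
  · show γ (T - 0) = z
    rw [sub_zero]
    exact h3
  · show γ (T - T) = z
    rw [sub_self]
    exact h2

private theorem rev_min (X : ℝ × ℝ → ℝ × ℝ) (z : ℝ × ℝ) :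
    minPeriod (fun z => -X z) z = minPeriod X z := by
  unfold minPeriod
  congr 1
  apply Subset.antisymm
  · have h := rev_min_le (fun z => -X z) z
    rw [rev_negneg] at h
    exact h
  · exact rev_min_le X z

theorem rev_center {P Q : MvPolynomial (Fin 2) ℝ} (h : IsCenter (vf P Q)) :
    IsCenter (vf (-P) (-Q)) := by
  rw [rev_vf]
  refine ⟨?_, ?_⟩
  · show -(vf P Q 0) = 0
    rw [h.1, neg_zero]
  · rw [rev_cyc]
    exact h.2

theorem rev_param {P Q : MvPolynomial (Fin 2) ℝ} {I : Set ℝ} {c : ℝ → ℝ × ℝ}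
    (h : IsParam (vf P Q) I c) : IsParam (vf (-P) (-Q)) I c := by
  rw [rev_vf]
  refine ⟨h.isOpen, h.ordConnected, h.nonempty, h.smooth, ?_, ?_, ?_⟩
  · intro s hs
    rw [rev_annulus]
    exact h.mem s hs
  · intro s hs h0
    apply h.transversal s hs
    have h1 : (deriv c s).1 * (-(vf P Q (c s))).2 - (deriv c s).2 * (-(vf P Q (c s))).1 = 0 := h0
    rw [Prod.fst_neg, Prod.snd_neg] at h1
    linarith
  · intro z hz hz0
    rw [rev_annulus] at hz
    rw [rev_orbit]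
    exact h.unique z hz hz0

theorem rev_critSet (P Q : MvPolynomial (Fin 2) ℝ) (I : Set ℝ) (c : ℝ → ℝ × ℝ) :
    critSet (vf (-P) (-Q)) I c = critSet (vf P Q) I c := by
  rw [rev_vf]
  have h : (fun r => minPeriod (fun z => -vf P Q z) (c r)) =
      fun r => minPeriod (vf P Q) (c r) := by
    funext r
    exact rev_min _ _
  unfold critSet
  rw [h]

end Pool.Agent.CritPer.H
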