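import Pool.Agent.CritPer.H.BasB

set_option autoImplicit false

/-!
HD-SHA.  The part of the outer orbit beyond `√a`: on `[√a, √(2a)]` the integrand of `xI` is at least
`1 / (√(3a) (5a)^k)` and the length of the interval is `(√2 - 1) √a`.
-/

open Set Filter Topology Polynomial MeasureTheory

namespace Pool.Agent.CritPer.H

open Pool.Agent.CritPer.L Pool.Agent.CritPer.M

theorem shA {n : ℕ} (hn : 1 ≤ n) (k : ℕ) : ∃ c : ℝ, 0 < c ∧ ∀ a : ℝ, 1 ≤ a →
    c ≤ a ^ k * xI S1 n k (4 * a) (Real.sqrt a) (Real.sqrt (2 * a)) := by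
  refine ⟨(Real.sqrt 2 - 1) / (Real.sqrt 3 * 5 ^ k), ?_, ?_⟩
  · have h2 : 1 < Real.sqrt 2 := by
      rw [Real.lt_sqrt (by norm_num)]
      norm_num
    have h3 : 0 < Real.sqrt 3 := Real.sqrt_pos.2 (by norm_num)
    have h4 : 0 < Real.sqrt 2 - 1 := by linarith
    positivity
  intro a ha
  have ha0 : 0 < a := by linarith
  have ha4 : 0 < 4 * a := by linarith
  have hok := ok_S1 (n := n) hn ha4
  have hs2 : Real.sqrt (2 * a) ^ 2 = 2 * a := Real.sq_sqrt (by linarith)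
  have hs1 : Real.sqrt a ^ 2 = a := Real.sq_sqrt ha0.le
  have hle : Real.sqrt a ≤ Real.sqrt (2 * a) := Real.sqrt_le_sqrt (by linarith)
  have hcont := xI_continuousOn hok (s := Real.sqrt (2 * a)) (by rw [hs2]; linarith) k
  have hcont' := hcont.mono (Icc_subset_Icc_left (Real.sqrt_nonneg a))
  have hint : IntervalIntegrable (fun x => 1 / (Real.sqrt (vs S1 n (4 * a) (x ^ 2)) *
      (x ^ 2 + vs S1 n (4 * a) (x ^ 2)) ^ k)) volume (Real.sqrt a) (Real.sqrt (2 * a)) := by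
    refine ContinuousOn.intervalIntegrable ?_
    rw [uIcc_of_le hle]
    exact hcont'
  have hbd : ∀ x ∈ Icc (Real.sqrt a) (Real.sqrt (2 * a)),
      1 / (Real.sqrt (3 * a) * (5 * a) ^ k) ≤ 1 / (Real.sqrt (vs S1 n (4 * a) (x ^ 2)) *
      (x ^ 2 + vs S1 n (4 * a) (x ^ 2)) ^ k) := by
    intro x hx
    have hx0 : 0 ≤ x := (Real.sqrt_nonneg a).trans hx.1
    have hu1 : a ≤ x ^ 2 := by
      rw [← hs1]
      exact pow_le_pow_left₀ (Real.sqrt_nonneg a) hx.1 2
    have hu2 : x ^ 2 ≤ 2 * a := by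
      rw [← hs2]
      exact pow_le_pow_left₀ hx0 hx.2 2
    have hv : vs S1 n (4 * a) (x ^ 2) = ve n (4 * a) (x ^ 2) :=
      vs_S1 hn ha4 ⟨by linarith, by linarith⟩
    have h1 := ve_le (n := n) hn (a := 4 * a) (u := x ^ 2) (by linarith) (by linarith)
    have h2 := ve_ge_half (n := n) hn (a := 4 * a) (u := x ^ 2) (by linarith) (by linarith)
    rw [hv]
    have hv0 : 0 < ve n (4 * a) (x ^ 2) := by linarith
    have h3 : Real.sqrt (ve n (4 * a) (x ^ 2)) ≤ Real.sqrt (3 * a) :=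
      Real.sqrt_le_sqrt (by linarith)
    have h4 : (x ^ 2 + ve n (4 * a) (x ^ 2)) ^ k ≤ (5 * a) ^ k :=
      pow_le_pow_left₀ (by linarith) (by linarith) k
    have h5 : 0 < Real.sqrt (ve n (4 * a) (x ^ 2)) := Real.sqrt_pos.2 hv0
    have h6 : 0 < (x ^ 2 + ve n (4 * a) (x ^ 2)) ^ k := pow_pos (by linarith) k
    exact one_div_le_one_div_of_le (mul_pos h5 h6)
      (mul_le_mul h3 h4 h6.le (Real.sqrt_nonneg _))
  have hI : (Real.sqrt (2 * a) - Real.sqrt a) * (1 / (Real.sqrt (3 * a) * (5 * a) ^ k)) ≤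
      xI S1 n k (4 * a) (Real.sqrt a) (Real.sqrt (2 * a)) := by
    have h := intervalIntegral.integral_mono_on hle
      (intervalIntegrable_const (c := 1 / (Real.sqrt (3 * a) * (5 * a) ^ k))) hint hbd
    rw [intervalIntegral.integral_const, smul_eq_mul] at h
    exact h
  have hpos : 0 < a ^ k := pow_pos ha0 k
  have e1 : (Real.sqrt 2 - 1) / (Real.sqrt 3 * 5 ^ k) =
      a ^ k * ((Real.sqrt (2 * a) - Real.sqrt a) * (1 / (Real.sqrt (3 * a) * (5 * a) ^ k))) := by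
    have h3 : Real.sqrt 3 ≠ 0 := (Real.sqrt_pos.2 (by norm_num)).ne'
    have h4 : Real.sqrt a ≠ 0 := (Real.sqrt_pos.2 ha0).ne'
    rw [Real.sqrt_mul (by norm_num) a, Real.sqrt_mul (by norm_num) a, mul_pow]
    field_simp
  rw [e1]
  exact mul_le_mul_of_nonneg_left hI hpos.le

end Pool.Agent.CritPer.H
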