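import Pool.Agent.CritPer.H.BasB

set_option autoImplicit false

/-!
HD-SHB.  The part of the inner orbit near its end point.
PLAN.  On the range of integration `t = cos^2 p ≥ 1 - η ≥ 1/2` (`p ≤ arccos √(1-η)`).  `Wr S1 n a p = √(ws (t))` and `vs (a t) = a (1-t) ws (t)` (`vs_eq_ws`), `ws_one` at `t = 1`.  With `z = a^n (1-t)`: `ve_lower` gives `vs (a t) ≥ a t^n (1 - exp (-z)) ≥ a t^n z / (1+z)`, so
`ws (t) ≥ t^n a^n / (1 + a^n (1-t))` (also at `t = 1`), `1 / Wr ≤ 2^n √(a^(-n) + sin^2 p) ≤ 2^n (1/√a + sin p)`.  `(a cos^2 p + Vp)^k ≥ (a/2)^k`.  So `pI ≤ 2^(n+k) a^(-k) ∫_0^θ (1/√a + sin p) dp`, `θ ≤ 2`, `∫ sin = 1 - cos θ = 1 - √(1-η) ≤ η`.  `C = 2^(n+k+1)`.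
-/

open Set Filter Topology Polynomial MeasureTheory

namespace Pool.Agent.CritPer.H

open Pool.Agent.CritPer.L Pool.Agent.CritPer.M

private theorem shB_exp {z : ℝ} (_hz : 0 ≤ z) : z ≤ (1 - Real.exp (-z)) * (1 + z) := by
  have h1 : z + 1 ≤ Real.exp z := Real.add_one_le_exp z
  have h2 : Real.exp (-z) * Real.exp z = 1 := by rw [← Real.exp_add]; simp
  have h3 : 0 < Real.exp (-z) := Real.exp_pos _
  nlinarith [mul_le_mul_of_nonneg_left h1 h3.le]

private theorem shB_ws {n : ℕ} (hn : 1 ≤ n) {a : ℝ} (ha : 1 ≤ a) {t : ℝ} (ht : 0 < t)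
    (ht1 : t ≤ 1) : a ^ n * t ^ n ≤ ws S1 n a t * (1 + a ^ n * (1 - t)) := by
  have ha0 : 0 < a := by linarith
  have h := ok_S1 hn ha0
  rcases ht1.eq_or_lt with h1 | h1
  · subst h1
    rw [ws_one h]
    simp [S1]
  · have hz : 0 < a ^ n * (1 - t) := mul_pos (pow_pos ha0 n) (by linarith)
    have hu : 0 < a * t := mul_pos ha0 ht
    have hua : a * t ≤ a := by nlinarith
    have h2 := ve_lower hn hu hua
    have h3 := vs_S1 hn ha0 (u := a * t) ⟨hu.le, hua⟩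
    have h4 := vs_eq_ws h (t := t) ⟨ht.le, ht1⟩
    rw [← h3, h4] at h2
    have e1 : a ^ (n - 1) * (a - a * t) = a ^ n * (1 - t) := by
      have : a ^ n = a ^ (n - 1) * a := by rw [← pow_succ, Nat.sub_add_cancel hn]
      rw [this]; ring
    have e2 : a ^ (n - 1) * (a * (1 - t) * ws S1 n a t) = a ^ n * (1 - t) * ws S1 n a t := by
      have : a ^ n = a ^ (n - 1) * a := by rw [← pow_succ, Nat.sub_add_cancel hn]
      rw [this]; ring
    rw [e1, e2, mul_pow] at h2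
    have h5 := shB_exp hz.le
    have h6 : 0 < a ^ n * t ^ n := mul_pos (pow_pos ha0 n) (pow_pos ht n)
    have h7 : a ^ n * t ^ n * (a ^ n * (1 - t)) ≤
        ws S1 n a t * (1 + a ^ n * (1 - t)) * (a ^ n * (1 - t)) := by
      calc a ^ n * t ^ n * (a ^ n * (1 - t)) ≤
          a ^ n * t ^ n * ((1 - Real.exp (-(a ^ n * (1 - t)))) * (1 + a ^ n * (1 - t))) :=
            mul_le_mul_of_nonneg_left h5 h6.le
        _ = (a ^ n * t ^ n * (1 - Real.exp (-(a ^ n * (1 - t))))) * (1 + a ^ n * (1 - t)) := by ring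
        _ ≤ (a ^ n * (1 - t) * ws S1 n a t) * (1 + a ^ n * (1 - t)) :=
            mul_le_mul_of_nonneg_right h2 (by linarith)
        _ = _ := by ring
    exact le_of_mul_le_mul_right h7 hz

private theorem shB_wr {n : ℕ} (hn : 1 ≤ n) {a : ℝ} (ha : 1 ≤ a) {p : ℝ} (hs : 0 ≤ Real.sin p)
    (hp : 1 / 2 ≤ Real.cos p ^ 2) :
    1 / Wr S1 n a p ≤ 2 ^ n * (1 / Real.sqrt a + Real.sin p) := by
  have ha0 : 0 < a := by linarith
  have h := ok_S1 hn ha0
  have hW := Wr_pos h p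
  have hsq : Wr S1 n a p ^ 2 = ws S1 n a (Real.cos p ^ 2) := by
    unfold Wr
    rw [Real.sq_sqrt (ws_pos h (Wf.cos_mem p)).le]
  have hwp : 0 < ws S1 n a (Real.cos p ^ 2) := ws_pos h (Wf.cos_mem p)
  have h1 := shB_ws hn ha (t := Real.cos p ^ 2) (by linarith) (Wf.cos_mem p).2
  have h2 : 1 - Real.cos p ^ 2 = Real.sin p ^ 2 := by
    rw [← Real.sin_sq_add_cos_sq p]; ring
  rw [h2] at h1
  have hsa : 0 < Real.sqrt a := Real.sqrt_pos.2 ha0
  have hsa2 : (1 / Real.sqrt a) ^ 2 = 1 / a := by rw [div_pow, Real.sq_sqrt ha0.le, one_pow]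
  have han : a ≤ a ^ n := by
    calc a = a ^ 1 := (pow_one a).symm
      _ ≤ a ^ n := pow_le_pow_right₀ ha hn
  have hpa : 0 < a ^ n := pow_pos ha0 n
  rw [div_le_iff₀ hW]

  have hX : 0 ≤ 2 ^ n * (1 / Real.sqrt a + Real.sin p) * Wr S1 n a p := by positivity
  have key : 1 ≤ (2 ^ n * (1 / Real.sqrt a + Real.sin p) * Wr S1 n a p) ^ 2 := by
    have e : (2 ^ n * (1 / Real.sqrt a + Real.sin p) * Wr S1 n a p) ^ 2 =
        4 ^ n * ((1 / Real.sqrt a + Real.sin p) ^ 2 * ws S1 n a (Real.cos p ^ 2)) := by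
      rw [mul_pow, mul_pow, hsq, ← pow_mul, mul_comm n 2, pow_mul]
      norm_num
      ring
    rw [e]
    have h3 : 1 / a + Real.sin p ^ 2 ≤ (1 / Real.sqrt a + Real.sin p) ^ 2 := by
      have : 0 ≤ 2 * (1 / Real.sqrt a) * Real.sin p := by positivity
      nlinarith
    have h4 : (1 / a ^ n + Real.sin p ^ 2) ≤ (1 / Real.sqrt a + Real.sin p) ^ 2 := by
      have : 1 / a ^ n ≤ 1 / a := one_div_le_one_div_of_le ha0 han
      linarith
    have h5 : (Real.cos p ^ 2) ^ n ≤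
        (1 / a ^ n + Real.sin p ^ 2) * ws S1 n a (Real.cos p ^ 2) := by
      have e2 : (1 / a ^ n + Real.sin p ^ 2) * ws S1 n a (Real.cos p ^ 2) =
          (ws S1 n a (Real.cos p ^ 2) * (1 + a ^ n * Real.sin p ^ 2)) / a ^ n := by
        field_simp
      rw [e2, le_div_iff₀ hpa]
      linarith
    have h6 : (1 / 2 : ℝ) ^ n ≤ (Real.cos p ^ 2) ^ n := pow_le_pow_left₀ (by norm_num) hp n
    have h7 : (1 / a ^ n + Real.sin p ^ 2) * ws S1 n a (Real.cos p ^ 2) ≤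
        (1 / Real.sqrt a + Real.sin p) ^ 2 * ws S1 n a (Real.cos p ^ 2) :=
      mul_le_mul_of_nonneg_right h4 hwp.le
    have h8 : (1 / 2 : ℝ) ^ n ≤ (1 / Real.sqrt a + Real.sin p) ^ 2 * ws S1 n a (Real.cos p ^ 2) :=
      h6.trans (h5.trans h7)
    have h9 : (4 : ℝ) ^ n * (1 / 2) ^ n = 2 ^ n := by
      rw [← mul_pow]; norm_num
    have h10 : (1 : ℝ) ≤ 2 ^ n := one_le_pow₀ (by norm_num)
    calc (1 : ℝ) ≤ 2 ^ n := h10
      _ = 4 ^ n * (1 / 2) ^ n := h9.symm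
      _ ≤ _ := mul_le_mul_of_nonneg_left h8 (by positivity)
  by_contra hlt
  push Not at hlt
  have : (2 ^ n * (1 / Real.sqrt a + Real.sin p) * Wr S1 n a p) ^ 2 < 1 := by
    have := pow_lt_pow_left₀ hlt hX (two_ne_zero)
    simpa using this
  linarith

theorem shB {n : ℕ} (hn : 1 ≤ n) (k : ℕ) : ∃ C : ℝ, 0 < C ∧ ∀ η : ℝ, 0 < η → η ≤ 1 / 2 →
    ∀ a : ℝ, 1 ≤ a → a ^ k * pI S1 n k ((1 - η) * a) a ≤ C * (η + 1 / Real.sqrt a) := by
  refine ⟨2 ^ n * 2 ^ k * 2, by positivity, fun η hη hη2 a ha => ?_⟩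
  have ha0 : 0 < a := by linarith
  have h := ok_S1 hn ha0
  have hca : (1 - η) * a / a = 1 - η := by field_simp
  have hsa : 0 < Real.sqrt a := Real.sqrt_pos.2 ha0
  have hq1 : Real.sqrt (1 - η) ≤ 1 := by
    exact Real.sqrt_le_one.2 (by linarith)
  have hq0 : 0 ≤ Real.sqrt (1 - η) := Real.sqrt_nonneg _
  have hq2 : 1 - η ≤ Real.sqrt (1 - η) := by
    have e : Real.sqrt (1 - η) * Real.sqrt (1 - η) = 1 - η := Real.mul_self_sqrt (by linarith)
    nlinarith
  unfold pI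
  rw [hca]
  set θ := Real.arccos (Real.sqrt (1 - η)) with hθ
  have hθ0 : 0 ≤ θ := Real.arccos_nonneg _
  have hθ2 : θ ≤ Real.pi / 2 := Real.arccos_le_pi_div_two.2 hq0
  have hcosθ : Real.cos θ = Real.sqrt (1 - η) := Real.cos_arccos (by linarith) hq1
  have hpi : Real.pi ≤ 4 := Real.pi_le_four
  have hFc : Continuous (fun p => 1 / (Wr S1 n a p * (a * Real.cos p ^ 2 + Vp S1 n a p) ^ k)) := by
    refine Continuous.div continuous_const ?_ ?_
    · exact (continuous_Wr h).mul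
        (((continuous_const.mul (Real.continuous_cos.pow 2)).add (continuous_Vp h)).pow k)
    · intro p
      exact (mul_pos (Wr_pos h p) (pow_pos (uv_pos h p) k)).ne'
  rw [← intervalIntegral.integral_const_mul]
  have hbd : ∀ p ∈ Icc 0 θ, a ^ k * (1 / (Wr S1 n a p * (a * Real.cos p ^ 2 + Vp S1 n a p) ^ k)) ≤
      2 ^ n * 2 ^ k * (1 / Real.sqrt a + Real.sin p) := by
    intro p hp
    have hs : 0 ≤ Real.sin p :=
      Real.sin_nonneg_of_nonneg_of_le_pi hp.1 (by linarith [hp.2, Real.pi_pos])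
    have hc1 : Real.sqrt (1 - η) ≤ Real.cos p := by
      rw [← hcosθ]
      exact Real.cos_le_cos_of_nonneg_of_le_pi hp.1 (by linarith [Real.pi_pos]) hp.2
    have hc2 : 1 / 2 ≤ Real.cos p ^ 2 := by
      have e : Real.sqrt (1 - η) ^ 2 = 1 - η := Real.sq_sqrt (by linarith)
      have := pow_le_pow_left₀ hq0 hc1 2
      linarith
    have h1 := shB_wr hn ha hs hc2
    have hV : 0 ≤ Vp S1 n a p := by
      rw [Vp_eq h p]
      positivity
    have h2 : a / 2 ≤ a * Real.cos p ^ 2 + Vp S1 n a p := by nlinarith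
    have h3 : (a / 2) ^ k ≤ (a * Real.cos p ^ 2 + Vp S1 n a p) ^ k :=
      pow_le_pow_left₀ (by linarith) h2 k
    have h4 : a ^ k / (a * Real.cos p ^ 2 + Vp S1 n a p) ^ k ≤ 2 ^ k := by
      rw [div_le_iff₀ (pow_pos (uv_pos h p) k)]
      calc a ^ k = 2 ^ k * (a / 2) ^ k := by rw [← mul_pow]; congr 1; ring
        _ ≤ _ := mul_le_mul_of_nonneg_left h3 (by positivity)
    have e : a ^ k * (1 / (Wr S1 n a p * (a * Real.cos p ^ 2 + Vp S1 n a p) ^ k)) =
        (1 / Wr S1 n a p) * (a ^ k / (a * Real.cos p ^ 2 + Vp S1 n a p) ^ k) := by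
      have := (Wr_pos h p).ne'
      have := (pow_pos (uv_pos h p) k).ne'
      field_simp
    rw [e]
    calc (1 / Wr S1 n a p) * (a ^ k / (a * Real.cos p ^ 2 + Vp S1 n a p) ^ k) ≤
        (2 ^ n * (1 / Real.sqrt a + Real.sin p)) * 2 ^ k :=
          mul_le_mul h1 h4 (by have := uv_pos h p; positivity) (by positivity)
      _ = _ := by ring
  have hint : (∫ p in (0 : ℝ)..θ, a ^ k *
      (1 / (Wr S1 n a p * (a * Real.cos p ^ 2 + Vp S1 n a p) ^ k))) ≤
      ∫ p in (0 : ℝ)..θ, 2 ^ n * 2 ^ k * (1 / Real.sqrt a + Real.sin p) := by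
    refine intervalIntegral.integral_mono_on hθ0 ?_ ?_ hbd
    · exact (continuous_const.mul hFc).intervalIntegrable _ _
    · exact (continuous_const.mul (continuous_const.add Real.continuous_sin)).intervalIntegrable _ _
  have hval : (∫ p in (0 : ℝ)..θ, 2 ^ n * 2 ^ k * (1 / Real.sqrt a + Real.sin p)) =
      2 ^ n * 2 ^ k * (θ * (1 / Real.sqrt a) + (1 - Real.cos θ)) := by
    rw [intervalIntegral.integral_const_mul, intervalIntegral.integral_add
      (continuous_const.intervalIntegrable _ _) (Real.continuous_sin.intervalIntegrable _ _),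
      intervalIntegral.integral_const, integral_sin]
    simp
  rw [hval, hcosθ] at hint
  refine hint.trans ?_
  have h5 : θ * (1 / Real.sqrt a) ≤ 2 * (1 / Real.sqrt a) :=
    mul_le_mul_of_nonneg_right (by linarith) (by positivity)
  have h6 : θ * (1 / Real.sqrt a) + (1 - Real.sqrt (1 - η)) ≤ 2 * (η + 1 / Real.sqrt a) := by
    linarith
  calc 2 ^ n * 2 ^ k * (θ * (1 / Real.sqrt a) + (1 - Real.sqrt (1 - η))) ≤
      2 ^ n * 2 ^ k * (2 * (η + 1 / Real.sqrt a)) :=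
        mul_le_mul_of_nonneg_left h6 (by positivity)
    _ = _ := by ring

end Pool.Agent.CritPer.H
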