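import Pool.Agent.CritPer.H.BasB

set_option autoImplicit false

/-!
HD-SHC.  The two orbits agree up to an exponentially small error away from the end point.
With `v = vs S1 n a u`, `v' = vs S1 n (4a) u` and `ε = 8 exp (-η a) ≤ 1/2` one has `v ≥ (1-ε) v'`, hence
`1/(√v (u+v)^k) ≤ (1 + 2^(k+2) ε) / (√v' (u+v')^k)`; the integrand on the right is at most `K / (1 + x^2)`.
-/

open Set Filter Topology Polynomial MeasureTheory

namespace Pool.Agent.CritPer.H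

open Pool.Agent.CritPer.L Pool.Agent.CritPer.M

private theorem shc_pow (m : ℕ) {y : ℝ} (h0 : 0 ≤ y) (h1 : y ≤ 1) :
    (1 + y) ^ m ≤ 1 + (2 ^ m - 1) * y := by
  induction m with
  | zero => simp
  | succ m ih =>
    have h2 : (1 : ℝ) ≤ 2 ^ m := one_le_pow₀ (by norm_num)
    have h3 := mul_le_mul_of_nonneg_right ih (by linarith : (0 : ℝ) ≤ 1 + y)
    have h4 : y * y ≤ y := by nlinarith
    have h5 : (2 ^ m - 1) * (y * y) ≤ (2 ^ m - 1) * y :=
      mul_le_mul_of_nonneg_left h4 (by linarith)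
    rw [pow_succ, pow_succ]
    have e : (1 + (2 ^ m - 1) * y) * (1 + y) = 1 + y + (2 ^ m - 1) * y + (2 ^ m - 1) * (y * y) := by
      ring
    have e2 : 1 + (2 ^ m * 2 - 1) * y = 1 + y + (2 ^ m - 1) * y + (2 ^ m - 1) * y := by ring
    rw [e] at h3
    rw [e2]
    linarith

/-- the pointwise comparison of the integrands -/
private theorem shc_pt (k : ℕ) {u v v' e : ℝ} (hu : 0 ≤ u) (hv : 0 < v) (hv' : 0 < v')
    (he : 0 ≤ e) (he' : e ≤ 1 / 2) (h : (1 - e) * v' ≤ v) :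
    1 / (Real.sqrt v * (u + v) ^ k) ≤
      (1 + 2 ^ (k + 2) * e) * (1 / (Real.sqrt v' * (u + v') ^ k)) := by
  have hd : 0 ≤ 1 - e := by linarith
  have hs : (1 - e) * Real.sqrt v' ≤ Real.sqrt v := by
    apply Real.le_sqrt_of_sq_le
    rw [mul_pow, Real.sq_sqrt hv'.le]
    refine le_trans ?_ h
    apply mul_le_mul_of_nonneg_right _ hv'.le
    nlinarith
  have hp : (1 - e) ^ k * (u + v') ^ k ≤ (u + v) ^ k := by
    rw [← mul_pow]
    apply pow_le_pow_left₀ (mul_nonneg hd (by linarith))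
    nlinarith
  have hP : 0 < Real.sqrt v * (u + v) ^ k :=
    mul_pos (Real.sqrt_pos.2 hv) (pow_pos (by linarith) k)
  have hQ : 0 < Real.sqrt v' * (u + v') ^ k :=
    mul_pos (Real.sqrt_pos.2 hv') (pow_pos (by linarith) k)
  have hPQ : (1 - e) ^ (k + 1) * (Real.sqrt v' * (u + v') ^ k) ≤ Real.sqrt v * (u + v) ^ k := by
    have h1 := mul_le_mul hs hp (mul_nonneg (pow_nonneg hd k) (pow_nonneg (by linarith) k))
      (Real.sqrt_nonneg v)
    refine le_trans (le_of_eq ?_) h1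
    ring
  have hB : (1 : ℝ) ≤ (1 + 2 ^ (k + 2) * e) * (1 - e) ^ (k + 1) := by
    have h1 := shc_pow (k + 1) (y := 2 * e) (by linarith) (by linarith)
    have h2 : (1 + (2 ^ (k + 1) - 1) * (2 * e)) ≤ 1 + 2 ^ (k + 2) * e := by
      have : 1 + 2 ^ (k + 2) * e - (1 + (2 ^ (k + 1) - 1) * (2 * e)) = 2 * e := by ring
      linarith
    have h3 : 1 ≤ ((1 + 2 * e) * (1 - e)) ^ (k + 1) := one_le_pow₀ (by nlinarith)
    rw [mul_pow] at h3
    exact h3.trans (mul_le_mul_of_nonneg_right (h1.trans h2) (pow_nonneg hd _))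
  have hB0 : 0 ≤ 1 + 2 ^ (k + 2) * e := by positivity
  rw [mul_one_div, div_le_div_iff₀ hP hQ, one_mul]
  calc Real.sqrt v' * (u + v') ^ k = 1 * (Real.sqrt v' * (u + v') ^ k) := (one_mul _).symm
    _ ≤ ((1 + 2 ^ (k + 2) * e) * (1 - e) ^ (k + 1)) * (Real.sqrt v' * (u + v') ^ k) :=
        mul_le_mul_of_nonneg_right hB hQ.le
    _ = (1 + 2 ^ (k + 2) * e) * ((1 - e) ^ (k + 1) * (Real.sqrt v' * (u + v') ^ k)) := by ring
    _ ≤ (1 + 2 ^ (k + 2) * e) * (Real.sqrt v * (u + v) ^ k) := mul_le_mul_of_nonneg_left hPQ hB0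

/-- the bound of the integrand for `4 a` -/
private theorem shc_dom {n k : ℕ} (hn : 1 ≤ n) (hk : 1 ≤ k) : ∃ K : ℝ, 0 < K ∧ ∀ a : ℝ, 2 ≤ a →
    ∀ x : ℝ, 0 ≤ x → 2 * x ^ 2 ≤ a →
      1 / (Real.sqrt (ve n a (x ^ 2)) * (x ^ 2 + ve n a (x ^ 2)) ^ k) ≤ K * (1 / (1 + x ^ 2)) := by
  obtain ⟨c, hc, hcs⟩ := ve_ge_small hn
  have hM : 0 < Real.sqrt c * c ^ k := mul_pos (Real.sqrt_pos.2 hc) (pow_pos hc k)
  refine ⟨2 * (1 / (Real.sqrt c * c ^ k)) + 4, by positivity, ?_⟩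
  intro a ha x hx hxa
  have hx2 : 0 ≤ x ^ 2 := sq_nonneg x
  rcases le_total x 1 with h1 | h1
  · have hx1 : x ^ 2 ≤ 1 := pow_le_one₀ hx h1
    have hv := hcs a ha (x ^ 2) hx2 hx1
    have hle : Real.sqrt c * c ^ k ≤
        Real.sqrt (ve n a (x ^ 2)) * (x ^ 2 + ve n a (x ^ 2)) ^ k :=
      mul_le_mul (Real.sqrt_le_sqrt hv) (pow_le_pow_left₀ hc.le (by linarith) k)
        (pow_nonneg hc.le k) (Real.sqrt_nonneg _)
    have h2 := one_div_le_one_div_of_le hM hle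
    refine h2.trans ?_
    have hM' : 0 < 1 / (Real.sqrt c * c ^ k) := one_div_pos.2 hM
    rw [mul_one_div, le_div_iff₀ (by positivity)]
    nlinarith
  · have hx1 : 1 ≤ x ^ 2 := one_le_pow₀ h1
    have hv := ve_ge_half hn hx1 hxa
    have hsq : x / 2 ≤ Real.sqrt (ve n a (x ^ 2)) := by
      apply Real.le_sqrt_of_sq_le
      refine le_trans ?_ hv
      nlinarith
    have hpw : x ^ 2 ≤ (x ^ 2 + ve n a (x ^ 2)) ^ k := by
      have h3 : x ^ 2 ≤ x ^ 2 + ve n a (x ^ 2) := by linarith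
      have h4 : (x ^ 2 + ve n a (x ^ 2)) ^ 1 ≤ (x ^ 2 + ve n a (x ^ 2)) ^ k :=
        pow_le_pow_right₀ (hx1.trans h3) hk
      rw [pow_one] at h4
      exact h3.trans h4
    have hle : x ^ 2 / 2 ≤ Real.sqrt (ve n a (x ^ 2)) * (x ^ 2 + ve n a (x ^ 2)) ^ k := by
      have h5 : (1 / 2) * x ^ 2 ≤ Real.sqrt (ve n a (x ^ 2)) * (x ^ 2 + ve n a (x ^ 2)) ^ k :=
        mul_le_mul (le_trans (by linarith) hsq) hpw hx2 (Real.sqrt_nonneg _)
      linarith
    have h2 := one_div_le_one_div_of_le (by positivity : 0 < x ^ 2 / 2) hle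
    refine h2.trans ?_
    have hM' : 0 < 1 / (Real.sqrt c * c ^ k) := one_div_pos.2 hM
    have h6 : 1 / (x ^ 2 / 2) ≤ 4 * (1 / (1 + x ^ 2)) := by
      rw [mul_one_div, div_le_div_iff₀ (by positivity) (by positivity)]
      nlinarith
    refine h6.trans ?_
    apply mul_le_mul_of_nonneg_right _ (by positivity)
    linarith

theorem shC {n k : ℕ} (hn : 1 ≤ n) (hk : 1 ≤ k) : ∃ C : ℝ, 0 < C ∧ ∀ η : ℝ, 0 < η → η ≤ 1 / 2 →
    ∀ a : ℝ, 2 ≤ a → 1 ≤ η * a → 8 * Real.exp (-(η * a)) ≤ 1 / 2 →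
      xI S1 n k a 0 (Real.sqrt ((1 - η) * a)) - xI S1 n k (4 * a) 0 (Real.sqrt ((1 - η) * a)) ≤
        C * Real.exp (-(η * a)) := by
  obtain ⟨K, hK, hdom⟩ := shc_dom hn hk
  refine ⟨2 ^ (k + 2) * 8 * (K * 2), by positivity, ?_⟩
  intro η hη hη' a ha h1 he
  set e : ℝ := 8 * Real.exp (-(η * a)) with hedef
  have he0 : 0 ≤ e := by positivity
  have ha0 : 0 < a := by linarith
  have hc0 : 0 ≤ (1 - η) * a := mul_nonneg (by linarith) ha0.le
  have hca : (1 - η) * a < a := by nlinarith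
  set s : ℝ := Real.sqrt ((1 - η) * a) with hsdef
  have hs0 : 0 ≤ s := Real.sqrt_nonneg _
  have hs2 : s ^ 2 = (1 - η) * a := Real.sq_sqrt hc0
  have hok1 : Ok S1 n a := ok_S1 hn ha0
  have hok2 : Ok S1 n (4 * a) := ok_S1 hn (by linarith)
  have hc1 := xI_continuousOn hok1 (s := s) (by rw [hs2]; exact hca) k
  have hc2 := xI_continuousOn hok2 (s := s) (by rw [hs2]; linarith) k
  have hi1 : IntervalIntegrable (fun x : ℝ => 1 / (Real.sqrt (vs S1 n a (x ^ 2)) *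
      (x ^ 2 + vs S1 n a (x ^ 2)) ^ k)) volume 0 s :=
    ContinuousOn.intervalIntegrable (by rwa [uIcc_of_le hs0])
  have hi2 : IntervalIntegrable (fun x : ℝ => 1 / (Real.sqrt (vs S1 n (4 * a) (x ^ 2)) *
      (x ^ 2 + vs S1 n (4 * a) (x ^ 2)) ^ k)) volume 0 s :=
    ContinuousOn.intervalIntegrable (by rwa [uIcc_of_le hs0])
  have hi3 : IntervalIntegrable (fun x : ℝ => 2 ^ (k + 2) * e * (K * (1 / (1 + x ^ 2)))) volume 0 s := by
    apply Continuous.intervalIntegrable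
    refine continuous_const.mul (continuous_const.mul (continuous_const.div (by fun_prop) ?_))
    intro x
    positivity
  have hpt : ∀ x ∈ Icc 0 s, 1 / (Real.sqrt (vs S1 n a (x ^ 2)) * (x ^ 2 + vs S1 n a (x ^ 2)) ^ k) -
      1 / (Real.sqrt (vs S1 n (4 * a) (x ^ 2)) * (x ^ 2 + vs S1 n (4 * a) (x ^ 2)) ^ k) ≤
      2 ^ (k + 2) * e * (K * (1 / (1 + x ^ 2))) := by
    intro x hx
    have hx2 : 0 ≤ x ^ 2 := sq_nonneg x
    have hxs : x ^ 2 ≤ (1 - η) * a := by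
      rw [← hs2]
      exact pow_le_pow_left₀ hx.1 hx.2 2
    have hm1 : x ^ 2 ∈ Ico 0 a := ⟨hx2, by linarith⟩
    have hm2 : x ^ 2 ∈ Ico 0 (4 * a) := ⟨hx2, by linarith⟩
    have hp1 := hok1.pos hm1
    have hp2 := hok2.pos hm2
    have e1 := vs_S1 hn ha0 (Ico_subset_Icc_self hm1)
    have e2 := vs_S1 hn (by linarith : 0 < 4 * a) (Ico_subset_Icc_self hm2)
    rw [e1] at hp1 ⊢
    rw [e2] at hp2 ⊢
    have hr := ve_ratio hn hη hη' ha h1 (by linarith : a ≤ 4 * a) hx2 hxs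
    have hr' : (1 - e) * ve n (4 * a) (x ^ 2) ≤ ve n a (x ^ 2) := by
      rw [← hedef] at hr
      linarith
    have hq := shc_pt k hx2 hp1 hp2 he0 he hr'
    have hd := hdom (4 * a) (by linarith) x hx.1 (by nlinarith)
    have hd' := mul_le_mul_of_nonneg_left hd (by positivity : 0 ≤ 2 ^ (k + 2) * e)
    rw [add_mul, one_mul] at hq
    linarith
  unfold xI
  rw [← intervalIntegral.integral_sub hi1 hi2]
  refine (intervalIntegral.integral_mono_on hs0 (hi1.sub hi2) hi3 hpt).trans ?_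
  rw [intervalIntegral.integral_const_mul, intervalIntegral.integral_const_mul,
    integral_one_div_one_add_sq, Real.arctan_zero, sub_zero]
  have hat : Real.arctan s ≤ 2 := (Real.arctan_lt_pi_div_two s).le.trans (by linarith [Real.pi_le_four])
  have h2 : 2 ^ (k + 2) * e * (K * Real.arctan s) ≤ 2 ^ (k + 2) * e * (K * 2) :=
    mul_le_mul_of_nonneg_left (mul_le_mul_of_nonneg_left hat hK.le) (by positivity)
  refine h2.trans (le_of_eq ?_)
  rw [hedef]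
  ring

end Pool.Agent.CritPer.H
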