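import Pool.Agent.CritPer.H.ShA
import Pool.Agent.CritPer.H.ShB
import Pool.Agent.CritPer.H.ShC

set_option autoImplicit false

/-!
HD-SHD.  The period is not monotone in the example.
PLAN.  `c = (1-η) a`.  `Ts_split` at `(2a, 4a)` and at `(c, a)`: `Ts (4a) ≥ 4 xI_{4a} (0, √(2a))` (`pI_nonneg`), `= 4 (xI (0, √c) + xI (√c, √a) + xI (√a, √(2a)))` (`xI_add`), drop the middle one (`xI_nonneg`); `Ts a = 4 (pI (c, a) + xI_a (0, √c))`.  So
`a^k (Ts (4a) - Ts a) / 4 ≥ c₁ - C (η + 1/√a) - C' a^k exp (-η a)` by `shA`, `shB`, `shC`.  Choose `η` with `C η ≤ c₁/4`, `η ≤ 1/2`, then `a` large (`a^k exp (-η a) → 0`: `Real.tendsto_pow_mul_exp_neg_atTop_nhds_zero` after scaling).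
-/

open Set Filter Topology Polynomial MeasureTheory

namespace Pool.Agent.CritPer.H

open Pool.Agent.CritPer.L Pool.Agent.CritPer.M

theorem shD {n k : ℕ} (hn : 1 ≤ n) (hk : 1 ≤ k) : ∃ a : ℝ, 0 < a ∧
    Ts S1 n k a < Ts S1 n k (4 * a) := by
  obtain ⟨c₁, hc₁, hA⟩ := shA hn k
  obtain ⟨CB, hCB, hB⟩ := shB hn k
  obtain ⟨CC, hCC, hC⟩ := shC hn hk
  obtain ⟨η, hη, hη', hη''⟩ : ∃ η : ℝ, 0 < η ∧ η ≤ 1 / 2 ∧ CB * η ≤ c₁ / 4 := by
    refine ⟨min (1 / 2) (c₁ / (4 * CB)), lt_min (by norm_num) (by positivity), min_le_left _ _, ?_⟩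
    have h1 : CB * min (1 / 2) (c₁ / (4 * CB)) ≤ CB * (c₁ / (4 * CB)) :=
      mul_le_mul_of_nonneg_left (min_le_right _ _) hCB.le
    have h2 : CB * (c₁ / (4 * CB)) = c₁ / 4 := by
      field_simp
    linarith
  have hlin : Tendsto (fun a : ℝ => η * a) atTop atTop := tendsto_id.const_mul_atTop hη
  have ev1 : ∀ᶠ a : ℝ in atTop, CB * (1 / Real.sqrt a) < c₁ / 4 := by
    have h1 : Tendsto (fun a : ℝ => CB * (1 / Real.sqrt a)) atTop (𝓝 (CB * 0)) := by
      refine Tendsto.const_mul CB ?_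
      simp only [one_div]
      exact tendsto_inv_atTop_zero.comp Real.tendsto_sqrt_atTop
    rw [mul_zero] at h1
    exact h1.eventually_lt_const (by positivity)
  have ev2 : ∀ᶠ a : ℝ in atTop, CC * (a ^ k * Real.exp (-(η * a))) < c₁ / 4 := by
    have h1 : Tendsto (fun a : ℝ => (η * a) ^ k * Real.exp (-(η * a))) atTop (𝓝 0) :=
      (Real.tendsto_pow_mul_exp_neg_atTop_nhds_zero k).comp hlin
    have h2 : Tendsto (fun a : ℝ => CC * (a ^ k * Real.exp (-(η * a)))) atTop (𝓝 0) := by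
      have h3 := h1.const_mul (CC * (η ^ k)⁻¹)
      rw [mul_zero] at h3
      refine h3.congr fun a => ?_
      rw [mul_pow]
      field_simp
    exact h2.eventually_lt_const (by positivity)
  have ev3 : ∀ᶠ a : ℝ in atTop, Real.exp (-(η * a)) < 1 / 16 := by
    have h1 : Tendsto (fun a : ℝ => Real.exp (-(η * a))) atTop (𝓝 0) :=
      Real.tendsto_exp_neg_atTop_nhds_zero.comp hlin
    exact h1.eventually_lt_const (by norm_num)
  obtain ⟨a, h1, h2, h3, h4, h5⟩ := (ev1.and (ev2.and (ev3.and ((eventually_ge_atTop (2 : ℝ)).and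
    (hlin.eventually_ge_atTop 1))))).exists
  have ha : 0 < a := by linarith
  refine ⟨a, ha, ?_⟩
  have okA : Ok S1 n a := ok_S1 hn ha
  have okB : Ok S1 n (4 * a) := ok_S1 hn (by linarith)
  have hc : 0 < (1 - η) * a := mul_pos (by linarith) ha
  have hca : (1 - η) * a < a := by nlinarith
  have sq1 : Real.sqrt ((1 - η) * a) ≤ Real.sqrt a := Real.sqrt_le_sqrt hca.le
  have sq2 : Real.sqrt a ≤ Real.sqrt (2 * a) := Real.sqrt_le_sqrt (by linarith)
  have sq3 : Real.sqrt (2 * a) ^ 2 < 4 * a := by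
    rw [Real.sq_sqrt (by linarith)]
    linarith
  have sq4 : Real.sqrt a ^ 2 < 4 * a := by
    rw [Real.sq_sqrt ha.le]
    linarith
  have T4 := Pool.Agent.CritPer.M.Ts_split okB (c := 2 * a) (by linarith) (by linarith) k
  have Ta := Pool.Agent.CritPer.M.Ts_split okA hc hca k
  have p4 := Pool.Agent.CritPer.M.pI_nonneg okB (c := 2 * a) (by linarith) (by linarith) k
  have ad1 := Pool.Agent.CritPer.M.xI_add okB (le_refl 0) (Real.sqrt_nonneg a) sq2 sq3 k
  have ad2 := Pool.Agent.CritPer.M.xI_add okB (le_refl 0) (Real.sqrt_nonneg ((1 - η) * a)) sq1 sq4 k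
  have nn := Pool.Agent.CritPer.M.xI_nonneg okB (Real.sqrt_nonneg ((1 - η) * a)) sq1 sq4 k
  have b1 := hA a (by linarith)
  have b2 := hB η hη hη' a (by linarith)
  have b3 := hC η hη hη' a h4 h5 (by linarith)
  have hak : 0 < a ^ k := pow_pos ha k
  have b4 : a ^ k * (xI S1 n k a 0 (Real.sqrt ((1 - η) * a)) -
      xI S1 n k (4 * a) 0 (Real.sqrt ((1 - η) * a))) ≤ CC * (a ^ k * Real.exp (-(η * a))) := by
    have h6 := mul_le_mul_of_nonneg_left b3 hak.le
    linarith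
  have b5 : CB * (η + 1 / Real.sqrt a) = CB * η + CB * (1 / Real.sqrt a) := by ring
  have key : 0 < a ^ k * (xI S1 n k (4 * a) (Real.sqrt a) (Real.sqrt (2 * a)) -
      pI S1 n k ((1 - η) * a) a - (xI S1 n k a 0 (Real.sqrt ((1 - η) * a)) -
      xI S1 n k (4 * a) 0 (Real.sqrt ((1 - η) * a)))) := by
    rw [mul_sub, mul_sub]
    linarith
  have key2 := (mul_pos_iff_of_pos_left hak).1 key
  rw [Ta, T4, ad1, ad2]
  linarith

end Pool.Agent.CritPer.H
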