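import Pool.Agent.CritPer.H.ShD
import Pool.Agent.CritPer.M.Center
import Pool.Agent.CritPer.M.Count
import Pool.Agent.CritPer.M.Per

set_option autoImplicit false

/-!
HD-SHE.  The example has a critical period.
PLAN.  Pattern: `le_Nkl` at the beginning of Pool/Agent/CritPer/M/Final.lean, with `S = S1`, `n = k`, `M = 2`, `I = Prm S1 k`: `count_pairs` with the pairs `(√a₀, √a)`, `(√a, √(4a))`: `a` from `shD`, `a₀ < a` with `Ts a₀ > Ts a` from `Ts_small` (Small.lean, the period tends to infinity at `0`).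
`S1.coeff 0 = 1 > 0`.  `P = PL k`, `Q = QL S1 k k` (`homog_PL`, `homog_QL`, `2 (k + k) + 1 = 4 k + 1`), `isCenter_L`, `isParam_L` (those of `M`).  `px`, `mono`: `eval ![x, y] (PL k) = y (x^2 + y^2)^k` (`vf_L` or unfold); monotone in `y`: for `0 ≤ y ≤ y'` a product of nonnegative increasing functions, for
`y ≤ y' ≤ 0` by oddness, for `y ≤ 0 ≤ y'` by the signs (or: `monotone_of_odd_of_monotoneOn_nonneg`).
-/

open Set Filter Topology Polynomial MeasureTheory

namespace Pool.Agent.CritPer.H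

open Pool.Agent.CritPer.L Pool.Agent.CritPer.M

private theorem she_eval (k : ℕ) (x y : ℝ) :
    MvPolynomial.eval ![x, y] (PL k) = y * (x ^ 2 + y ^ 2) ^ k := by
  simp [PL, FF]

private theorem she_mono (k : ℕ) (x : ℝ) :
    Monotone (fun y : ℝ => MvPolynomial.eval ![x, y] (PL k)) := by
  have h1 : (fun y : ℝ => MvPolynomial.eval ![x, y] (PL k)) = fun y : ℝ => y * (x ^ 2 + y ^ 2) ^ k := by
    funext y
    exact she_eval k x y
  rw [h1]
  refine monotone_of_odd_of_monotoneOn_nonneg (fun y => ?_) ?_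
  · rw [neg_sq]
    ring
  · intro y hy y' hy' hyy'
    have hy0 : 0 ≤ y := hy
    have hy0' : 0 ≤ y' := hy'
    have h2 : x ^ 2 + y ^ 2 ≤ x ^ 2 + y' ^ 2 := by nlinarith
    have h3 : (x ^ 2 + y ^ 2) ^ k ≤ (x ^ 2 + y' ^ 2) ^ k :=
      pow_le_pow_left₀ (by positivity) h2 k
    exact mul_le_mul hyy' h3 (by positivity) hy0'

theorem sharp {k : ℕ} (hk : 1 ≤ k) : ∃ P Q : MvPolynomial (Fin 2) ℝ,
    P.IsHomogeneous (2 * k + 1) ∧ Q.IsHomogeneous (4 * k + 1) ∧ IsCenter (vf P Q) ∧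
      (∀ x : ℝ, MvPolynomial.eval ![x, 0] P = 0) ∧
      (∀ x : ℝ, Monotone (fun y : ℝ => MvPolynomial.eval ![x, y] P)) ∧
      ∃ (I : Set ℝ) (c : ℝ → ℝ × ℝ), IsParam (vf P Q) I c ∧
        1 ≤ (critSet (vf P Q) I c).encard := by
  have h0 : 0 < S1.coeff 0 := by rw [S1_coeff_zero]; exact one_pos
  obtain ⟨a, ha, hlt⟩ := shD (n := k) (k := k) hk hk
  have hsm : ∀ᶠ x in 𝓝[>] (0 : ℝ), Ts S1 k k a < Ts S1 k k x :=
    (Ts_small (n := k) hk h0 k).eventually (eventually_gt_atTop _)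
  have hsa : ∀ᶠ x in 𝓝[>] (0 : ℝ), x < a := nhdsWithin_le_nhds (eventually_lt_nhds ha)
  have hsp : ∀ᶠ x in 𝓝[>] (0 : ℝ), 0 < x := self_mem_nhdsWithin
  obtain ⟨a₀, h2, h3, h4⟩ := (hsm.and (hsa.and hsp)).exists
  set T : ℝ → ℝ := fun b => Ts S1 k k (b ^ 2) with hT
  have hTan : ∀ b ∈ Prm S1 k, AnalyticAt ℝ T b := by
    rintro b ⟨hb, hok⟩
    have h1 : AnalyticAt ℝ (Ts S1 k k) ((fun b : ℝ => b ^ 2) b) := analyticAt_Ts hok k
    have h2 : AnalyticAt ℝ (fun b : ℝ => b ^ 2) b := analyticAt_id.pow 2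
    exact AnalyticAt.comp (g := Ts S1 k k) (f := fun b : ℝ => b ^ 2) h1 h2
  have hmem : ∀ x : ℝ, 0 < x → Real.sqrt x ∈ Prm S1 k := by
    intro x hx
    refine ⟨Real.sqrt_pos.2 hx, ?_⟩
    rw [Real.sq_sqrt hx.le]
    exact ok_S1 hk hx
  have hTs : ∀ x : ℝ, 0 < x → T (Real.sqrt x) = Ts S1 k k x := by
    intro x hx
    show Ts S1 k k (Real.sqrt x ^ 2) = Ts S1 k k x
    rw [Real.sq_sqrt hx.le]
  set A : ℕ → ℝ := fun i => if i = 0 then a₀ else a with hA
  set B : ℕ → ℝ := fun i => if i = 0 then a else 4 * a with hB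
  have s1 : ∀ i < 2, Real.sqrt (A i) ∈ Prm S1 k ∧ Real.sqrt (B i) ∈ Prm S1 k ∧
      Real.sqrt (A i) < Real.sqrt (B i) ∧
      0 < (-1 : ℝ) ^ (i + 1) * (T (Real.sqrt (B i)) - T (Real.sqrt (A i))) := by
    intro i hi
    have h4a : 0 < 4 * a := by linarith
    interval_cases i
    · have eA : A 0 = a₀ := by simp [hA]
      have eB : B 0 = a := by simp [hB]
      rw [eA, eB, hTs a ha, hTs a₀ h4]
      refine ⟨hmem a₀ h4, hmem a ha, Real.sqrt_lt_sqrt h4.le h3, ?_⟩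
      have e : (-1 : ℝ) ^ (0 + 1) * (Ts S1 k k a - Ts S1 k k a₀) = Ts S1 k k a₀ - Ts S1 k k a := by
        ring
      rw [e]
      linarith
    · have eA : A 1 = a := by simp [hA]
      have eB : B 1 = 4 * a := by simp [hB]
      rw [eA, eB, hTs a ha, hTs (4 * a) h4a]
      refine ⟨hmem a ha, hmem (4 * a) h4a, Real.sqrt_lt_sqrt ha.le (by linarith), ?_⟩
      have e : (-1 : ℝ) ^ (1 + 1) * (Ts S1 k k (4 * a) - Ts S1 k k a)
          = Ts S1 k k (4 * a) - Ts S1 k k a := by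
        ring
      rw [e]
      linarith
  have s2 : ∀ i, i + 1 < 2 → Real.sqrt (B i) ≤ Real.sqrt (A (i + 1)) := by
    intro i hi
    have hi0 : i = 0 := by omega
    subst hi0
    have eA : A (0 + 1) = a := by simp [hA]
    have eB : B 0 = a := by simp [hB]
    rw [eA, eB]
  have hcount := count_pairs (I := Prm S1 k) ordConnected_Prm hTan (M := 2)
    (a := fun i => Real.sqrt (A i)) (b := fun i => Real.sqrt (B i)) s1 s2
  refine ⟨PL k, QL S1 k k, homog_PL k, ?_, isCenter_L hk h0 k, ?_, she_mono k,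
    Prm S1 k, fun b => (b, 0), isParam_L hk h0 k, ?_⟩
  · have e : 4 * k + 1 = 2 * (k + k) + 1 := by ring
    rw [e]
    exact homog_QL S1 k k
  · intro x
    rw [she_eval]
    ring
  · have hone : (1 : ℕ∞) = ((2 - 1 : ℕ) : ℕ∞) := by norm_num
    rw [hone]
    refine hcount.trans ?_
    apply Set.encard_le_encard
    have heq : ∀ s ∈ Prm S1 k,
        (fun r => minPeriod (vf (PL k) (QL S1 k k)) (r, 0)) =ᶠ[𝓝 s] T := by
      intro s hs
      filter_upwards [isOpen_Prm.mem_nhds hs] with r hr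
      exact minPeriod_L hr.2 k hr.1
    rintro s ⟨hs, hds, hiso⟩
    refine ⟨hs, ?_, ?_⟩
    · rw [(heq s hs).deriv_eq]
      exact hds
    · have h5 : ∀ᶠ r in 𝓝[≠] s, r ∈ Prm S1 k := nhdsWithin_le_nhds (isOpen_Prm.mem_nhds hs)
      filter_upwards [hiso, h5] with r hr hr0
      rw [(heq r hr0).deriv_eq]
      exact hr

end Pool.Agent.CritPer.H
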