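import Pool.Agent.CritPer.H.Ray

set_option autoImplicit false

/-!
HD-ZERA.  At a center the first component cannot be negative on the positive first axis.
Suppose `p 1 0 < 0`; then `r ↦ p 1 r` has a unique zero `r₀ > 0`.  If `q 1 r₀ = 0` there are equilibria near the origin.  If `q 1 r₀ > 0`, consider a time at which the first coordinate is maximal on a periodic orbit.
If `q 1 r₀ < 0` the wedge `r₀ x / 2 ≤ y ≤ r₀ x`, `0 < x ≤ x₀` is positively invariant.
-/

open Set Filter Topology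

namespace Pool.Agent.CritPer.H

private theorem zera_right {f : ℝ → ℝ} {t c : ℝ} (h : HasDerivAt f c t) (hc : c < 0) :
    ∀ᶠ s in 𝓝[>] t, f s < f t := by
  have h1 : Tendsto (slope f t) (𝓝[>] t) (𝓝 c) :=
    (hasDerivAt_iff_tendsto_slope.1 h).mono_left (nhdsWithin_mono _ fun s hs => ne_of_gt hs)
  filter_upwards [h1.eventually (Iio_mem_nhds hc), self_mem_nhdsWithin] with s hs hts
  have h2 : 0 < s - t := sub_pos.2 hts
  have h3 : slope f t s < 0 := hs
  rw [slope_def_field] at h3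
  by_contra h4
  push Not at h4
  exact absurd (div_nonneg (sub_nonneg.2 h4) h2.le) (not_le.2 h3)

theorem not_neg {k : ℕ} (hk : 1 ≤ k) {p q : ℝ → ℝ → ℝ}
    (cp : ContDiff ℝ 1 (fun z : ℝ × ℝ => p z.1 z.2))
    (cq : ContDiff ℝ 1 (fun z : ℝ × ℝ => q z.1 z.2))
    (hp : ∀ r x y, p (r * x) (r * y) = r ^ (2 * k + 1) * p x y)
    (hq : ∀ r x y, q (r * x) (r * y) = r ^ (4 * k + 1) * q x y)
    (mono : ∀ x, Monotone (p x)) (p01 : 0 < p 0 1)
    (hu : ∀ r r' : ℝ, p 1 r = 0 → p 1 r' = 0 → r = r')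
    {X : ℝ × ℝ → ℝ × ℝ} (hX : ∀ z, X z = (p z.1 z.2, q z.1 z.2))
    (hc : ∀ᶠ z in 𝓝[≠] (0 : ℝ × ℝ), z ∈ cyc X) : ¬ p 1 0 < 0 := by
  intro hneg
  have contP : Continuous (fun z : ℝ × ℝ => p z.1 z.2) := cp.continuous
  have hg : ∀ x r, p x (r * x) = x ^ (2 * k + 1) * p 1 r := by
    intro x r
    have h := hp x 1 r
    rw [mul_one, mul_comm x r] at h
    exact h
  have hh : ∀ x r, q x (r * x) = x ^ (4 * k + 1) * q 1 r := by
    intro x r
    have h := hq x 1 r
    rw [mul_one, mul_comm x r] at h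
    exact h
  obtain ⟨R, hR0, hR1⟩ : ∃ R : ℝ, 0 < R ∧ 0 < p 1 R := by
    have h1 : ∀ᶠ s in 𝓝[>] (0 : ℝ), 0 < p s 1 := by
      have h2 : Continuous fun s : ℝ => p s 1 :=
        contP.comp (continuous_id.prodMk continuous_const)
      exact ((h2.tendsto 0).mono_left nhdsWithin_le_nhds).eventually (Ioi_mem_nhds p01)
    obtain ⟨s, hs, hs0⟩ := (h1.and self_mem_nhdsWithin).exists
    have hs0' : 0 < s := hs0
    refine ⟨s⁻¹, inv_pos.2 hs0', ?_⟩
    have h3 := hp s⁻¹ s 1
    rw [inv_mul_cancel₀ hs0'.ne', mul_one] at h3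
    rw [h3]
    exact mul_pos (pow_pos (inv_pos.2 hs0') _) hs
  have hgc : Continuous (fun r : ℝ => p 1 r) :=
    contP.comp (continuous_const.prodMk continuous_id)
  obtain ⟨r₀, hr₀, hr₀0⟩ : ∃ r ∈ Icc (0 : ℝ) R, p 1 r = 0 :=
    intermediate_value_Icc hR0.le hgc.continuousOn ⟨hneg.le, hR1.le⟩
  have hr₀pos : 0 < r₀ := by
    rcases eq_or_lt_of_le hr₀.1 with h | h
    · rw [← h] at hr₀0
      exact absurd hr₀0 hneg.ne
    · exact h
  have hglt : ∀ r, r < r₀ → p 1 r < 0 := by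
    intro r hr
    have h1 : p 1 r ≤ p 1 r₀ := mono 1 hr.le
    rw [hr₀0] at h1
    exact lt_of_le_of_ne h1 fun h => hr.ne (hu r r₀ h hr₀0)
  have hggt : ∀ r, r₀ < r → 0 < p 1 r := by
    intro r hr
    have h1 : p 1 r₀ ≤ p 1 r := mono 1 hr.le
    rw [hr₀0] at h1
    exact lt_of_le_of_ne h1 fun h => hr.ne (hu r₀ r hr₀0 h.symm)
  have hpe : ∀ x y, 0 < x → p x y = x ^ (2 * k + 1) * p 1 (y / x) := by
    intro x y hx
    rw [← hg, div_mul_cancel₀ _ hx.ne']
  have hP1 : ∀ x y, 0 < x → y ≤ r₀ * x → p x y ≤ 0 := by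
    intro x y hx hy
    have h1 : p x y ≤ p x (r₀ * x) := mono x hy
    rw [hg, hr₀0, mul_zero] at h1
    exact h1
  have hP2 : ∀ x y, 0 < x → r₀ * x < y → 0 < p x y := by
    intro x y hx hy
    rw [hpe x y hx]
    exact mul_pos (pow_pos hx _) (hggt _ ((lt_div_iff₀ hx).2 hy))
  have hP3 : ∀ x y, 0 < x → p x y = 0 → y = r₀ * x := by
    intro x y hx hy
    rw [hpe x y hx] at hy
    have h1 : p 1 (y / x) = 0 := (mul_eq_zero.1 hy).resolve_left (pow_pos hx _).ne'
    rw [← hu _ _ h1 hr₀0, div_mul_cancel₀ _ hx.ne']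
  have hcx : ∀ᶠ x in 𝓝[>] (0 : ℝ), ((x, r₀ * x) : ℝ × ℝ) ∈ cyc X := by
    have h1 : Tendsto (fun x : ℝ => ((x, r₀ * x) : ℝ × ℝ)) (𝓝[>] 0) (𝓝[≠] 0) := by
      rw [tendsto_nhdsWithin_iff]
      constructor
      · have h2 : Continuous (fun x : ℝ => ((x, r₀ * x) : ℝ × ℝ)) := by fun_prop
        have h3 := h2.tendsto 0
        rw [mul_zero] at h3
        exact h3.mono_left nhdsWithin_le_nhds
      · filter_upwards [self_mem_nhdsWithin] with x hx
        intro h
        have h2 : x = 0 := congrArg Prod.fst h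
        exact (ne_of_gt hx) h2
    exact h1.eventually hc
  have hXC : ContDiff ℝ 1 X := by
    have h1 : X = fun z => (p z.1 z.2, q z.1 z.2) := funext hX
    rw [h1]
    exact cp.prodMk cq
  have hdx : ∀ {γ : ℝ → ℝ × ℝ}, IsSol X γ → ∀ t,
      HasDerivAt (fun s => (γ s).1) (p (γ t).1 (γ t).2) t := by
    intro γ h t
    have h1 := h t
    rw [hX] at h1
    exact h1.fst
  have hdy : ∀ {γ : ℝ → ℝ × ℝ}, IsSol X γ → ∀ t,
      HasDerivAt (fun s => (γ s).2) (q (γ t).1 (γ t).2) t := by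
    intro γ h t
    have h1 := h t
    rw [hX] at h1
    exact h1.snd
  have hcont : ∀ {γ : ℝ → ℝ × ℝ}, IsSol X γ → Continuous γ := fun h =>
    continuous_iff_continuousAt.2 fun t => (h t).continuousAt
  -- no equilibria
  have h0 : q 1 r₀ ≠ 0 := by
    intro h
    obtain ⟨x, hx, -⟩ := (hcx.and self_mem_nhdsWithin).exists
    obtain ⟨γ, ⟨hsol, -, t, ht⟩, hγ0, -⟩ := hx
    have hz : X (x, r₀ * x) = 0 := by
      rw [hX]
      show (p x (r₀ * x), q x (r₀ * x)) = 0
      rw [hg, hh, hr₀0, h, mul_zero, mul_zero]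
      rfl
    have hconst : IsSol X (fun _ => (x, r₀ * x)) := by
      intro s
      show HasDerivAt _ (X (x, r₀ * x)) s
      rw [hz]
      exact hasDerivAt_const _ _
    have h1 := IsSol.unique hXC hsol hconst hγ0
    apply ht
    rw [h1]
  rcases lt_or_gt_of_ne h0 with hneg0 | hpos0
  · -- (A)
    have hr₁ : 0 < r₀ / 2 := by positivity
    set r₁ := r₀ / 2 with hr₁def
    have hr₁₀ : r₁ < r₀ := by rw [hr₁def]; linarith
    have hg1 : p 1 r₁ < 0 := hglt r₁ hr₁₀
    have hδ : 0 < -(r₁ * p 1 r₁) := by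
      have := mul_neg_of_pos_of_neg hr₁ hg1
      linarith
    have hsm : ∀ᶠ x in 𝓝[>] (0 : ℝ), x ^ (2 * k) * |q 1 r₁| < -(r₁ * p 1 r₁) := by
      have h1 : Continuous fun x : ℝ => x ^ (2 * k) * |q 1 r₁| := by fun_prop
      have h2 := h1.tendsto 0
      have h3 : (0 : ℝ) ^ (2 * k) = 0 := zero_pow (by omega)
      rw [h3, zero_mul] at h2
      exact (h2.mono_left nhdsWithin_le_nhds).eventually (Iio_mem_nhds hδ)
    obtain ⟨x₀, ⟨hxc, hxs⟩, hx0⟩ := ((hcx.and hsm).and self_mem_nhdsWithin).exists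
    have hx0' : 0 < x₀ := hx0
    obtain ⟨γ, ⟨hsol, ⟨T, hT, hper⟩, -⟩, hγ0, hS⟩ := hxc
    have hγc := hcont hsol
    have hxc : Continuous fun s => (γ s).1 := continuous_fst.comp hγc
    have hyc : Continuous fun s => (γ s).2 := continuous_snd.comp hγc
    set W : Set (ℝ × ℝ) := {z | 0 ≤ z.1 ∧ z.1 ≤ x₀ ∧ r₁ * z.1 ≤ z.2 ∧ z.2 ≤ r₀ * z.1} with hW
    have hWc : IsClosed W := by
      have e1 : IsClosed {z : ℝ × ℝ | 0 ≤ z.1} := isClosed_le continuous_const continuous_fst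
      have e2 : IsClosed {z : ℝ × ℝ | z.1 ≤ x₀} := isClosed_le continuous_fst continuous_const
      have e3 : IsClosed {z : ℝ × ℝ | r₁ * z.1 ≤ z.2} :=
        isClosed_le (continuous_const.mul continuous_fst) continuous_snd
      have e4 : IsClosed {z : ℝ × ℝ | z.2 ≤ r₀ * z.1} :=
        isClosed_le continuous_snd (continuous_const.mul continuous_fst)
      exact e1.inter (e2.inter (e3.inter e4))
    have hWpos : ∀ t, γ t ∈ W → 0 < (γ t).1 := by
      intro t ht
      rcases eq_or_lt_of_le ht.1 with h | h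
      · exfalso
        have h1 := ht.2.2.1
        have h2 := ht.2.2.2
        rw [← h, mul_zero] at h1 h2
        apply hS.1
        exact ⟨t, Prod.ext h.symm (le_antisymm h2 h1)⟩
      · exact h
    have hstep : ∀ t, γ t ∈ W → ∀ᶠ s in 𝓝[>] t, γ s ∈ W := by
      intro t ht
      have hxt := hWpos t ht
      have e1 : ∀ᶠ s in 𝓝[>] t, 0 < (γ s).1 :=
        ((hxc.tendsto t).mono_left nhdsWithin_le_nhds).eventually (Ioi_mem_nhds hxt)
      have e2 : ∀ᶠ s in 𝓝[>] t, (γ s).2 ≤ r₀ * (γ s).1 := by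
        rcases eq_or_lt_of_le ht.2.2.2 with h | h
        · have h1 := (hdy hsol t).sub ((hdx hsol t).const_mul r₀)
          have h2 : q (γ t).1 (γ t).2 - r₀ * p (γ t).1 (γ t).2 < 0 := by
            rw [h, hg, hh, hr₀0, mul_zero, mul_zero, sub_zero]
            exact mul_neg_of_pos_of_neg (pow_pos hxt _) hneg0
          filter_upwards [zera_right h1 h2] with s hs
          have h3 : (γ s).2 - r₀ * (γ s).1 < (γ t).2 - r₀ * (γ t).1 := hs
          rw [h] at h3
          linarith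
        · have h1 : Continuous fun s => r₀ * (γ s).1 - (γ s).2 := (continuous_const.mul hxc).sub hyc
          have h2 : 0 < r₀ * (γ t).1 - (γ t).2 := sub_pos.2 h
          filter_upwards [((h1.tendsto t).mono_left nhdsWithin_le_nhds).eventually
            (Ioi_mem_nhds h2)] with s hs
          have h3 : 0 < r₀ * (γ s).1 - (γ s).2 := hs
          linarith
      have e3 : ∀ᶠ s in 𝓝[>] t, r₁ * (γ s).1 ≤ (γ s).2 := by
        rcases eq_or_lt_of_le ht.2.2.1 with h | h
        · have h1 := ((hdx hsol t).const_mul r₁).sub (hdy hsol t)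
          have h2 : r₁ * p (γ t).1 (γ t).2 - q (γ t).1 (γ t).2 < 0 := by
            rw [← h, hg, hh]
            have h4 : (γ t).1 ^ (2 * k) * |q 1 r₁| < -(r₁ * p 1 r₁) := by
              refine lt_of_le_of_lt ?_ hxs
              exact mul_le_mul_of_nonneg_right (pow_le_pow_left₀ hxt.le ht.2.1 _) (abs_nonneg _)
            have h5 : -((γ t).1 ^ (2 * k) * q 1 r₁) ≤ (γ t).1 ^ (2 * k) * |q 1 r₁| := by
              rw [← mul_neg]
              exact mul_le_mul_of_nonneg_left (neg_le_abs _) (pow_pos hxt _).le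
            have h6 : r₁ * ((γ t).1 ^ (2 * k + 1) * p 1 r₁) - (γ t).1 ^ (4 * k + 1) * q 1 r₁ =
                (γ t).1 ^ (2 * k + 1) * (r₁ * p 1 r₁ - (γ t).1 ^ (2 * k) * q 1 r₁) := by
              ring
            rw [h6]
            exact mul_neg_of_pos_of_neg (pow_pos hxt _) (by linarith)
          filter_upwards [zera_right h1 h2] with s hs
          have h3 : r₁ * (γ s).1 - (γ s).2 < r₁ * (γ t).1 - (γ t).2 := hs
          rw [← h] at h3
          linarith
        · have h1 : Continuous fun s => (γ s).2 - r₁ * (γ s).1 := hyc.sub (continuous_const.mul hxc)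
          have h2 : 0 < (γ t).2 - r₁ * (γ t).1 := sub_pos.2 h
          filter_upwards [((h1.tendsto t).mono_left nhdsWithin_le_nhds).eventually
            (Ioi_mem_nhds h2)] with s hs
          have h3 : 0 < (γ s).2 - r₁ * (γ s).1 := hs
          linarith
      have e4 : ∀ᶠ s in 𝓝[>] t, (γ s).1 ≤ (γ t).1 := by
        obtain ⟨u, hu1, hu2⟩ := mem_nhdsGT_iff_exists_Ioo_subset.1 (e1.and e2)
        filter_upwards [Ioo_mem_nhdsGT hu1] with s hs
        have h1 : AntitoneOn (fun s => (γ s).1) (Icc t s) := by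
          refine antitoneOn_of_deriv_nonpos (convex_Icc t s) hxc.continuousOn
            (fun w _ => (hdx hsol w).differentiableAt.differentiableWithinAt) fun w hw => ?_
          rw [interior_Icc] at hw
          have h2 := hu2 ⟨hw.1, hw.2.trans hs.2⟩
          rw [(hdx hsol w).deriv]
          exact hP1 _ _ h2.1 h2.2
        exact h1 (left_mem_Icc.2 hs.1.le) (right_mem_Icc.2 hs.1.le) hs.1.le
      filter_upwards [e1, e2, e3, e4] with s h1 h2 h3 h4
      exact ⟨h1.le, h4.trans ht.2.1, h3, h2⟩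
    have h0W : γ 0 ∈ W := by
      rw [hγ0]
      exact ⟨hx0'.le, le_rfl, mul_le_mul_of_nonneg_right hr₁₀.le hx0'.le, le_rfl⟩
    have hall : ∀ b, 0 ≤ b → γ b ∈ W := by
      intro b hb
      have h1 : Icc 0 b ⊆ γ ⁻¹' W := by
        refine IsClosed.Icc_subset_of_forall_exists_gt
          ((hWc.preimage hγc).inter isClosed_Icc) h0W fun t ht w hw => ?_
        have h2 : ∀ᶠ s in 𝓝[>] t, s ∈ Ioc t w := Ioc_mem_nhdsGT hw
        exact ((hstep t ht.1).and h2).exists
      exact h1 ⟨hb, le_rfl⟩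
    obtain ⟨r, hr, s, hs⟩ := hits_ray hS (v := ((-1 : ℝ), (0 : ℝ))) (by
      intro h
      have := congrArg Prod.fst h
      norm_num at this)
    obtain ⟨m, hm⟩ := exists_nat_gt (-s / T)
    have hm' : 0 ≤ s + m * T := by
      rw [div_lt_iff₀ hT] at hm
      linarith
    have h1 : γ (s + m * T) = γ s := (show Function.Periodic γ T from hper).nat_mul m s
    have h2 := (hall _ hm').1
    rw [h1, hs] at h2
    have h3 : (r • (((-1 : ℝ), (0 : ℝ)) : ℝ × ℝ)).1 = -r := by simp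
    rw [h3] at h2
    linarith
  · -- (B)
    obtain ⟨x, hx, -⟩ := (hcx.and self_mem_nhdsWithin).exists
    obtain ⟨γ, ⟨hsol, ⟨T, hT, hper⟩, -⟩, -, hS⟩ := hx
    have hγc := hcont hsol
    have hxc : Continuous fun s => (γ s).1 := continuous_fst.comp hγc
    have hyc : Continuous fun s => (γ s).2 := continuous_snd.comp hγc
    obtain ⟨t₀, ht₀⟩ : ∃ t₀, ∀ t, (γ t).1 ≤ (γ t₀).1 := by
      obtain ⟨t₀, -, h⟩ := isCompact_Icc.exists_isMaxOn (nonempty_Icc.2 hT.le) hxc.continuousOn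
      refine ⟨t₀, fun t => ?_⟩
      obtain ⟨s, hs, hst⟩ := (show Function.Periodic γ T from hper).exists_mem_Ico₀ hT t
      rw [hst]
      exact h (Ico_subset_Icc_self hs)
    have hxt : 0 < (γ t₀).1 := by
      obtain ⟨r, hr, s, hs⟩ := hits_ray hS (v := ((1 : ℝ), (0 : ℝ))) (by
        intro h
        have := congrArg Prod.fst h
        norm_num at this)
      have h1 := ht₀ s
      rw [hs] at h1
      have h3 : (r • (((1 : ℝ), (0 : ℝ)) : ℝ × ℝ)).1 = r := by simp
      rw [h3] at h1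
      linarith
    have hp0 : p (γ t₀).1 (γ t₀).2 = 0 := by
      have h1 : IsLocalMax (fun s => (γ s).1) t₀ := Filter.Eventually.of_forall ht₀
      exact h1.hasDerivAt_eq_zero (hdx hsol t₀)
    have hy0 : (γ t₀).2 = r₀ * (γ t₀).1 := hP3 _ _ hxt hp0
    have e1 : ∀ᶠ s in 𝓝[>] t₀, 0 < (γ s).1 :=
      ((hxc.tendsto t₀).mono_left nhdsWithin_le_nhds).eventually (Ioi_mem_nhds hxt)
    have e2 : ∀ᶠ s in 𝓝[>] t₀, r₀ * (γ s).1 < (γ s).2 := by
      have h1 := ((hdx hsol t₀).const_mul r₀).sub (hdy hsol t₀)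
      have h2 : r₀ * p (γ t₀).1 (γ t₀).2 - q (γ t₀).1 (γ t₀).2 < 0 := by
        rw [hp0, hy0, hh, mul_zero, zero_sub]
        exact neg_neg_of_pos (mul_pos (pow_pos hxt _) hpos0)
      filter_upwards [zera_right h1 h2] with s hs
      have h3 : r₀ * (γ s).1 - (γ s).2 < r₀ * (γ t₀).1 - (γ t₀).2 := hs
      rw [hy0] at h3
      linarith
    obtain ⟨u, hu1, hu2⟩ := mem_nhdsGT_iff_exists_Ioo_subset.1 (e1.and e2)
    have hu1' : t₀ < u := hu1
    have h1 : StrictMonoOn (fun s => (γ s).1) (Icc t₀ ((t₀ + u) / 2)) := by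
      refine strictMonoOn_of_deriv_pos (convex_Icc _ _) hxc.continuousOn fun w hw => ?_
      rw [interior_Icc] at hw
      have h2 := hu2 ⟨hw.1, by linarith [hw.2]⟩
      rw [(hdx hsol w).deriv]
      exact hP2 _ _ h2.1 h2.2
    have h2 := h1 (left_mem_Icc.2 (by linarith)) (right_mem_Icc.2 (by linarith))
      (show t₀ < (t₀ + u) / 2 by linarith)
    exact absurd (ht₀ ((t₀ + u) / 2)) (not_le.2 h2)

end Pool.Agent.CritPer.H
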