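import Pool.Agent.CritPer.H.ZerA
import Pool.Agent.CritPer.H.Pol

set_option autoImplicit false

/-!
HD-ZERB.  For a center with `P (x, ·)` nondecreasing the polynomial `P` vanishes on the first axis.
PLAN.  `p x y = eval ![x, y] P`, `q` likewise; `cp`, `cq`: `contDiff_ev`; `hp`, `hq`: `eval_smul_hom`.  `p 0 1 > 0`: a point near the origin lies on a periodic orbit around the origin, `p01_ne`, and `p 0 1 ≥ p 0 0 = 0`.  Unique zero of `p 1`: if `p 1 r = p 1 r' = 0`, `r < r'`, then `p 1 = 0` on `[r, r']`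
(`mono`), so the one-variable polynomial `r ↦ p 1 r` vanishes identically (infinitely many roots), then `p (1/n) 1 = n^(-(2k+1)) p 1 n = 0`, so `p 0 1 = 0` by continuity: contradiction.  `not_neg` gives `0 ≤ p 1 0`.
For the other sign apply `not_neg` to `p' x y = - p x (-y)`, `q' x y = q x (-y)`, the field of the curves `t ↦ ((γ (-t)).1, -(γ (-t)).2)`: `p'` is nondecreasing in `y`, `p' 0 1 = - p 0 (-1) = p 0 1`, `p' 1 0 = - p 1 0`; the points of `cyc` of the new field near `0` are the images of those of `cyc (vf P Q)` under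
`(x, y) ↦ (x, -y)` (`surrounds_image`).  So `p 1 0 = 0` and `p x 0 = x^(2k+1) p 1 0 = 0`.
-/

open Set Filter Topology

namespace Pool.Agent.CritPer.H

private theorem zerB_hu {k : ℕ} {P : MvPolynomial (Fin 2) ℝ} (hP : P.IsHomogeneous (2 * k + 1))
    (mono : ∀ x : ℝ, Monotone (fun y : ℝ => MvPolynomial.eval ![x, y] P))
    (p01 : MvPolynomial.eval ![0, 1] P ≠ 0) {r r' : ℝ} (h : MvPolynomial.eval ![1, r] P = 0)
    (h' : MvPolynomial.eval ![1, r'] P = 0) : ¬ r < r' := by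
  intro hlt
  have h1 : ∀ s ∈ Icc r r', MvPolynomial.eval ![1, s] P = 0 := by
    intro s hs
    have h2 : MvPolynomial.eval ![1, r] P ≤ MvPolynomial.eval ![1, s] P := mono 1 hs.1
    have h3 : MvPolynomial.eval ![1, s] P ≤ MvPolynomial.eval ![1, r'] P := mono 1 hs.2
    rw [h] at h2
    rw [h'] at h3
    exact le_antisymm h3 h2
  set G : Polynomial ℝ := MvPolynomial.aeval ![(1 : Polynomial ℝ), Polynomial.X] P with hG
  have hGe : ∀ s : ℝ, Polynomial.eval s G = MvPolynomial.eval ![1, s] P := by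
    intro s
    have h2 : Polynomial.eval s G = (Polynomial.evalRingHom s)
        (MvPolynomial.aeval ![(1 : Polynomial ℝ), Polynomial.X] P) := rfl
    rw [h2, MvPolynomial.aeval_def, MvPolynomial.hom_eval₂]
    have h3 : (Polynomial.evalRingHom s).comp (algebraMap ℝ (Polynomial ℝ)) = RingHom.id ℝ := by
      ext x
      simp
    rw [h3]
    have h4 : (fun i => (Polynomial.evalRingHom s) ((![(1 : Polynomial ℝ), Polynomial.X] :
        Fin 2 → Polynomial ℝ) i)) = ![1, s] := by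
      funext i
      fin_cases i <;> simp
    rw [h4]
    rfl
  have hG0 : G = 0 := by
    apply Polynomial.eq_zero_of_infinite_isRoot
    refine Infinite.mono ?_ (Icc_infinite hlt)
    intro s hs
    show Polynomial.eval s G = 0
    rw [hGe]
    exact h1 s hs
  have h2 : ∀ s : ℝ, MvPolynomial.eval ![1, s] P = 0 := by
    intro s
    rw [← hGe, hG0, Polynomial.eval_zero]
  have h3 : ∀ x : ℝ, x ≠ 0 → MvPolynomial.eval ![x, 1] P = 0 := by
    intro x hx
    have h4 := eval_smul_hom hP x 1 (1 / x)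
    rw [mul_one, mul_one_div_cancel hx, h2, mul_zero] at h4
    exact h4
  have hc : Continuous (fun x : ℝ => MvPolynomial.eval ![x, 1] P) := by
    have h5 : Continuous (fun z : ℝ × ℝ => MvPolynomial.eval ![z.1, z.2] P) :=
      (contDiff_ev P (m := 1)).continuous
    have h6 : Continuous (fun x : ℝ => ((x, 1) : ℝ × ℝ)) :=
      continuous_id.prodMk continuous_const
    have h7 := h5.comp h6
    rw [Function.comp_def] at h7
    exact h7
  have h4 : (fun x : ℝ => MvPolynomial.eval ![x, 1] P) = fun _ => 0 := by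
    refine hc.ext_on (dense_compl_singleton (0 : ℝ)) continuous_const ?_
    intro x hx
    exact h3 x hx
  have h6 := congrFun h4 0
  beta_reduce at h6
  exact p01 h6

private theorem zerB_cyc {X X' : ℝ × ℝ → ℝ × ℝ}
    (hX' : ∀ z, X' z = (-(X (z.1, -z.2)).1, (X (z.1, -z.2)).2)) {z : ℝ × ℝ}
    (hz : (z.1, -z.2) ∈ cyc X) : z ∈ cyc X' := by
  obtain ⟨γ, ⟨h1, ⟨T, hT, hT2⟩, t, ht⟩, h0, hS⟩ := hz
  refine ⟨fun t => ((γ (-t)).1, -(γ (-t)).2), ⟨fun t => ?_, ⟨T, hT, fun t => ?_⟩, -t, ?_⟩, ?_, ?_⟩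
  · have h2 : HasDerivAt (fun t : ℝ => γ (-t)) (-X (γ (-t))) t := by
      have h3 := (h1 (-t)).scomp t (hasDerivAt_neg t)
      rw [neg_one_smul] at h3
      exact h3
    have h4 : HasDerivAt (fun t : ℝ => (γ (-t)).1) (-X (γ (-t))).1 t := h2.fst
    have h5 : HasDerivAt (fun t : ℝ => (γ (-t)).2) (-X (γ (-t))).2 t := h2.snd
    have h6 := h4.prodMk h5.neg
    have h7 : ((-X (γ (-t))).1, -(-X (γ (-t))).2) = X' ((γ (-t)).1, -(γ (-t)).2) := by
      rw [hX']
      simp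
    rw [h7] at h6
    exact h6
  · have h2 : γ (-(t + T)) = γ (-t) := by
      rw [← hT2 (-(t + T))]
      congr 1
      ring
    show ((γ (-(t + T))).1, -(γ (-(t + T))).2) = ((γ (-t)).1, -(γ (-t)).2)
    rw [h2]
  · intro h
    apply ht
    have h2 : ((γ (- -t)).1, -(γ (- -t)).2) = ((γ (-0)).1, -(γ (-0)).2) := h
    rw [neg_neg, neg_zero] at h2
    obtain ⟨h5, h6⟩ := Prod.mk.inj h2
    exact Prod.ext h5 (neg_injective h6)
  · show ((γ (-0)).1, -(γ (-0)).2) = z
    rw [neg_zero, h0]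
    simp
  · have h3 := surrounds_image hS ((ContinuousLinearEquiv.refl ℝ ℝ).prodCongr
      (ContinuousLinearEquiv.neg ℝ : ℝ ≃L[ℝ] ℝ))
    have h4 : range (fun t => ((((γ (-t)).1, -(γ (-t)).2)) : ℝ × ℝ)) =
        ((ContinuousLinearEquiv.refl ℝ ℝ).prodCongr
      (ContinuousLinearEquiv.neg ℝ : ℝ ≃L[ℝ] ℝ)) '' range γ := by
      ext z
      constructor
      · rintro ⟨s, rfl⟩
        exact ⟨γ (-s), ⟨-s, rfl⟩, rfl⟩
      · rintro ⟨_, ⟨s, rfl⟩, rfl⟩
        refine ⟨-s, ?_⟩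
        show ((γ (- -s)).1, -(γ (- -s)).2) = ((γ s).1, -(γ s).2)
        rw [neg_neg]
    rw [h4]
    exact h3

private theorem zerB_main {k : ℕ} (hk : 1 ≤ k) {p q : ℝ → ℝ → ℝ}
    (cp : ContDiff ℝ 1 (fun z : ℝ × ℝ => p z.1 z.2))
    (cq : ContDiff ℝ 1 (fun z : ℝ × ℝ => q z.1 z.2))
    (hp : ∀ r x y, p (r * x) (r * y) = r ^ (2 * k + 1) * p x y)
    (hq : ∀ r x y, q (r * x) (r * y) = r ^ (4 * k + 1) * q x y)
    (mono : ∀ x, Monotone (p x)) (p01 : 0 < p 0 1)
    (hu : ∀ r r' : ℝ, p 1 r = 0 → p 1 r' = 0 → r = r')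
    {X : ℝ × ℝ → ℝ × ℝ} (hX : ∀ z, X z = (p z.1 z.2, q z.1 z.2))
    (hc : ∀ᶠ z in 𝓝[≠] (0 : ℝ × ℝ), z ∈ cyc X) : p 1 0 = 0 := by
  have n1 : ¬ p 1 0 < 0 := not_neg hk cp cq hp hq mono p01 hu hX hc
  have cr : ContDiff ℝ 1 (fun z : ℝ × ℝ => (z.1, -z.2)) := contDiff_fst.prodMk contDiff_snd.neg
  have n2 : ¬ (fun x y => -p x (-y)) 1 0 < 0 := by
    refine not_neg hk (p := fun x y => -p x (-y)) (q := fun x y => q x (-y)) ?_ ?_ ?_ ?_ ?_ ?_ ?_
      (X := fun z => (-p z.1 (-z.2), q z.1 (-z.2))) (fun z => rfl) ?_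
    · exact (cp.comp cr).neg
    · exact cq.comp cr
    · intro r x y
      have h1 := hp r x (-y)
      rw [mul_neg] at h1
      rw [h1]
      ring
    · intro r x y
      have h1 := hq r x (-y)
      rw [mul_neg] at h1
      rw [h1]
    · intro x y y' hyy
      exact neg_le_neg (mono x (neg_le_neg hyy))
    · have h1 := hp (-1) 0 1
      rw [mul_zero, mul_one, Odd.neg_one_pow ⟨k, rfl⟩] at h1
      rw [h1]
      linarith
    · intro r r' h h'
      exact neg_injective (hu _ _ (neg_eq_zero.1 h) (neg_eq_zero.1 h'))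
    · have ht : Tendsto (fun z : ℝ × ℝ => (z.1, -z.2)) (𝓝[≠] (0 : ℝ × ℝ)) (𝓝[≠] (0 : ℝ × ℝ)) := by
        refine tendsto_nhdsWithin_iff.2 ⟨?_, ?_⟩
        · have h1 := cr.continuous.tendsto (0 : ℝ × ℝ)
          have h2 : (((0 : ℝ × ℝ).1, -(0 : ℝ × ℝ).2) : ℝ × ℝ) = 0 := by simp
          rw [h2] at h1
          exact h1.mono_left nhdsWithin_le_nhds
        · filter_upwards [self_mem_nhdsWithin] with z hz h1
          apply hz
          have h2 : (z.1, -z.2) = (0 : ℝ × ℝ) := h1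
          obtain ⟨h3, h4⟩ := Prod.mk.inj h2
          exact Prod.ext h3 (neg_eq_zero.1 h4)
      filter_upwards [ht.eventually hc] with z hz
      refine zerB_cyc (fun z => ?_) hz
      rw [hX]
  beta_reduce at n2
  rw [neg_zero] at n2
  linarith

theorem px_of_center {k : ℕ} (hk : 1 ≤ k) {P Q : MvPolynomial (Fin 2) ℝ}
    (hP : P.IsHomogeneous (2 * k + 1)) (hQ : Q.IsHomogeneous (4 * k + 1))
    (hc : IsCenter (vf P Q))
    (mono : ∀ x : ℝ, Monotone (fun y : ℝ => MvPolynomial.eval ![x, y] P)) (x : ℝ) :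
    MvPolynomial.eval ![x, 0] P = 0 := by
  obtain ⟨z₀, γ, hγ, _, hS⟩ := hc.2.exists
  have hp : ∀ r x y : ℝ, MvPolynomial.eval ![r * x, r * y] P =
      r ^ (2 * k + 1) * MvPolynomial.eval ![x, y] P := fun r x y => eval_smul_hom hP r x y
  have hq : ∀ r x y : ℝ, MvPolynomial.eval ![r * x, r * y] Q =
      r ^ (4 * k + 1) * MvPolynomial.eval ![x, y] Q := fun r x y => eval_smul_hom hQ r x y
  have p01n : MvPolynomial.eval ![(0 : ℝ), 1] P ≠ 0 := p01_ne hP hγ hS
  have p00 : MvPolynomial.eval ![(0 : ℝ), 0] P = 0 := by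
    have h1 := hp 0 0 0
    rw [zero_pow (by omega), zero_mul, zero_mul] at h1
    exact h1
  have p01 : 0 < MvPolynomial.eval ![(0 : ℝ), 1] P := by
    have h1 := mono 0 (zero_le_one (α := ℝ))
    beta_reduce at h1
    rw [p00] at h1
    exact lt_of_le_of_ne h1 (Ne.symm p01n)
  have hu : ∀ r r' : ℝ, MvPolynomial.eval ![1, r] P = 0 → MvPolynomial.eval ![1, r'] P = 0 →
      r = r' := by
    intro r r' h h'
    exact le_antisymm (not_lt.1 (zerB_hu hP mono p01n h' h)) (not_lt.1 (zerB_hu hP mono p01n h h'))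
  have h0 : MvPolynomial.eval ![(1 : ℝ), 0] P = 0 :=
    zerB_main hk (p := fun x y => MvPolynomial.eval ![x, y] P)
      (q := fun x y => MvPolynomial.eval ![x, y] Q) (contDiff_ev P) (contDiff_ev Q) hp hq mono p01
      hu (X := vf P Q) (fun z => rfl) hc.2
  have h1 := hp x 1 0
  rw [mul_one, mul_zero, h0, mul_zero] at h1
  exact h1

end Pool.Agent.CritPer.H
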